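import Pool.Agent.Run7.h385.PO.Stm
import Pool.Agent.H373R2.T7.BilF

set_option autoImplicit false

namespace Pool.Agent.Run7.h385.PO

open Finset
open Pool.Agent.H373R2.T7
open Pool.Agent.H807R2.Dav

lemma pars (M S : ℕ) (hM : 1 ≤ M) (c : ℤ) (hc : c ≠ 0) (hcM : |c| * S ≤ M) (f : ℕ → ℝ) (R : ℝ)
    (hf : ∀ s ∈ range S, |f s| ≤ R) :
    ∑ r ∈ range M, ‖∑ s ∈ range S, ((f s : ℝ) : ℂ) * ee ((r : ℝ) * (((c * (s : ℤ) : ℤ) : ℝ) / M))‖ ^ 2 ≤ M * (S * R ^ 2) := by
  have h := sq_expand (range S) (fun s => ((f s : ℝ) : ℂ)) (fun s : ℕ => c * (s : ℤ)) M hM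
  have h2 : ∑ i ∈ range S, ∑ j ∈ range S, ((f i : ℝ) : ℂ) * (starRingEnd ℂ) ((f j : ℝ) : ℂ) *
      (if (M : ℤ) ∣ c * (i : ℤ) - c * (j : ℤ) then (M : ℂ) else 0) = ∑ i ∈ range S, (((f i) ^ 2 * M : ℝ) : ℂ) := by
    apply sum_congr rfl
    intro i hi
    rw [sum_eq_single i]
    · rw [sub_self, if_pos (dvd_zero _), Complex.conj_ofReal]
      push_cast
      ring
    · intro j hj hji
      rw [if_neg, mul_zero]
      intro hd
      rw [← mul_sub] at hd
      rw [mem_range] at hi hj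
      have hne : c * ((i : ℤ) - j) ≠ 0 := by
        apply mul_ne_zero hc
        intro h0
        apply hji
        omega
      have h1 := Int.le_of_dvd (abs_pos.2 hne) ((dvd_abs _ _).2 hd)
      rw [abs_mul] at h1
      have h3 : |(i : ℤ) - j| < S := by
        rw [abs_lt]
        constructor <;> omega
      have h4 : |c| * |(i : ℤ) - j| < |c| * S := mul_lt_mul_of_pos_left h3 (abs_pos.2 hc)
      omega
    · intro h0
      exact absurd hi h0
  rw [h2] at h
  have h3 : ∑ r ∈ range M, ‖∑ s ∈ range S, ((f s : ℝ) : ℂ) * ee ((r : ℝ) * (((c * (s : ℤ) : ℤ) : ℝ) / M))‖ ^ 2 =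
      ∑ i ∈ range S, (f i) ^ 2 * (M : ℝ) := by
    apply Complex.ofReal_injective
    rw [h]
    push_cast
    rfl
  rw [h3, ← sum_mul, mul_comm]
  apply mul_le_mul_of_nonneg_left _ (Nat.cast_nonneg _)
  calc ∑ i ∈ range S, (f i) ^ 2 ≤ ∑ i ∈ range S, R ^ 2 := by
        apply sum_le_sum
        intro i hi
        rw [← sq_abs]
        exact pow_le_pow_left₀ (abs_nonneg _) (hf i hi) 2
    _ = _ := by rw [sum_const, card_range, nsmul_eq_mul]

theorem t_BIL : S_BIL := by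
  intro K Δ B hB S u α β hα hβ hr f h R hR hf hh
  set M : ℕ := 2 * K + 1 + α.natAbs * S + β.natAbs * S with hMdef
  have hM : 1 ≤ M := by omega
  have hM0 : (0 : ℝ) < M := by exact_mod_cast hM
  have hαM : |(-α)| * S ≤ (M : ℤ) := by
    rw [abs_neg, Int.abs_eq_natAbs, hMdef]
    push_cast
    have : (0 : ℤ) ≤ β.natAbs * S := by positivity
    have h0 : (0:ℤ) ≤ K := by positivity
    rw [Int.natCast_natAbs] at this
    linarith
  have hβM : |(-β)| * S ≤ (M : ℤ) := by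
    rw [abs_neg, Int.abs_eq_natAbs, hMdef]
    push_cast
    have : (0 : ℤ) ≤ α.natAbs * S := by positivity
    have h0 : (0:ℤ) ≤ K := by positivity
    rw [Int.natCast_natAbs] at this
    linarith
  have hB0 : 0 ≤ B := (norm_nonneg _).trans (hB 0)
  set D : ℕ → ℂ := fun r => ∑ m ∈ Icc (-(K : ℤ)) K, ((Δ m : ℝ) : ℂ) * ee ((m : ℝ) * ((r : ℝ) / M)) with hD
  set F : ℕ → ℂ := fun r => ∑ s ∈ range S, ((f s : ℝ) : ℂ) * ee ((r : ℝ) * (((-α * (s : ℤ) : ℤ) : ℝ) / M)) with hF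
  set H : ℕ → ℂ := fun r => ∑ s ∈ range S, ((h s : ℝ) : ℂ) * ee ((r : ℝ) * (((-β * (s : ℤ) : ℤ) : ℝ) / M)) with hH
  set T : ℝ := ∑ s ∈ range S, ∑ s' ∈ range S, Δ (u + α * (s : ℤ) + β * (s' : ℤ)) * (f s * h s') with hT
  have key : ∑ r ∈ range M, D r * ee ((r : ℝ) * (((-u : ℤ) : ℝ) / M)) * (F r * H r) = ((M * T : ℝ) : ℂ) := by
    have e1 : ∀ r ∈ range M, D r * ee ((r : ℝ) * (((-u : ℤ) : ℝ) / M)) * (F r * H r) =
        ∑ s ∈ range S, ∑ s' ∈ range S, ∑ m ∈ Icc (-(K : ℤ)) K,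
          (((Δ m : ℝ) : ℂ) * (((f s : ℝ) : ℂ) * ((h s' : ℝ) : ℂ))) *
            ee ((r : ℝ) * (((m - (u + α * (s : ℤ) + β * (s' : ℤ)) : ℤ) : ℝ) / M)) := by
      intro r _
      rw [hD, hF, hH]
      simp only
      rw [sum_mul_sum, mul_sum]
      apply sum_congr rfl
      intro s _
      rw [mul_sum]
      apply sum_congr rfl
      intro s' _
      rw [sum_mul, sum_mul]
      apply sum_congr rfl
      intro m _
      have e2 : ee ((r : ℝ) * (((m - (u + α * (s : ℤ) + β * (s' : ℤ)) : ℤ) : ℝ) / M)) =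
          ee ((m : ℝ) * ((r : ℝ) / M)) * ee ((r : ℝ) * (((-u : ℤ) : ℝ) / M)) *
            (ee ((r : ℝ) * (((-α * (s : ℤ) : ℤ) : ℝ) / M)) * ee ((r : ℝ) * (((-β * (s' : ℤ) : ℤ) : ℝ) / M))) := by
        rw [← ee_add, ← ee_add, ← ee_add]
        congr 1
        push_cast
        ring
      rw [e2]
      ring
    have e4 : ((M * T : ℝ) : ℂ) = ∑ s ∈ range S, ∑ s' ∈ range S,
        (M : ℂ) * (((Δ (u + α * (s : ℤ) + β * (s' : ℤ)) : ℝ) : ℂ) * (((f s : ℝ) : ℂ) * ((h s' : ℝ) : ℂ))) := by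
      rw [hT, mul_sum]
      push_cast
      apply sum_congr rfl
      intro s _
      rw [mul_sum]
    rw [sum_congr rfl e1, sum_comm, e4]
    apply sum_congr rfl
    intro s hs
    rw [sum_comm]
    apply sum_congr rfl
    intro s' hs'
    rw [sum_comm]
    set v : ℤ := u + α * (s : ℤ) + β * (s' : ℤ) with hv
    have hvK : |v| ≤ K := hr s hs s' hs'
    rw [sum_eq_single v]
    · rw [← mul_sum, orth M hM, sub_self, if_pos (dvd_zero _)]
      ring
    · intro m hm hmv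
      rw [← mul_sum, orth M hM, if_neg, mul_zero]
      intro hd
      have hne : m - v ≠ 0 := sub_ne_zero.2 hmv
      have h1 := Int.le_of_dvd (abs_pos.2 hne) ((dvd_abs _ _).2 hd)
      rw [mem_Icc] at hm
      have h2 : |m - v| ≤ 2 * K := by
        rw [abs_le] at hvK ⊢
        constructor <;> omega
      have h3 : (2 * (K : ℤ)) < M := by
        rw [hMdef]
        push_cast
        have h5 : (0 : ℤ) ≤ α.natAbs * S := by positivity
        have h6 : (0 : ℤ) ≤ β.natAbs * S := by positivity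
        rw [Int.natCast_natAbs] at h5 h6
        linarith
      omega
    · intro hn
      exfalso
      apply hn
      rw [mem_Icc]
      exact abs_le.1 hvK
  have hDB : ∀ r, ‖D r‖ ≤ B := fun r => hB _
  have hee : ∀ x : ℝ, ‖ee x‖ = 1 := by
    intro x
    rw [ee_eq, Complex.norm_exp_ofReal_mul_I]
  have h1 : |M * T| ≤ B * ∑ r ∈ range M, ‖F r‖ * ‖H r‖ := by
    have e3 : |M * T| = ‖((M * T : ℝ) : ℂ)‖ := by rw [Complex.norm_real, Real.norm_eq_abs]
    rw [e3, ← key, mul_sum]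
    refine (norm_sum_le _ _).trans (sum_le_sum fun r _ => ?_)
    rw [norm_mul, norm_mul, hee, mul_one, norm_mul]
    exact mul_le_mul_of_nonneg_right (hDB r) (by positivity)
  have h2 : (∑ r ∈ range M, ‖F r‖ * ‖H r‖) ^ 2 ≤ (M * (S * R ^ 2)) * (M * (S * R ^ 2)) := by
    refine (sum_mul_sq_le_sq_mul_sq _ _ _).trans ?_
    apply mul_le_mul
    · exact pars M S hM (-α) (neg_ne_zero.2 hα) hαM f R hf
    · exact pars M S hM (-β) (neg_ne_zero.2 hβ) hβM h R hh
    · positivity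
    · positivity
  have h3 : ∑ r ∈ range M, ‖F r‖ * ‖H r‖ ≤ M * (S * R ^ 2) := by
    have h4 : (0 : ℝ) ≤ M * (S * R ^ 2) := by positivity
    rw [← pow_two] at h2
    exact le_of_sq_le_sq h2 h4
  have h5 : M * |T| ≤ M * (B * S * R ^ 2) := by
    have h6 : |(M : ℝ) * T| = M * |T| := by rw [abs_mul, abs_of_pos hM0]
    rw [← h6]
    refine h1.trans ((mul_le_mul_of_nonneg_left h3 hB0).trans (le_of_eq (by ring)))
  exact le_of_mul_le_mul_left h5 hM0

end Pool.Agent.Run7.h385.PO
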