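import Pool.Agent.Run7.h385.PO.Stm

set_option autoImplicit false

namespace Pool.Agent.Run7.h385.PO

open Finset
open Pool.Agent.H373R2.T7
open Pool.Agent.H807R2.Dav

lemma ev_add {d : ℕ} (W : ℕ) (t v : Fin d → ℤ) (n : ℕ) : ev W (t + v) n = ev W t n + ev W v n := by
  unfold ev
  rw [← mul_add, ← sum_add_distrib]
  congr 1
  apply sum_congr rfl
  intro j _
  rw [Pi.add_apply]
  ring

lemma ev_comb {d : ℕ} (W : ℕ) (a b : Fin d → ℤ) (s s' : ℤ) (n : ℕ) :
    ev W (fun j => s * a j + s' * b j) n =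
      W * (s * ∑ j : Fin d, a j * (n : ℤ) ^ (j : ℕ)) + W * (s' * ∑ j : Fin d, b j * (n : ℤ) ^ (j : ℕ)) := by
  have h : ∑ j : Fin d, (fun j => s * a j + s' * b j) j * (n : ℤ) ^ (j : ℕ) =
      s * ∑ j : Fin d, a j * (n : ℤ) ^ (j : ℕ) + s' * ∑ j : Fin d, b j * (n : ℤ) ^ (j : ℕ) := by
    rw [mul_sum, mul_sum, ← sum_add_distrib]
    apply sum_congr rfl
    intro j _
    ring
  unfold ev
  rw [h, mul_add]

lemma mem_box {d : ℕ} {Y : Fin d → ℕ} {t : Fin d → ℤ} : t ∈ box Y ↔ ∀ j, 0 ≤ t j ∧ t j < Y j := by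
  unfold box
  rw [Fintype.mem_piFinset]
  simp only [mem_Ico]

lemma card_box {d : ℕ} (Y : Fin d → ℕ) : (box Y).card = ∏ j, Y j := by
  unfold box
  rw [Fintype.card_piFinset]
  apply prod_congr rfl
  intro j _
  simp

lemma prod_abs_le {k : ℕ} (I : Finset (Fin k)) (ψ : Fin k → ℝ) (R : ℝ) (hR : 1 ≤ R) (h : ∀ i ∈ I, |ψ i| ≤ R) :
    |∏ i ∈ I, ψ i| ≤ R ^ k := by
  rw [abs_prod]
  calc ∏ i ∈ I, |ψ i| ≤ ∏ i ∈ I, R := prod_le_prod (fun _ _ => abs_nonneg _) h
    _ = R ^ I.card := by rw [prod_const]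
    _ ≤ R ^ k := by
      apply pow_le_pow_right₀ hR
      have := card_le_univ I
      rwa [Fintype.card_fin] at this

set_option maxHeartbeats 4000000 in
theorem t_TERM (hBIL : S_BIL) (hCOEF : S_COEF) (hSHIFT : S_SHIFT) : S_TERM := by
  intro d k hd hk n hinj N hn u W hW Y K Ym hYm hK φ R hR hφ i0 B hB S hS hSY
  -- splitting
  have hcard : (univ.erase i0).card = k - 1 := by
    rw [card_erase_of_mem (mem_univ _), card_univ, Fintype.card_fin]
  obtain ⟨A, hAs, hAc⟩ := exists_subset_card_eq (s := univ.erase i0) (n := min (k - 1) (d - 1)) (by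
    rw [hcard]; exact min_le_left _ _)
  set A' := (univ.erase i0) \ A with hA'
  have hA'c : A'.card < d := by
    rw [hA', card_sdiff_of_subset hAs, hcard, hAc]
    omega
  have hAc' : A.card < d := by
    rw [hAc]; omega
  obtain ⟨a, ha, hab⟩ := hCOEF d k n N hn A hAc'
  obtain ⟨b, hb, hbb⟩ := hCOEF d k n N hn A' hA'c
  have hi0A : i0 ∉ A := fun h => (mem_erase.1 (hAs h)).1 rfl
  have hi0A' : i0 ∉ A' := fun h => (mem_erase.1 (mem_sdiff.1 h).1).1 rfl
  -- values of the two polynomials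
  have hPAi : ∀ i ∈ A, ∑ j : Fin d, a j * (n i : ℤ) ^ (j : ℕ) = 0 := by
    intro i hi
    rw [ha]
    exact prod_eq_zero hi (sub_self _)
  have hPBi : ∀ i ∈ A', ∑ j : Fin d, b j * (n i : ℤ) ^ (j : ℕ) = 0 := by
    intro i hi
    rw [hb]
    exact prod_eq_zero hi (sub_self _)
  have hWne : (W : ℤ) ≠ 0 := by
    have : 0 < W := hW
    exact_mod_cast this.ne'
  have hα : (W : ℤ) * ∑ j : Fin d, a j * (n i0 : ℤ) ^ (j : ℕ) ≠ 0 := by
    apply mul_ne_zero hWne
    rw [ha, prod_ne_zero_iff]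
    intro i hi h0
    have h1 : (n i0 : ℤ) = n i := by linarith
    have h2 : n i0 = n i := by exact_mod_cast h1
    exact hi0A (hinj h2 ▸ hi)
  have hβ : (W : ℤ) * ∑ j : Fin d, b j * (n i0 : ℤ) ^ (j : ℕ) ≠ 0 := by
    apply mul_ne_zero hWne
    rw [hb, prod_ne_zero_iff]
    intro i hi h0
    have h1 : (n i0 : ℤ) = n i := by linarith
    have h2 : n i0 = n i := by exact_mod_cast h1
    exact hi0A' (hinj h2 ▸ hi)
  set G : (Fin d → ℤ) → ℝ := fun t => ∏ i, φ i (u i + ev W t (n i)) with hG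
  have hGb : ∀ t : Fin d → ℤ, (∀ j, |t j| ≤ 2 * (Y j : ℤ)) → |G t| ≤ R ^ k := by
    intro t ht
    exact prod_abs_le univ _ R hR (fun i _ => hφ i _ (hK t ht i))
  -- sizes
  have hS0 : (0 : ℝ) < S := by exact_mod_cast hS
  have hYm0 : 0 < Ym := by
    have : 0 < 2 * S * (N + 1) ^ d := by positivity
    omega
  have hYmr : (0 : ℝ) < Ym := by exact_mod_cast hYm0
  set H : ℝ := 2 * S * ((N : ℝ) + 1) ^ d / Ym with hH
  have hH0 : 0 ≤ H := by positivity
  have hH1 : H ≤ 1 := by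
    rw [hH, div_le_one hYmr]
    exact_mod_cast hSY
  have hHY : ∀ j, 2 * S * ((N : ℝ) + 1) ^ d ≤ H * Y j := by
    intro j
    have h1 : H * Ym = 2 * S * ((N : ℝ) + 1) ^ d := by
      rw [hH]; field_simp
    rw [← h1]
    apply mul_le_mul_of_nonneg_left _ hH0
    exact_mod_cast hYm j
  have hvb : ∀ s ∈ range S, ∀ s' ∈ range S, ∀ j, |(s : ℤ) * a j + (s' : ℤ) * b j| ≤ 2 * S * ((N : ℤ) + 1) ^ d := by
    intro s hs s' hs' j
    rw [mem_range] at hs hs'
    have h1 : |(s : ℤ) * a j| ≤ S * ((N : ℤ) + 1) ^ d := by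
      rw [abs_mul, Nat.abs_cast]
      apply mul_le_mul _ (hab j) (abs_nonneg _) (by positivity)
      exact_mod_cast hs.le
    have h2 : |(s' : ℤ) * b j| ≤ S * ((N : ℤ) + 1) ^ d := by
      rw [abs_mul, Nat.abs_cast]
      apply mul_le_mul _ (hbb j) (abs_nonneg _) (by positivity)
      exact_mod_cast hs'.le
    have h3 := abs_add_le ((s : ℤ) * a j) ((s' : ℤ) * b j)
    linarith
  have hSYz : ∀ j, 2 * S * ((N : ℤ) + 1) ^ d ≤ Y j := by
    intro j
    have := hSY.trans (hYm j)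
    exact_mod_cast this
  have htv : ∀ t ∈ box Y, ∀ s ∈ range S, ∀ s' ∈ range S, ∀ j,
      |(t + (fun j => (s : ℤ) * a j + (s' : ℤ) * b j)) j| ≤ 2 * (Y j : ℤ) := by
    intro t ht s hs s' hs' j
    rw [mem_box] at ht
    have h1 := hvb s hs s' hs' j
    have h2 := hSYz j
    have h3 := ht j
    rw [Pi.add_apply]
    rw [abs_le] at h1 ⊢
    constructor <;> linarith
  -- the shift
  have hsh : ∀ s ∈ range S, ∀ s' ∈ range S,
      |∑ t ∈ box Y, G (t + (fun j => (s : ℤ) * a j + (s' : ℤ) * b j)) - ∑ t ∈ box Y, G t| ≤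
        2 * d * H * R ^ k * ∏ j, (Y j : ℝ) := by
    intro s hs s' hs'
    apply hSHIFT d Y _ G (R ^ k) H (by positivity) hH0 hH1 _ hGb
    intro j
    refine le_trans ?_ (hHY j)
    exact_mod_cast hvb s hs s' hs' j
  -- the inner sums
  have hin : ∀ t ∈ box Y, |∑ s ∈ range S, ∑ s' ∈ range S,
      G (t + (fun j => (s : ℤ) * a j + (s' : ℤ) * b j))| ≤ B * S * (R ^ k) ^ 2 := by
    intro t ht
    set f : ℕ → ℝ := fun s => ∏ i ∈ A', φ i (u i + ev W t (n i) + W * ((s : ℤ) * ∑ j : Fin d, a j * (n i : ℤ) ^ (j : ℕ))) with hf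
    set h : ℕ → ℝ := fun s' => ∏ i ∈ A, φ i (u i + ev W t (n i) + W * ((s' : ℤ) * ∑ j : Fin d, b j * (n i : ℤ) ^ (j : ℕ))) with hh
    have hval : ∀ (s s' : ℕ) (i : Fin k), u i + ev W (t + (fun j => (s : ℤ) * a j + (s' : ℤ) * b j)) (n i) =
        u i + ev W t (n i) + W * ((s : ℤ) * ∑ j : Fin d, a j * (n i : ℤ) ^ (j : ℕ)) +
          W * ((s' : ℤ) * ∑ j : Fin d, b j * (n i : ℤ) ^ (j : ℕ)) := by
      intro s s' i
      rw [ev_add, ev_comb]
      ring
    have hfac : ∀ s s' : ℕ, G (t + (fun j => (s : ℤ) * a j + (s' : ℤ) * b j)) =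
        φ i0 ((u i0 + ev W t (n i0)) + (W * ∑ j : Fin d, a j * (n i0 : ℤ) ^ (j : ℕ)) * (s : ℤ) +
          (W * ∑ j : Fin d, b j * (n i0 : ℤ) ^ (j : ℕ)) * (s' : ℤ)) * (f s * h s') := by
      intro s s'
      rw [hG]
      simp only
      rw [← mul_prod_erase univ _ (mem_univ i0), ← prod_sdiff hAs, ← hA']
      congr 1
      · rw [hval]
        congr 1
        ring
      · congr 1
        · rw [hf]
          apply prod_congr rfl
          intro i hi
          rw [hval, hPBi i hi]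
          congr 1
          ring
        · rw [hh]
          apply prod_congr rfl
          intro i hi
          rw [hval, hPAi i hi]
          congr 1
          ring
    have hfb : ∀ s ∈ range S, |f s| ≤ R ^ k := by
      intro s hs
      apply prod_abs_le _ _ R hR
      intro i hi
      apply hφ
      have h1 := hK _ (htv t ht s hs 0 (mem_range.2 hS)) i
      rw [hval] at h1
      rw [Nat.cast_zero, zero_mul, mul_zero, add_zero] at h1
      exact h1
    have hhb : ∀ s ∈ range S, |h s| ≤ R ^ k := by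
      intro s hs
      apply prod_abs_le _ _ R hR
      intro i hi
      apply hφ
      have h1 := hK _ (htv t ht 0 (mem_range.2 hS) s hs) i
      rw [hval] at h1
      rw [Nat.cast_zero, zero_mul, mul_zero, add_zero] at h1
      exact h1
    have h1 := hBIL K (φ i0) B hB S (u i0 + ev W t (n i0)) (W * ∑ j : Fin d, a j * (n i0 : ℤ) ^ (j : ℕ))
      (W * ∑ j : Fin d, b j * (n i0 : ℤ) ^ (j : ℕ)) hα hβ (by
        intro s hs s' hs'
        have h1 := hK _ (htv t ht s hs s' hs') i0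
        rw [hval] at h1
        refine le_trans (le_of_eq ?_) h1
        congr 1
        ring) f h (R ^ k) (by positivity) hfb hhb
    rw [sum_congr rfl (fun s _ => sum_congr rfl (fun s' _ => hfac s s'))]
    exact h1
  -- conclusion
  set P : ℝ := ∏ j, (Y j : ℝ) with hP
  have hP0 : 0 ≤ P := by positivity
  have hcb : ((box Y).card : ℝ) = P := by
    rw [card_box, hP]
    push_cast
    rfl
  set Er : ℝ := 2 * d * H * R ^ k * P with hEr
  have h1 : |∑ s ∈ range S, ∑ s' ∈ range S, (∑ t ∈ box Y, G (t + (fun j => (s : ℤ) * a j + (s' : ℤ) * b j)) - ∑ t ∈ box Y, G t)| ≤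
      S * (S * Er) := by
    refine (abs_sum_le_sum_abs _ _).trans ?_
    calc ∑ s ∈ range S, |∑ s' ∈ range S, (∑ t ∈ box Y, G (t + (fun j => (s : ℤ) * a j + (s' : ℤ) * b j)) - ∑ t ∈ box Y, G t)| ≤
        ∑ s ∈ range S, (S * Er) := by
          apply sum_le_sum
          intro s hs
          refine (abs_sum_le_sum_abs _ _).trans ?_
          calc ∑ s' ∈ range S, |∑ t ∈ box Y, G (t + (fun j => (s : ℤ) * a j + (s' : ℤ) * b j)) - ∑ t ∈ box Y, G t| ≤
              ∑ s' ∈ range S, Er := sum_le_sum (fun s' hs' => hsh s hs s' hs')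
            _ = S * Er := by rw [sum_const, card_range, nsmul_eq_mul]
      _ = S * (S * Er) := by rw [sum_const, card_range, nsmul_eq_mul]
  have h2 : |∑ s ∈ range S, ∑ s' ∈ range S, ∑ t ∈ box Y, G (t + (fun j => (s : ℤ) * a j + (s' : ℤ) * b j))| ≤
      P * (B * S * (R ^ k) ^ 2) := by
    have e : ∑ s ∈ range S, ∑ s' ∈ range S, ∑ t ∈ box Y, G (t + (fun j => (s : ℤ) * a j + (s' : ℤ) * b j)) =
        ∑ t ∈ box Y, ∑ s ∈ range S, ∑ s' ∈ range S, G (t + (fun j => (s : ℤ) * a j + (s' : ℤ) * b j)) := by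
      rw [sum_congr rfl (fun s _ => sum_comm), sum_comm]
    rw [e]
    refine (abs_sum_le_sum_abs _ _).trans ((sum_le_sum hin).trans (le_of_eq ?_))
    rw [sum_const, nsmul_eq_mul, hcb]
  have h3 : ∑ s ∈ range S, ∑ s' ∈ range S, (∑ t ∈ box Y, G (t + (fun j => (s : ℤ) * a j + (s' : ℤ) * b j)) - ∑ t ∈ box Y, G t) =
      ∑ s ∈ range S, ∑ s' ∈ range S, ∑ t ∈ box Y, G (t + (fun j => (s : ℤ) * a j + (s' : ℤ) * b j)) - S * (S * ∑ t ∈ box Y, G t) := by
    rw [sum_congr rfl (fun s _ => sum_sub_distrib _ _), sum_sub_distrib]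
    congr 1
    rw [sum_const, sum_const, card_range, nsmul_eq_mul, nsmul_eq_mul]
  rw [h3] at h1
  have h4 : |S * (S * ∑ t ∈ box Y, G t)| ≤ S * (S * Er) + P * (B * S * (R ^ k) ^ 2) := by
    rw [abs_le] at h1 h2 ⊢
    constructor <;> linarith [h1.1, h1.2, h2.1, h2.2]
  have h5 : |S * (S * ∑ t ∈ box Y, G t)| = S * (S * |∑ t ∈ box Y, G t|) := by
    rw [abs_mul, abs_mul, abs_of_pos hS0]
  rw [h5] at h4
  have h6 : (S : ℝ) * (S * |∑ t ∈ box Y, G t|) ≤ S * (S * (P * (B * R ^ (2 * k) / S + 2 * d * H * R ^ k))) := by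
    refine h4.trans (le_of_eq ?_)
    rw [hEr, ← pow_mul, mul_comm k 2]
    field_simp
    ring
  exact le_of_mul_le_mul_left (le_of_mul_le_mul_left h6 hS0) hS0

end Pool.Agent.Run7.h385.PO
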