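import Pool.Agent.Run7.h385.PO.CLS

set_option autoImplicit false

namespace Pool.Agent.Run7.h385.PO

open Finset
open Pool.Agent.H373R2.T7
open Pool.Agent.H807R2.Dav

lemma omega_congr {g : ℕ} (f f' : Fin g → ℕ → ℤ) (p : ℕ) (h : ∀ l n, (p : ℤ) ∣ f l n - f' l n) :
    omega f p = omega f' p := by
  unfold omega
  congr 1
  apply filter_congr
  intro n _
  constructor
  · rintro ⟨l, hl⟩
    refine ⟨l, ?_⟩
    have := dvd_sub hl (h l n)
    rwa [sub_sub_cancel] at this
  · rintro ⟨l, hl⟩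
    refine ⟨l, ?_⟩
    have := dvd_add hl (h l n)
    rwa [add_sub_cancel] at this

lemma sing_congr {g : ℕ} (f f' : Fin g → ℕ → ℤ) (w : ℕ) (h : ∀ p ∈ pz w, ∀ l n, (p : ℤ) ∣ f l n - f' l n) :
    sing f w = sing f' w := by
  unfold sing
  apply prod_congr rfl
  intro p hp
  rw [omega_congr f f' p (h p hp)]

lemma fv_split {g d : ℕ} (F : Fin g → ℕ → ℤ) (a r t : Fin g → Fin d → ℤ) (W : ℕ) :
    fv F (fun l j => a l j + r l j + W * t l j) =
      fun l n => fv F (fun l j => a l j + r l j) l n + ev W (t l) n := by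
  funext l n
  unfold fv ev
  rw [add_assoc, mul_sum, ← sum_add_distrib]
  congr 1
  apply sum_congr rfl
  intro j _
  ring

lemma per_fv {g d : ℕ} (F : Fin g → ℕ → ℤ) (c : Fin g → Fin d → ℤ)
    (h : ∀ l, ∀ p n : ℕ, (p : ℤ) ∣ F l (n + p) - F l n) : ∀ l, ∀ p n : ℕ, (p : ℤ) ∣ fv F c l (n + p) - fv F c l n := by
  intro l p n
  unfold fv
  have e : F l (n + p) + ∑ j : Fin d, c l j * ((n + p : ℕ) : ℤ) ^ (j : ℕ) - (F l n + ∑ j : Fin d, c l j * (n : ℤ) ^ (j : ℕ)) =
      (F l (n + p) - F l n) + ∑ j : Fin d, c l j * (((n + p : ℕ) : ℤ) ^ (j : ℕ) - (n : ℤ) ^ (j : ℕ)) := by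
    have h1 : ∑ j : Fin d, c l j * (((n + p : ℕ) : ℤ) ^ (j : ℕ) - (n : ℤ) ^ (j : ℕ)) =
        ∑ j : Fin d, c l j * ((n + p : ℕ) : ℤ) ^ (j : ℕ) - ∑ j : Fin d, c l j * (n : ℤ) ^ (j : ℕ) := by
      rw [← sum_sub_distrib]
      apply sum_congr rfl
      intro j _
      ring
    rw [h1]; ring
  rw [e]
  apply dvd_add (h l p n)
  apply dvd_sum
  intro j _
  apply Dvd.dvd.mul_left
  have h2 := sub_dvd_pow_sub_pow ((n + p : ℕ) : ℤ) (n : ℤ) (j : ℕ)
  have h3 : ((n + p : ℕ) : ℤ) - (n : ℤ) = p := by push_cast; ring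
  rwa [h3] at h2

/-- all classes together, with a second exponent for the sizes -/
def S_ALL2 : Prop :=
  ∀ (d g k C C1 : ℕ), 2 ≤ d → 1 ≤ g → k + 1 ≤ 2 * d → ∀ lam ε : ℝ, 0 < lam → 0 < ε →
    ∃ X0 : ℕ, ∀ X : ℕ, X0 ≤ X → ∀ F : Fin g → ℕ → ℤ,
    (∀ l, ∀ p n : ℕ, (p : ℤ) ∣ F l (n + p) - F l n) →
    (∀ l, ∀ n : ℕ, (n : ℝ) ≤ Real.log X ^ (C + g + 3) → |(F l n : ℝ)| ≤ X * Real.log X ^ C1) →
    ∀ (a : Fin g → Fin d → ℤ) (Y : Fin g → Fin d → ℕ),
    (∀ l j, |(a l j : ℝ)| ≤ X ∧ (X : ℝ) / Real.log X ^ C1 ≤ Y l j ∧ (Y l j : ℝ) ≤ X) →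
    ∀ m : ℕ, (m : ℝ) ≤ Real.log X ^ C →
    |∑ c ∈ (cbox a Y).filter (fun c => 0 < sing (fv F c) (ww X)),
        (((cnt (fv F c) m (len X lam (fv F c))).descFactorial k : ℕ) : ℝ) -
        lam ^ k * ((cbox a Y).filter (fun c => 0 < sing (fv F c) (ww X))).card| ≤
      ε * ((cbox a Y).filter (fun c => 0 < sing (fv F c) (ww X))).card

set_option maxHeartbeats 4000000 in
theorem t_ALL2 (hCLS : S_CLS2) (hSP : S_SPLIT) (hWS : S_WSMALL) : S_ALL2 := by
  intro d g k C C1 hd hg hk lam ε hlam hε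
  set C2 : ℕ := C1 + (C + g + 3) * d + 2 with hC2
  obtain ⟨n1, h1⟩ := hCLS d g k C C2 hd hg hk lam ε hlam hε
  obtain ⟨n2, h2⟩ := hWS.2
  obtain ⟨n3, h3⟩ := ev_L' (2 * d + 2)
  obtain ⟨n4, h4⟩ := ev_log' (C1 + 1) 2
  refine ⟨max (max n1 n2) (max n3 (max n4 2)), fun X hX F hper hFb a Y haY m hm => ?_⟩
  have a1 := h1 X (le_trans (le_trans (le_max_left _ _) (le_max_left _ _)) hX)
  obtain ⟨hWsq, hW1, _⟩ := h2 X (le_trans (le_trans (le_max_right _ _) (le_max_left _ _)) hX)
  have a3 := h3 X (le_trans (le_trans (le_max_left _ _) (le_max_right _ _)) hX)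
  have a4 := h4 X (le_trans (le_trans (le_trans (le_max_left _ _) (le_max_right _ _)) (le_max_right _ _)) hX)
  have hX2 : 2 ≤ X := le_trans (le_trans (le_trans (le_max_right _ _) (le_max_right _ _)) (le_max_right _ _)) hX
  set L := Real.log X with hL
  have hdr : (2 : ℝ) ≤ d := by exact_mod_cast hd
  have hL2 : 2 ≤ L := by linarith
  have hL0 : 0 < L := by linarith
  have hL1 : 1 ≤ L := by linarith
  have hXr : (2 : ℝ) ≤ X := by exact_mod_cast hX2
  have hX0 : (0 : ℝ) < X := by linarith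
  set w := ww X with hw
  set W := WW X with hW
  have hWr1 : (1 : ℝ) ≤ W := by exact_mod_cast hW1
  have hWL : (W : ℝ) ≤ L := by nlinarith
  -- sides of the classes
  set Yr : (Fin g → Fin d → ℤ) → Fin g → Fin d → ℕ := fun r l j => (Y l j + W - 1 - (r l j).toNat) / W with hYr
  have hsX : √(X : ℝ) ≤ X := by
    rw [Real.sqrt_le_left (by positivity)]; nlinarith
  have h2L : 2 * L ^ (C1 + 1) ≤ X := a4.trans hsX
  have hY1 : ∀ l j, 1 ≤ Y l j := by
    intro l j
    have h5 : 0 < (X : ℝ) / L ^ C1 := by positivity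
    have h6 : (0 : ℝ) < Y l j := h5.trans_le (haY l j).2.1
    exact_mod_cast h6
  have hYrb : ∀ r ∈ Fintype.piFinset (fun _ : Fin g => box (fun _ : Fin d => W)), ∀ l j,
      (X : ℝ) / L ^ C2 ≤ Yr r l j ∧ (Yr r l j : ℝ) ≤ X := by
    intro r hr l j
    rw [Fintype.mem_piFinset] at hr
    have hr1 := hr l
    unfold box at hr1
    rw [Fintype.mem_piFinset] at hr1
    have hr2 : 0 ≤ r l j ∧ r l j < (W : ℤ) := mem_Ico.1 (hr1 j)
    set q := (r l j).toNat with hq
    have hqW : q < W := by omega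
    have hy1 := hY1 l j
    constructor
    · have h5 : Y l j ≤ (Yr r l j + 1) * W := by
        rw [hYr]
        simp only
        rw [← hq]
        have h6 := Nat.lt_div_mul_add (a := Y l j + W - 1 - q) (b := W) (by omega)
        have h7 : Y l j + W - 1 - q ≥ Y l j := by omega
        nlinarith
      have h6 : (Y l j : ℝ) ≤ (Yr r l j + 1) * W := by exact_mod_cast h5
      have h7 : (X : ℝ) / L ^ C1 ≤ (Yr r l j + 1) * L := by
        refine (haY l j).2.1.trans (h6.trans ?_)
        apply mul_le_mul_of_nonneg_left hWL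
        positivity
      have h8 : (X : ℝ) / L ^ (C1 + 1) ≤ Yr r l j + 1 := by
        rw [div_le_iff₀ (by positivity)] at h7 ⊢
        rw [pow_succ]
        linarith
      have h9 : (2 : ℝ) ≤ X / L ^ (C1 + 1) := by
        rw [le_div_iff₀ (by positivity)]; exact h2L
      have h10 : (X : ℝ) / L ^ C2 ≤ X / L ^ (C1 + 1) / 2 := by
        rw [div_div]
        apply div_le_div_of_nonneg_left hX0.le (by positivity)
        have h11 : L ^ (C1 + 1) * L ≤ L ^ C2 := by
          rw [← pow_succ]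
          apply pow_le_pow_right₀ hL1
          rw [hC2]; omega
        have h12 : L ^ (C1 + 1) * 2 ≤ L ^ (C1 + 1) * L := mul_le_mul_of_nonneg_left hL2 (by positivity)
        linarith
      linarith
    · refine le_trans ?_ (haY l j).2.2
      have h5 : Yr r l j ≤ Y l j := by
        rw [hYr]
        simp only
        rw [← hq]
        apply Nat.div_le_of_le_mul
        have h6 : Y l j + W - 1 - q ≤ Y l j + W - 1 := by omega
        have h7 : Y l j + W ≤ W * Y l j + 1 := by nlinarith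
        omega
      exact_mod_cast h5
  -- bounds for the values
  have hub : ∀ r ∈ Fintype.piFinset (fun _ : Fin g => box (fun _ : Fin d => W)), ∀ l, ∀ n : ℕ,
      (n : ℝ) ≤ L ^ (C + g + 3) → |(fv F (fun l j => a l j + r l j) l n : ℝ)| ≤ X * L ^ C2 := by
    intro r hr l n hn
    rw [Fintype.mem_piFinset] at hr
    have hr1 := hr l
    unfold box at hr1
    rw [Fintype.mem_piFinset] at hr1
    unfold fv
    push_cast
    refine (abs_add_le _ _).trans ?_
    have h5 : |∑ j : Fin d, ((a l j : ℝ) + (r l j : ℝ)) * (n : ℝ) ^ (j : ℕ)| ≤ d * ((2 * X) * L ^ ((C + g + 3) * d)) := by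
      refine (abs_sum_le_sum_abs _ _).trans ?_
      have h6 : ∀ j ∈ (univ : Finset (Fin d)), |((a l j : ℝ) + (r l j : ℝ)) * (n : ℝ) ^ (j : ℕ)| ≤ (2 * X) * L ^ ((C + g + 3) * d) := by
        intro j _
        have hr2 : 0 ≤ r l j ∧ r l j < (W : ℤ) := mem_Ico.1 (hr1 j)
        rw [abs_mul]
        apply mul_le_mul
        · refine (abs_add_le _ _).trans ?_
          have h7 : |(r l j : ℝ)| ≤ X := by
            have h8 : (0 : ℝ) ≤ r l j := by exact_mod_cast hr2.1
            have h9 : (r l j : ℝ) < W := by exact_mod_cast hr2.2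
            rw [abs_of_nonneg h8]
            have h10 : L ≤ X := by
              have := Real.log_le_sub_one_of_pos hX0
              linarith
            linarith
          linarith [(haY l j).1]
        · rw [abs_pow, Nat.abs_cast]
          calc (n : ℝ) ^ (j : ℕ) ≤ (L ^ (C + g + 3)) ^ (j : ℕ) := pow_le_pow_left₀ (Nat.cast_nonneg _) hn _
            _ = L ^ ((C + g + 3) * j) := by rw [pow_mul]
            _ ≤ L ^ ((C + g + 3) * d) := by
                apply pow_le_pow_right₀ hL1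
                exact Nat.mul_le_mul_left _ j.2.le
        · positivity
        · positivity
      refine (sum_le_sum h6).trans (le_of_eq ?_)
      rw [sum_const, card_univ, Fintype.card_fin, nsmul_eq_mul]
    have h6 := hFb l n hn
    have h7 : L ^ C1 ≤ L ^ (C1 + (C + g + 3) * d) := pow_le_pow_right₀ hL1 (by omega)
    have h8 : L ^ ((C + g + 3) * d) ≤ L ^ (C1 + (C + g + 3) * d) := pow_le_pow_right₀ hL1 (by omega)
    have h9 : L ^ C2 = L ^ (C1 + (C + g + 3) * d) * (L * L) := by rw [hC2, pow_add]; ring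
    set Q := L ^ (C1 + (C + g + 3) * d) with hQ
    have hQ0 : 0 < Q := by positivity
    rw [h9]
    have h10 : (X : ℝ) * L ^ C1 ≤ X * Q := mul_le_mul_of_nonneg_left h7 hX0.le
    have h11 : (d : ℝ) * ((2 * X) * L ^ ((C + g + 3) * d)) ≤ d * ((2 * X) * Q) := by gcongr
    have h12 : (1 + 2 * d : ℝ) ≤ L * L := by nlinarith
    have h13 : X * Q * (1 + 2 * d) ≤ X * Q * (L * L) := mul_le_mul_of_nonneg_left h12 (by positivity)
    nlinarith
  -- the two sums
  set Φ : (Fin g → Fin d → ℤ) → ℝ := fun c => if 0 < sing (fv F c) w then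
    ((((cnt (fv F c) m (len X lam (fv F c))).descFactorial k : ℕ) : ℝ) - lam ^ k) else 0 with hΦ
  set Ψ : (Fin g → Fin d → ℤ) → ℝ := fun c => if 0 < sing (fv F c) w then 1 else 0 with hΨ
  have e1 : ∑ c ∈ (cbox a Y).filter (fun c => 0 < sing (fv F c) w), (((cnt (fv F c) m (len X lam (fv F c))).descFactorial k : ℕ) : ℝ) -
        lam ^ k * ((cbox a Y).filter (fun c => 0 < sing (fv F c) w)).card = ∑ c ∈ cbox a Y, Φ c := by
    rw [hΦ, ← sum_filter, sum_sub_distrib, sum_const, nsmul_eq_mul, mul_comm (lam ^ k)]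
  have e2 : (((cbox a Y).filter (fun c => 0 < sing (fv F c) w)).card : ℝ) = ∑ c ∈ cbox a Y, Ψ c := by
    rw [hΨ, ← sum_filter, sum_const, nsmul_eq_mul, mul_one]
  rw [e1, e2]
  have e3 := hSP g d W hW1 a Y Φ
  have e4 := hSP g d W hW1 a Y Ψ
  have e5 : cbox a Y = Fintype.piFinset (fun l => Fintype.piFinset (fun j => Ico (a l j) (a l j + Y l j))) := rfl
  rw [e5, e3, e4, mul_sum]
  refine (abs_sum_le_sum_abs _ _).trans (sum_le_sum fun r hr => ?_)
  -- one class
  set u : Fin g → ℕ → ℤ := fv F (fun l j => a l j + r l j) with hu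
  have hval : ∀ t : Fin g → Fin d → ℤ, fv F (fun l j => a l j + r l j + W * t l j) = fun l n => u l n + ev W (t l) n :=
    fun t => fv_split F a r t W
  have hsing : ∀ t : Fin g → Fin d → ℤ, sing (fv F (fun l j => a l j + r l j + W * t l j)) w = sing u w := by
    intro t
    rw [hval]
    apply sing_congr
    intro p hp l n
    simp only [add_sub_cancel_left]
    unfold ev
    exact (dvd_WW hp).mul_right _
  have hlen : ∀ t : Fin g → Fin d → ℤ, len X lam (fv F (fun l j => a l j + r l j + W * t l j)) = len X lam u := by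
    intro t
    unfold len
    rw [← hw, hsing]
  have hYc : ∀ l j, (Y l j + W - 1 - (r l j).toNat) / W = Yr r l j := fun l j => rfl
  have hcards : (((Fintype.piFinset (fun l => box (fun j => (Y l j + W - 1 - (r l j).toNat) / W))).card : ℕ) : ℝ) =
      ∏ l, ∏ j, (Yr r l j : ℝ) := by
    have hcN : (Fintype.piFinset (fun l => box (fun j => (Y l j + W - 1 - (r l j).toNat) / W))).card =
        ∏ l, ∏ j, Yr r l j := by
      rw [Fintype.card_piFinset]
      apply prod_congr rfl
      intro l _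
      unfold box
      rw [Fintype.card_piFinset]
      apply prod_congr rfl
      intro j _
      rw [Int.card_Ico, sub_zero, Int.toNat_natCast]
    rw [hcN]
    push_cast
    rfl
  by_cases hs : 0 < sing u w
  · have h5 := a1 u (per_fv F _ hper) (fun l n hn => hub r hr l n hn) hs (Yr r) (hYrb r hr) m hm
    have e6 : ∑ t ∈ Fintype.piFinset (fun l => box (fun j => (Y l j + W - 1 - (r l j).toNat) / W)),
        Φ (fun l j => a l j + r l j + W * t l j) =
        ∑ t ∈ Fintype.piFinset (fun l => box (Yr r l)),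
          (((cnt (fun l n => u l n + ev W (t l) n) m (len X lam u)).descFactorial k : ℕ) : ℝ) -
        lam ^ k * ∏ l, ∏ j, (Yr r l j : ℝ) := by
      have e7 : ∀ t ∈ Fintype.piFinset (fun l => box (fun j => (Y l j + W - 1 - (r l j).toNat) / W)),
          Φ (fun l j => a l j + r l j + W * t l j) =
          (((cnt (fun l n => u l n + ev W (t l) n) m (len X lam u)).descFactorial k : ℕ) : ℝ) - lam ^ k := by
        intro t _
        rw [hΦ]
        simp only
        rw [hsing, if_pos hs, hlen, hval]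
      rw [sum_congr rfl e7, sum_sub_distrib, sum_const, nsmul_eq_mul, hcards, mul_comm (lam ^ k)]
    have e8 : ∑ t ∈ Fintype.piFinset (fun l => box (fun j => (Y l j + W - 1 - (r l j).toNat) / W)),
        Ψ (fun l j => a l j + r l j + W * t l j) = ∏ l, ∏ j, (Yr r l j : ℝ) := by
      have e7 : ∀ t ∈ Fintype.piFinset (fun l => box (fun j => (Y l j + W - 1 - (r l j).toNat) / W)),
          Ψ (fun l j => a l j + r l j + W * t l j) = 1 := by
        intro t _
        rw [hΨ]
        simp only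
        rw [hsing, if_pos hs]
      rw [sum_congr rfl e7, sum_const, nsmul_eq_mul, hcards, mul_one]
    rw [e6, e8]
    exact h5
  · have e7 : ∀ t ∈ Fintype.piFinset (fun l => box (fun j => (Y l j + W - 1 - (r l j).toNat) / W)),
        Φ (fun l j => a l j + r l j + W * t l j) = 0 := by
      intro t _
      rw [hΦ]
      simp only
      rw [hsing, if_neg hs]
    have e8 : ∀ t ∈ Fintype.piFinset (fun l => box (fun j => (Y l j + W - 1 - (r l j).toNat) / W)),
        Ψ (fun l j => a l j + r l j + W * t l j) = 0 := by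
      intro t _
      rw [hΨ]
      simp only
      rw [hsing, if_neg hs]
    rw [sum_congr rfl e7, sum_congr rfl e8, sum_const_zero, abs_zero, mul_zero]

end Pool.Agent.Run7.h385.PO
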