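import Pool.Agent.Run7.h385.PO.CLS

set_option autoImplicit false

namespace Pool.Agent.Run7.h385.PO

open Finset
open Pool.Agent.H373R2.T7
open Pool.Agent.H807R2.Dav

lemma df_lim2 (k : ℕ) (Lam : ℝ) (hl : 0 < Lam) : ∀ ε : ℝ, 0 < ε → ∃ δ : ℝ, 0 < δ ∧ ∀ (n : ℕ) (r : ℝ), 0 ≤ r → r ≤ δ →
    n * r ≤ Lam → |((n.descFactorial k : ℕ) : ℝ) * r ^ k - (n * r) ^ k| ≤ ε := by
  induction k with
  | zero => intro ε hε; exact ⟨1, one_pos, fun n r _ _ _ => by simp [hε.le]⟩
  | succ k ih =>
    intro ε hε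
    obtain ⟨δ1, h1, h2⟩ := ih (min 1 (ε / (2 * Lam))) (lt_min one_pos (by positivity))
    have hlk : 0 < Lam ^ k := by positivity
    refine ⟨min δ1 (ε / (2 * (Lam ^ k + 1) * (k + 1))), lt_min h1 (by positivity), fun n r hr0 hr hn => ?_⟩
    have hy := h2 n r hr0 (hr.trans (min_le_left _ _)) hn
    have hk0 : (0 : ℝ) ≤ k := Nat.cast_nonneg _
    have hnr : 0 ≤ (n : ℝ) * r := by positivity
    set D : ℝ := ((n.descFactorial k : ℕ) : ℝ) with hD
    rw [df_succ, ← hD]
    have e : ((n : ℝ) - k) * D * r ^ (k + 1) - (n * r) ^ (k + 1) =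
        (n * r) * (D * r ^ k - (n * r) ^ k) - (k * r) * (D * r ^ k) := by ring
    rw [e]
    have h3 : |D * r ^ k| ≤ Lam ^ k + 1 := by
      have h4 : D * r ^ k = (D * r ^ k - (n * r) ^ k) + (n * r) ^ k := by ring
      rw [h4]
      refine (abs_add_le _ _).trans ?_
      rw [abs_of_nonneg (show 0 ≤ ((n : ℝ) * r) ^ k by positivity)]
      have h5 := hy.trans (min_le_left _ _)
      have h6 : ((n : ℝ) * r) ^ k ≤ Lam ^ k := pow_le_pow_left₀ hnr hn k
      linarith
    refine (abs_sub _ _).trans ?_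
    rw [abs_mul, abs_mul (k * r) (D * r ^ k), abs_of_nonneg hnr, abs_of_nonneg (mul_nonneg hk0 hr0)]
    have h5 : (n : ℝ) * r * |D * r ^ k - (n * r) ^ k| ≤ ε / 2 := by
      have h6 : |D * r ^ k - (n * r) ^ k| ≤ ε / (2 * Lam) := hy.trans (min_le_right _ _)
      calc (n : ℝ) * r * |D * r ^ k - (n * r) ^ k| ≤ Lam * (ε / (2 * Lam)) :=
            mul_le_mul hn h6 (abs_nonneg _) hl.le
        _ = ε / 2 := by field_simp
    have h7 : k * r * |D * r ^ k| ≤ ε / 2 := by
      have h8 : r ≤ ε / (2 * (Lam ^ k + 1) * (k + 1)) := hr.trans (min_le_right _ _)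
      rw [le_div_iff₀ (by positivity)] at h8
      calc k * r * |D * r ^ k| ≤ k * r * (Lam ^ k + 1) := mul_le_mul_of_nonneg_left h3 (by positivity)
        _ ≤ (k + 1) * r * (Lam ^ k + 1) := by gcongr; linarith
        _ ≤ ε / 2 := by nlinarith
    linarith

/-- the number of the `n ∈ A` with all values prime -/
def cntA {g : ℕ} (f : Fin g → ℕ → ℤ) (A : Finset ℕ) : ℕ := (A.filter (fun n => ∀ l, (f l n).natAbs.Prime)).card

/-- the expected number of prime values on `A`, given the classes modulo the primes up to `w` -/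
noncomputable def lamA {g : ℕ} (X : ℕ) (f : Fin g → ℕ → ℤ) (A : Finset ℕ) : ℝ :=
  (A.filter (fun n => ∀ l, ∀ p ∈ pz (ww X), ¬ (p : ℤ) ∣ f l n)).card * rho X ^ g

/-- one class modulo `W`, arbitrary sets of arguments -/
def S_CLSA : Prop :=
  ∀ (d g k C : ℕ), 2 ≤ d → 1 ≤ g → k + 1 ≤ 2 * d → ∀ Lam ε : ℝ, 0 < Lam → 0 < ε →
    ∃ X0 : ℕ, ∀ X : ℕ, X0 ≤ X → ∀ (u : Fin g → ℕ → ℤ) (A : Finset ℕ),
    (∀ n ∈ A, (n : ℝ) ≤ Real.log X ^ C) →
    (∀ l, ∀ n ∈ A, |(u l n : ℝ)| ≤ X * Real.log X ^ C) →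
    lamA X u A ≤ Lam →
    ∀ Y : Fin g → Fin d → ℕ, (∀ l j, (X : ℝ) / Real.log X ^ C ≤ Y l j ∧ (Y l j : ℝ) ≤ X) →
    |∑ t ∈ Fintype.piFinset (fun l => box (Y l)),
        (((cntA (fun l n => u l n + ev (WW X) (t l) n) A).descFactorial k : ℕ) : ℝ) -
        lamA X u A ^ k * ∏ l, ∏ j, (Y l j : ℝ)| ≤ ε * ∏ l, ∏ j, (Y l j : ℝ)

set_option maxHeartbeats 4000000 in
theorem t_CLSA (hMOM : S_MOM) (hTI : S_TINY2) (hWS : S_WSMALL) : S_CLSA := by
  intro d g k C hd hg hk Lam ε hLam hε
  have hlk : 0 < Lam ^ k := by positivity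
  obtain ⟨δ, hδ0, hδ⟩ := df_lim2 k Lam hLam (min 1 (ε / 4)) (lt_min one_pos (by positivity))
  obtain ⟨n1, h1⟩ := hMOM d g k C hd hk (ε / (4 * (Lam ^ k + 1))) (by positivity)
  obtain ⟨n2, h2⟩ := hWS.2
  obtain ⟨n3, h3⟩ := ev_L' 2
  obtain ⟨n4, h4⟩ := ev_log' ((C + 1) * (k + 1) + C + 1) (3 * g * (4 / ε))
  have hlim : Filter.Tendsto (fun N : ℕ => Real.log (N : ℝ)) Filter.atTop Filter.atTop :=
    Real.tendsto_log_atTop.comp (tendsto_natCast_atTop_atTop (R := ℝ))
  have hev : ∀ᶠ N : ℕ in Filter.atTop, 2 * Real.log (Real.log N) ≤ δ * √(Real.log N) := by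
    have h5 := (isLittleO_log_rpow_atTop (show (0 : ℝ) < 1 / 2 by norm_num)).bound (show (0 : ℝ) < δ / 2 by positivity)
    have h6 := hlim.eventually h5
    filter_upwards [h6, hlim.eventually_ge_atTop 1] with N h7 h8
    rw [Real.norm_of_nonneg (Real.log_nonneg h8), Real.norm_of_nonneg (by positivity), ← Real.sqrt_eq_rpow] at h7
    linarith
  obtain ⟨n5, h5⟩ := Filter.eventually_atTop.1 hev
  refine ⟨max (max (max n1 n2) (max n3 n4)) (max n5 2), fun X hX u A hAn hub hlA Y hY => ?_⟩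
  have hX1 : n1 ≤ X := le_trans (le_trans (le_trans (le_max_left _ _) (le_max_left _ _)) (le_max_left _ _)) hX
  have hX2 : n2 ≤ X := le_trans (le_trans (le_trans (le_max_right _ _) (le_max_left _ _)) (le_max_left _ _)) hX
  have hX3 : n3 ≤ X := le_trans (le_trans (le_trans (le_max_left _ _) (le_max_right _ _)) (le_max_left _ _)) hX
  have hX4 : n4 ≤ X := le_trans (le_trans (le_trans (le_max_right _ _) (le_max_right _ _)) (le_max_left _ _)) hX
  have hX5 : n5 ≤ X := le_trans (le_trans (le_max_left _ _) (le_max_right _ _)) hX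
  have hX6 : 2 ≤ X := le_trans (le_trans (le_max_right _ _) (le_max_right _ _)) hX
  have a1 := h1 X hX1
  obtain ⟨hWsq, hW1, hVinv⟩ := h2 X hX2
  have a3 := h3 X hX3
  have a4 := h4 X hX4
  have a5 := h5 X hX5
  set L := Real.log X with hL
  have hL2 : 2 ≤ L := a3
  have hL0 : 0 < L := by linarith
  have hL1 : 1 ≤ L := by linarith
  have hXr : (2 : ℝ) ≤ X := by exact_mod_cast hX6
  have hX0 : (0 : ℝ) < X := by linarith
  set w := ww X with hw
  set W := WW X with hW
  have hWr1 : (1 : ℝ) ≤ W := by exact_mod_cast hW1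
  have hVpos := Vz_pos w
  set V := Vz w with hV
  set P : ℝ := ∏ l, ∏ j, (Y l j : ℝ) with hP
  have hP0 : 0 ≤ P := by positivity
  set N := A.card with hN
  have hNL : (N : ℝ) ≤ L ^ (C + 1) := by
    have h6 : A ⊆ range (⌊L ^ C⌋₊ + 1) := by
      intro n hn
      rw [mem_range, Nat.lt_succ_iff]
      exact Nat.le_floor (hAn n hn)
    have h7 := card_le_card h6
    rw [card_range] at h7
    have h8 : (N : ℝ) ≤ ⌊L ^ C⌋₊ + 1 := by exact_mod_cast h7
    have h9 : (⌊L ^ C⌋₊ : ℝ) ≤ L ^ C := Nat.floor_le (by positivity)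
    have h10 : 1 ≤ L ^ C := one_le_pow₀ hL1
    rw [pow_succ]
    nlinarith
  -- the set `T`
  set T := A.filter (fun n => ∀ l, ∀ p ∈ pz w, ¬ (p : ℤ) ∣ u l n) with hT
  set R := rho X with hR
  have hRdef : R = V⁻¹ / L := rfl
  have hR0 : 0 < R := by rw [hRdef]; positivity
  have hlogL : 0 ≤ Real.log L := Real.log_nonneg hL1
  have hsL : √L * √L = L := Real.mul_self_sqrt hL0.le
  have hsL1 : 1 ≤ √L := by rw [Real.one_le_sqrt]; exact hL1
  have hRle : R ≤ Real.log L / L := by
    rw [hRdef]; gcongr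
  have hR2 : R ≤ δ := by
    calc R ≤ (2 * √L) * (Real.log L / L) := by
          have h6 : 0 ≤ Real.log L / L := by positivity
          nlinarith
      _ = (2 * Real.log L) / √L := by
          have e : Real.log L / L = Real.log L / (√L * √L) := by rw [hsL]
          rw [e]
          field_simp
      _ ≤ δ := by rw [div_le_iff₀ (by positivity)]; exact a5
  have hR3 : R ≤ 1 := by
    refine hRle.trans ?_
    rw [div_le_one hL0]
    have := Real.log_le_sub_one_of_pos hL0
    linarith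
  have hRg : R ^ g ≤ R := by
    calc R ^ g ≤ R ^ 1 := pow_le_pow_of_le_one hR0.le hR3 hg
      _ = R := pow_one R
  have hRg0 : 0 < R ^ g := by positivity
  set lam : ℝ := lamA X u A with hlam
  have hlamdef : lam = (T.card : ℝ) * R ^ g := rfl
  have hlam0 : 0 ≤ lam := by rw [hlamdef]; positivity
  have hdf := hδ T.card (R ^ g) hRg0.le (hRg.trans hR2) hlA
  rw [← pow_mul, ← hlamdef] at hdf
  set D : ℝ := ((T.card.descFactorial k : ℕ) : ℝ) with hD
  -- moments over `T`
  have hmom := a1 T (fun n hn => hAn n (mem_filter.1 hn).1) u (fun l n hn => by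
      exact ⟨hub l n (mem_filter.1 hn).1, cop_of _ ((mem_filter.1 hn).2 l)⟩) Y hY
  rw [← hP, ← hD] at hmom
  -- the tiny values
  set bx := Fintype.piFinset (fun l => box (Y l)) with hbx
  have hcards : (bx.card : ℝ) = P := by
    rw [hbx, Fintype.card_piFinset, hP]
    push_cast
    apply prod_congr rfl
    intro l _
    unfold box
    rw [Fintype.card_piFinset]
    push_cast
    apply prod_congr rfl
    intro j _
    simp
  set Ym : ℕ := ⌈(X : ℝ) / L ^ C⌉₊ with hYm
  have hYm1 : 1 ≤ Ym := by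
    rw [hYm, Nat.one_le_ceil_iff]; positivity
  have hYmY : ∀ l j, Ym ≤ Y l j := by
    intro l j
    rw [hYm]
    exact Nat.ceil_le.2 (hY l j).1
  have hYmr : (X : ℝ) / L ^ C ≤ Ym := Nat.le_ceil _
  have htiny := hTI g d W (by omega) hW1 Y u (A) w Ym hYm1 hYmY
  set Ti := bx.filter (fun t : Fin g → Fin d → ℤ => ∃ n ∈ A, ∃ l, |u l n + ev W (t l) n| ≤ w) with hTi
  rw [← hN, ← hP] at htiny
  have hTiS : (N : ℝ) ^ k * Ti.card ≤ ε / 4 * P := by
    have hNn : (0 : ℝ) ≤ N := Nat.cast_nonneg _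
    have hwL : (w : ℝ) ≤ L := ww_le X hL1
    have h6 : (N : ℝ) ^ k * (N * g * (2 * w + 1) / Ym) ≤ ε / 4 := by
      have h7 : (N : ℝ) ^ k * (N * g * (2 * w + 1) / Ym) ≤
          (L ^ (C + 1)) ^ k * (L ^ (C + 1) * g * (2 * L + L) / (X / L ^ C)) := by
        gcongr
      have h8 : (L ^ (C + 1)) ^ k * (L ^ (C + 1) * g * (2 * L + L) / (X / L ^ C)) =
          (3 * g * L ^ ((C + 1) * (k + 1) + C + 1)) / X := by
        rw [div_div_eq_mul_div, ← pow_mul]
        rw [← mul_div_assoc]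
        congr 1
        rw [pow_add, pow_add, mul_add (C + 1) k 1, pow_add, pow_one, mul_one]
        ring
      rw [h8] at h7
      refine h7.trans ?_
      rw [div_le_iff₀ hX0]
      have h9 : √(X : ℝ) ≤ X := by
        rw [Real.sqrt_le_left (by positivity)]; nlinarith
      have h10 := a4.trans h9
      have h11 : 3 * g * (4 / ε) * L ^ ((C + 1) * (k + 1) + C + 1) = (4 / ε) * (3 * g * L ^ ((C + 1) * (k + 1) + C + 1)) := by ring
      rw [h11, div_mul_eq_mul_div, div_le_iff₀ hε] at h10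
      linarith
    calc (N : ℝ) ^ k * Ti.card ≤ (N : ℝ) ^ k * ((N * g * (2 * w + 1) / Ym) * P) :=
          mul_le_mul_of_nonneg_left htiny (by positivity)
      _ = ((N : ℝ) ^ k * (N * g * (2 * w + 1) / Ym)) * P := by ring
      _ ≤ ε / 4 * P := mul_le_mul_of_nonneg_right h6 hP0
  -- comparison of the two counts
  have hcomp : |∑ t ∈ bx, (((cntA (fun l n => u l n + ev W (t l) n) A).descFactorial k : ℕ) : ℝ) -
      ∑ t ∈ bx, (((T.filter (fun n => ∀ l, (u l n + ev W (t l) n).natAbs.Prime)).card.descFactorial k : ℕ) : ℝ)| ≤ (N : ℝ) ^ k * Ti.card := by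
    rw [← sum_sub_distrib]
    refine (abs_sum_le_sum_abs _ _).trans ?_
    have h6 : ∀ t ∈ bx, |(((cntA (fun l n => u l n + ev W (t l) n) A).descFactorial k : ℕ) : ℝ) -
      (((T.filter (fun n => ∀ l, (u l n + ev W (t l) n).natAbs.Prime)).card.descFactorial k : ℕ) : ℝ)| ≤
        if t ∈ Ti then (N : ℝ) ^ k else 0 := by
      intro t ht
      by_cases htT : t ∈ Ti
      · rw [if_pos htT]
        have hcN : ∀ s : Finset ℕ, s ⊆ A → (((s.card.descFactorial k : ℕ)) : ℝ) ≤ (N : ℝ) ^ k := by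
          intro s hss
          have h7 : s.card ≤ N := card_le_card hss
          have h8 : s.card.descFactorial k ≤ N ^ k := (Nat.descFactorial_le_pow _ _).trans (Nat.pow_le_pow_left h7 k)
          exact_mod_cast h8
        have h9 := hcN (A.filter (fun n => ∀ l, (u l n + ev W (t l) n).natAbs.Prime)) (filter_subset _ _)
        have h10 := hcN (T.filter (fun n => ∀ l, (u l n + ev W (t l) n).natAbs.Prime))
          ((filter_subset _ _).trans (filter_subset _ _))
        rw [abs_le]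
        unfold cntA
        have h11 : (0 : ℝ) ≤ (((A.filter (fun n => ∀ l, (u l n + ev W (t l) n).natAbs.Prime)).card.descFactorial k : ℕ) : ℝ) := Nat.cast_nonneg _
        have h12 : (0 : ℝ) ≤ (((T.filter (fun n => ∀ l, (u l n + ev W (t l) n).natAbs.Prime)).card.descFactorial k : ℕ) : ℝ) := Nat.cast_nonneg _
        constructor <;> linarith
      · rw [if_neg htT]
        have h7 : A.filter (fun n => ∀ l, (u l n + ev W (t l) n).natAbs.Prime) =
            T.filter (fun n => ∀ l, (u l n + ev W (t l) n).natAbs.Prime) := by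
          ext n
          rw [mem_filter, mem_filter, hT, mem_filter]
          constructor
          · rintro ⟨h8, h9⟩
            refine ⟨⟨h8, ?_⟩, h9⟩
            intro l p hp hd'
            apply htT
            rw [hTi, mem_filter]
            refine ⟨ht, n, h8, l, ?_⟩
            have h10 : (p : ℤ) ∣ u l n + ev W (t l) n := by
              apply dvd_add hd'
              unfold ev
              exact (dvd_WW hp).mul_right _
            have h11 : p ∣ (u l n + ev W (t l) n).natAbs := Int.natCast_dvd.1 h10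
            have h12 : p = (u l n + ev W (t l) n).natAbs :=
              (Nat.prime_dvd_prime_iff_eq (mem_pz.1 hp).2 (h9 l)).1 h11
            rw [Int.abs_eq_natAbs, ← h12]
            exact_mod_cast (mem_pz.1 hp).1
          · rintro ⟨⟨h8, _⟩, h9⟩
            exact ⟨h8, h9⟩
        unfold cntA
        rw [h7, sub_self, abs_zero]
    refine (sum_le_sum h6).trans (le_of_eq ?_)
    rw [sum_ite_mem, sum_const, nsmul_eq_mul]
    have h7 : bx ∩ Ti = Ti := by
      rw [hTi]; exact inter_eq_right.2 (filter_subset _ _)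
    rw [h7, mul_comm]
  -- conclusion
  have h6 : |D * R ^ (g * k) - lam ^ k| ≤ ε / 4 := hdf.trans (min_le_right _ _)
  have h7 : |D * R ^ (g * k) - lam ^ k| ≤ 1 := hdf.trans (min_le_left _ _)
  have hlkk : lam ^ k ≤ Lam ^ k := pow_le_pow_left₀ hlam0 hlA k
  have h8 : D * R ^ (g * k) ≤ Lam ^ k + 1 := by
    have := (abs_le.1 h7).2
    linarith
  have h9 : ε / (4 * (Lam ^ k + 1)) * (P * D * R ^ (g * k)) ≤ ε / 4 * P := by
    calc ε / (4 * (Lam ^ k + 1)) * (P * D * R ^ (g * k)) = ε / (4 * (Lam ^ k + 1)) * P * (D * R ^ (g * k)) := by ring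
      _ ≤ ε / (4 * (Lam ^ k + 1)) * P * (Lam ^ k + 1) := by
          apply mul_le_mul_of_nonneg_left h8
          positivity
      _ = ε / 4 * P := by field_simp
  have h10 : |P * D * R ^ (g * k) - lam ^ k * P| ≤ ε / 4 * P := by
    have e : P * D * R ^ (g * k) - lam ^ k * P = P * (D * R ^ (g * k) - lam ^ k) := by ring
    rw [e, abs_mul, abs_of_nonneg hP0]
    calc P * |D * R ^ (g * k) - lam ^ k| ≤ P * (ε / 4) := mul_le_mul_of_nonneg_left h6 hP0
      _ = _ := by ring
  have h11 := hmom.trans h9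
  have h12 := hcomp.trans hTiS
  have h13 : 0 ≤ ε * P := by positivity
  rw [abs_le] at h10 h11 h12 ⊢
  constructor <;> linarith [h10.1, h10.2, h11.1, h11.2, h12.1, h12.2]

end Pool.Agent.Run7.h385.PO
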