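import Pool.Agent.Run7.h385.PO.ALL
import Pool.Agent.Run7.h385.PO.CLSA

set_option autoImplicit false

namespace Pool.Agent.Run7.h385.PO

open Finset
open Pool.Agent.H373R2.T7
open Pool.Agent.H807R2.Dav

lemma glob (hSP : S_SPLIT) (g d W : ℕ) (hW : 1 ≤ W) (a : Fin g → Fin d → ℤ) (Y : Fin g → Fin d → ℕ)
    (Φ Ψ : (Fin g → Fin d → ℤ) → ℝ)
    (h : ∀ r ∈ Fintype.piFinset (fun _ : Fin g => box (fun _ : Fin d => W)),
      |∑ t ∈ Fintype.piFinset (fun l => box (fun j => (Y l j + W - 1 - (r l j).toNat) / W)), Φ (fun l j => a l j + r l j + W * t l j)| ≤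
        ∑ t ∈ Fintype.piFinset (fun l => box (fun j => (Y l j + W - 1 - (r l j).toNat) / W)), Ψ (fun l j => a l j + r l j + W * t l j)) :
    |∑ c ∈ cbox a Y, Φ c| ≤ ∑ c ∈ cbox a Y, Ψ c := by
  have e5 : cbox a Y = Fintype.piFinset (fun l => Fintype.piFinset (fun j => Ico (a l j) (a l j + Y l j))) := rfl
  rw [e5, hSP g d W hW a Y Φ, hSP g d W hW a Y Ψ]
  exact (abs_sum_le_sum_abs _ _).trans (sum_le_sum h)

lemma facts (hWS : S_WSMALL) (g d C C1 : ℕ) (hd : 2 ≤ d) : ∃ X0 : ℕ, ∀ X : ℕ, X0 ≤ X →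
    1 ≤ WW X ∧ 1 ≤ Real.log X ∧ ∀ F : Fin g → ℕ → ℤ,
    (∀ l, ∀ n : ℕ, (n : ℝ) ≤ Real.log X ^ C → |(F l n : ℝ)| ≤ X * Real.log X ^ C1) →
    ∀ (a : Fin g → Fin d → ℤ) (Y : Fin g → Fin d → ℕ),
    (∀ l j, |(a l j : ℝ)| ≤ X ∧ (X : ℝ) / Real.log X ^ C1 ≤ Y l j ∧ (Y l j : ℝ) ≤ X) →
    ∀ r ∈ Fintype.piFinset (fun _ : Fin g => box (fun _ : Fin d => WW X)),
      (∀ l j, (X : ℝ) / Real.log X ^ (C + C1 + C * d + 2) ≤ (((Y l j + WW X - 1 - (r l j).toNat) / WW X : ℕ) : ℝ) ∧
        ((((Y l j + WW X - 1 - (r l j).toNat) / WW X : ℕ)) : ℝ) ≤ X) ∧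
      (∀ l, ∀ n : ℕ, (n : ℝ) ≤ Real.log X ^ C →
        |(fv F (fun l j => a l j + r l j) l n : ℝ)| ≤ X * Real.log X ^ (C + C1 + C * d + 2)) := by
  obtain ⟨n2, h2⟩ := hWS.2
  obtain ⟨n3, h3⟩ := ev_L' (2 * d + 2)
  obtain ⟨n4, h4⟩ := ev_log' (C1 + 1) 2
  refine ⟨max n2 (max n3 (max n4 2)), fun X hX => ?_⟩
  obtain ⟨hWsq, hW1, _⟩ := h2 X (le_trans (le_max_left _ _) hX)
  have a3 := h3 X (le_trans (le_trans (le_max_left _ _) (le_max_right _ _)) hX)
  have a4 := h4 X (le_trans (le_trans (le_trans (le_max_left _ _) (le_max_right _ _)) (le_max_right _ _)) hX)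
  have hX2 : 2 ≤ X := le_trans (le_trans (le_trans (le_max_right _ _) (le_max_right _ _)) (le_max_right _ _)) hX
  set L := Real.log X with hL
  have hdr : (2 : ℝ) ≤ d := by exact_mod_cast hd
  have hL2 : 2 ≤ L := by linarith
  have hL0 : 0 < L := by linarith
  have hL1 : 1 ≤ L := by linarith
  have hXr : (2 : ℝ) ≤ X := by exact_mod_cast hX2
  have hX0 : (0 : ℝ) < X := by linarith
  set W := WW X with hW
  have hWr1 : (1 : ℝ) ≤ W := by exact_mod_cast hW1
  have hWL : (W : ℝ) ≤ L := by nlinarith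
  have hsX : √(X : ℝ) ≤ X := by
    rw [Real.sqrt_le_left (by positivity)]; nlinarith
  have h2L : 2 * L ^ (C1 + 1) ≤ X := a4.trans hsX
  set C2 : ℕ := C + C1 + C * d + 2 with hC2
  refine ⟨hW1, hL1, fun F hFb a Y haY r hr => ?_⟩
  have hY1 : ∀ l j, 1 ≤ Y l j := by
    intro l j
    have h5 : 0 < (X : ℝ) / L ^ C1 := by positivity
    have h6 : (0 : ℝ) < Y l j := h5.trans_le (haY l j).2.1
    exact_mod_cast h6
  rw [Fintype.mem_piFinset] at hr
  constructor
  · intro l j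
    have hr1 := hr l
    unfold box at hr1
    rw [Fintype.mem_piFinset] at hr1
    have hr2 : 0 ≤ r l j ∧ r l j < (W : ℤ) := mem_Ico.1 (hr1 j)
    set q := (r l j).toNat with hq
    have hqW : q < W := by omega
    have hy1 := hY1 l j
    set y := (Y l j + W - 1 - q) / W with hy
    constructor
    · have h5 : Y l j ≤ (y + 1) * W := by
        have h6 := Nat.lt_div_mul_add (a := Y l j + W - 1 - q) (b := W) (by omega)
        rw [← hy] at h6
        have h7 : Y l j + W - 1 - q ≥ Y l j := by omega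
        nlinarith
      have h6 : (Y l j : ℝ) ≤ (y + 1) * W := by exact_mod_cast h5
      have h7 : (X : ℝ) / L ^ C1 ≤ (y + 1) * L := by
        refine (haY l j).2.1.trans (h6.trans ?_)
        apply mul_le_mul_of_nonneg_left hWL
        positivity
      have h8 : (X : ℝ) / L ^ (C1 + 1) ≤ y + 1 := by
        rw [div_le_iff₀ (by positivity)] at h7 ⊢
        rw [pow_succ]
        linarith
      have h9 : (2 : ℝ) ≤ X / L ^ (C1 + 1) := by
        rw [le_div_iff₀ (by positivity)]; exact h2L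
      have h10 : (X : ℝ) / L ^ C2 ≤ X / L ^ (C1 + 1) / 2 := by
        rw [div_div]
        apply div_le_div_of_nonneg_left hX0.le (by positivity)
        have h11 : L ^ (C1 + 1) * L ≤ L ^ C2 := by
          rw [← pow_succ]
          apply pow_le_pow_right₀ hL1
          rw [hC2]; omega
        have h12 : L ^ (C1 + 1) * 2 ≤ L ^ (C1 + 1) * L := mul_le_mul_of_nonneg_left hL2 (by positivity)
        linarith
      linarith
    · refine le_trans ?_ (haY l j).2.2
      have h5 : y ≤ Y l j := by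
        rw [hy]
        apply Nat.div_le_of_le_mul
        have h6 : Y l j + W - 1 - q ≤ Y l j + W - 1 := by omega
        have h7 : Y l j + W ≤ W * Y l j + 1 := by nlinarith
        omega
      exact_mod_cast h5
  · intro l n hn
    have hr1 := hr l
    unfold box at hr1
    rw [Fintype.mem_piFinset] at hr1
    unfold fv
    push_cast
    refine (abs_add_le _ _).trans ?_
    have h5 : |∑ j : Fin d, ((a l j : ℝ) + (r l j : ℝ)) * (n : ℝ) ^ (j : ℕ)| ≤ d * ((2 * X) * L ^ (C * d)) := by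
      refine (abs_sum_le_sum_abs _ _).trans ?_
      have h6 : ∀ j ∈ (univ : Finset (Fin d)), |((a l j : ℝ) + (r l j : ℝ)) * (n : ℝ) ^ (j : ℕ)| ≤ (2 * X) * L ^ (C * d) := by
        intro j _
        have hr2 : 0 ≤ r l j ∧ r l j < (W : ℤ) := mem_Ico.1 (hr1 j)
        rw [abs_mul]
        apply mul_le_mul
        · refine (abs_add_le _ _).trans ?_
          have h7 : |(r l j : ℝ)| ≤ X := by
            have h8 : (0 : ℝ) ≤ r l j := by exact_mod_cast hr2.1
            have h9 : (r l j : ℝ) < W := by exact_mod_cast hr2.2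
            rw [abs_of_nonneg h8]
            have h10 : L ≤ X := by
              have := Real.log_le_sub_one_of_pos hX0
              linarith
            linarith
          linarith [(haY l j).1]
        · rw [abs_pow, Nat.abs_cast]
          calc (n : ℝ) ^ (j : ℕ) ≤ (L ^ C) ^ (j : ℕ) := pow_le_pow_left₀ (Nat.cast_nonneg _) hn _
            _ = L ^ (C * j) := by rw [pow_mul]
            _ ≤ L ^ (C * d) := by
                apply pow_le_pow_right₀ hL1
                exact Nat.mul_le_mul_left _ j.2.le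
        · positivity
        · positivity
      refine (sum_le_sum h6).trans (le_of_eq ?_)
      rw [sum_const, card_univ, Fintype.card_fin, nsmul_eq_mul]
    have h6 := hFb l n hn
    have h7 : L ^ C1 ≤ L ^ (C + C1 + C * d) := pow_le_pow_right₀ hL1 (by omega)
    have h8 : L ^ (C * d) ≤ L ^ (C + C1 + C * d) := pow_le_pow_right₀ hL1 (by omega)
    have h9 : L ^ C2 = L ^ (C + C1 + C * d) * (L * L) := by rw [hC2, pow_add]; ring
    set Q := L ^ (C + C1 + C * d) with hQ
    have hQ0 : 0 < Q := by positivity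
    rw [h9]
    have h10 : (X : ℝ) * L ^ C1 ≤ X * Q := mul_le_mul_of_nonneg_left h7 hX0.le
    have h11 : (d : ℝ) * ((2 * X) * L ^ (C * d)) ≤ d * ((2 * X) * Q) := by gcongr
    have h12 : (1 + 2 * d : ℝ) ≤ L * L := by nlinarith
    have h13 : X * Q * (1 + 2 * d) ≤ X * Q * (L * L) := mul_le_mul_of_nonneg_left h12 (by positivity)
    nlinarith

lemma card_pibox {g d : ℕ} (Z : Fin g → Fin d → ℕ) :
    (((Fintype.piFinset (fun l => box (Z l))).card : ℕ) : ℝ) = ∏ l, ∏ j, (Z l j : ℝ) := by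
  have hcN : (Fintype.piFinset (fun l => box (Z l))).card = ∏ l, ∏ j, Z l j := by
    rw [Fintype.card_piFinset]
    apply prod_congr rfl
    intro l _
    unfold box
    rw [Fintype.card_piFinset]
    apply prod_congr rfl
    intro j _
    rw [Int.card_Ico, sub_zero, Int.toNat_natCast]
  rw [hcN]
  push_cast
  rfl

lemma lamA_congr {g : ℕ} (X : ℕ) (f f' : Fin g → ℕ → ℤ) (A : Finset ℕ)
    (h : ∀ p ∈ pz (ww X), ∀ l n, (p : ℤ) ∣ f l n - f' l n) : lamA X f A = lamA X f' A := by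
  have e : A.filter (fun n => ∀ l, ∀ p ∈ pz (ww X), ¬ (p : ℤ) ∣ f l n) =
      A.filter (fun n => ∀ l, ∀ p ∈ pz (ww X), ¬ (p : ℤ) ∣ f' l n) := by
    apply filter_congr
    intro n _
    constructor
    · intro h1 l p hp h2
      apply h1 l p hp
      have := dvd_add h2 (h p hp l n)
      rwa [add_sub_cancel] at this
    · intro h1 l p hp h2
      apply h1 l p hp
      have := dvd_sub h2 (h p hp l n)
      rwa [sub_sub_cancel] at this
  unfold lamA
  rw [e]

/-- arbitrary sets of arguments, depending on the classes of the coefficients modulo `W`: moments -/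
def S_ALLA : Prop :=
  ∀ (d g k C C1 : ℕ), 2 ≤ d → 1 ≤ g → k + 1 ≤ 2 * d → ∀ Lam ε : ℝ, 0 < Lam → 0 < ε →
    ∃ X0 : ℕ, ∀ X : ℕ, X0 ≤ X → ∀ F : Fin g → ℕ → ℤ,
    (∀ l, ∀ n : ℕ, (n : ℝ) ≤ Real.log X ^ C → |(F l n : ℝ)| ≤ X * Real.log X ^ C1) →
    ∀ (a : Fin g → Fin d → ℤ) (Y : Fin g → Fin d → ℕ),
    (∀ l j, |(a l j : ℝ)| ≤ X ∧ (X : ℝ) / Real.log X ^ C1 ≤ Y l j ∧ (Y l j : ℝ) ≤ X) →
    ∀ (AA : (Fin g → Fin d → ℤ) → Finset ℕ) (EE : (Fin g → Fin d → ℤ) → Prop) [DecidablePred EE],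
    (∀ c c', (∀ l j, (WW X : ℤ) ∣ c l j - c' l j) → AA c = AA c' ∧ (EE c ↔ EE c')) →
    (∀ c, EE c → (∀ n ∈ AA c, (n : ℝ) ≤ Real.log X ^ C) ∧ lamA X (fv F c) (AA c) ≤ Lam) →
    |∑ c ∈ (cbox a Y).filter EE, ((((cntA (fv F c) (AA c)).descFactorial k : ℕ) : ℝ) - lamA X (fv F c) (AA c) ^ k)| ≤
      ε * ((cbox a Y).filter EE).card

/-- the same, distribution -/
def S_DISA : Prop :=
  ∀ (d g C C1 : ℕ), 2 ≤ d → 1 ≤ g → ∀ Lam ε : ℝ, 0 < Lam → 0 < ε →
    ∃ X0 : ℕ, ∀ X : ℕ, X0 ≤ X → ∀ F : Fin g → ℕ → ℤ,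
    (∀ l, ∀ n : ℕ, (n : ℝ) ≤ Real.log X ^ C → |(F l n : ℝ)| ≤ X * Real.log X ^ C1) →
    ∀ (a : Fin g → Fin d → ℤ) (Y : Fin g → Fin d → ℕ),
    (∀ l j, |(a l j : ℝ)| ≤ X ∧ (X : ℝ) / Real.log X ^ C1 ≤ Y l j ∧ (Y l j : ℝ) ≤ X) →
    ∀ (AA : (Fin g → Fin d → ℤ) → Finset ℕ) (EE : (Fin g → Fin d → ℤ) → Prop) [DecidablePred EE],
    (∀ c c', (∀ l j, (WW X : ℤ) ∣ c l j - c' l j) → AA c = AA c' ∧ (EE c ↔ EE c')) →
    (∀ c, EE c → (∀ n ∈ AA c, (n : ℝ) ≤ Real.log X ^ C) ∧ lamA X (fv F c) (AA c) ≤ Lam) →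
    ∀ j ≤ 2 * d - 1,
    |((((cbox a Y).filter EE).filter (fun c => cntA (fv F c) (AA c) = j)).card : ℝ) -
        ∑ c ∈ (cbox a Y).filter EE, Real.exp (-lamA X (fv F c) (AA c)) * lamA X (fv F c) (AA c) ^ j / j.factorial| ≤
      ∑ c ∈ (cbox a Y).filter EE, (lamA X (fv F c) (AA c) ^ (2 * d - 1) / (j.factorial * (2 * d - 1 - j).factorial) + ε)

set_option maxHeartbeats 4000000 in
theorem t_ALLA (hCLS : S_CLSA) (hSP : S_SPLIT) (hWS : S_WSMALL) : S_ALLA := by
  intro d g k C C1 hd hg hk Lam ε hLam hε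
  obtain ⟨n1, h1⟩ := hCLS d g k (C + C1 + C * d + 2) hd hg hk Lam ε hLam hε
  obtain ⟨n2, h2⟩ := facts hWS g d C C1 hd
  refine ⟨max n1 n2, fun X hX F hFb a Y haY AA EE _ hper hAE => ?_⟩
  have a1 := h1 X (le_trans (le_max_left _ _) hX)
  obtain ⟨hW1, hL1, h3⟩ := h2 X (le_trans (le_max_right _ _) hX)
  have a2 := h3 F hFb a Y haY
  set L := Real.log X with hL
  set W := WW X with hW
  have hLC : L ^ C ≤ L ^ (C + C1 + C * d + 2) := pow_le_pow_right₀ hL1 (by omega)
  set Φ : (Fin g → Fin d → ℤ) → ℝ := fun c => if EE c then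
    ((((cntA (fv F c) (AA c)).descFactorial k : ℕ) : ℝ) - lamA X (fv F c) (AA c) ^ k) else 0 with hΦ
  set Ψ : (Fin g → Fin d → ℤ) → ℝ := fun c => if EE c then ε else 0 with hΨ
  have e1 : ∑ c ∈ (cbox a Y).filter EE, ((((cntA (fv F c) (AA c)).descFactorial k : ℕ) : ℝ) - lamA X (fv F c) (AA c) ^ k) =
      ∑ c ∈ cbox a Y, Φ c := by
    rw [hΦ, ← sum_filter]
  have e2 : ε * (((cbox a Y).filter EE).card : ℝ) = ∑ c ∈ cbox a Y, Ψ c := by
    rw [hΨ, ← sum_filter, sum_const, nsmul_eq_mul, mul_comm]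
  rw [e1, e2]
  apply glob hSP g d W hW1 a Y Φ Ψ
  intro r hr
  obtain ⟨b1, b2⟩ := a2 r hr
  set c0 : Fin g → Fin d → ℤ := fun l j => a l j + r l j with hc0
  set u : Fin g → ℕ → ℤ := fv F c0 with hu
  have hval : ∀ t : Fin g → Fin d → ℤ, fv F (fun l j => a l j + r l j + W * t l j) = fun l n => u l n + ev W (t l) n :=
    fun t => fv_split F a r t W
  have hpc : ∀ t : Fin g → Fin d → ℤ, AA (fun l j => a l j + r l j + W * t l j) = AA c0 ∧
      (EE (fun l j => a l j + r l j + W * t l j) ↔ EE c0) := by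
    intro t
    apply hper
    intro l j
    exact ⟨t l j, by rw [hc0]; ring⟩
  have hlam : ∀ t : Fin g → Fin d → ℤ, lamA X (fv F (fun l j => a l j + r l j + W * t l j)) (AA c0) = lamA X u (AA c0) := by
    intro t
    rw [hval]
    apply lamA_congr
    intro p hp l n
    simp only [add_sub_cancel_left]
    unfold ev
    exact (dvd_WW hp).mul_right _
  by_cases hE : EE c0
  · obtain ⟨c1, c2⟩ := hAE c0 hE
    have h5 := a1 u (AA c0) (fun n hn => (c1 n hn).trans hLC) (fun l n hn => b2 l n (c1 n hn)) c2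
      (fun l j => (Y l j + W - 1 - (r l j).toNat) / W) b1
    have hcard := card_pibox (fun l j => (Y l j + W - 1 - (r l j).toNat) / W)
    have e6 : ∑ t ∈ Fintype.piFinset (fun l => box (fun j => (Y l j + W - 1 - (r l j).toNat) / W)),
        Φ (fun l j => a l j + r l j + W * t l j) =
        ∑ t ∈ Fintype.piFinset (fun l => box (fun j => (Y l j + W - 1 - (r l j).toNat) / W)),
          (((cntA (fun l n => u l n + ev W (t l) n) (AA c0)).descFactorial k : ℕ) : ℝ) -
        lamA X u (AA c0) ^ k * ∏ l, ∏ j, (((Y l j + W - 1 - (r l j).toNat) / W : ℕ) : ℝ) := by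
      have e7 : ∀ t ∈ Fintype.piFinset (fun l => box (fun j => (Y l j + W - 1 - (r l j).toNat) / W)),
          Φ (fun l j => a l j + r l j + W * t l j) =
          (((cntA (fun l n => u l n + ev W (t l) n) (AA c0)).descFactorial k : ℕ) : ℝ) - lamA X u (AA c0) ^ k := by
        intro t _
        rw [hΦ]
        simp only
        rw [if_pos ((hpc t).2.2 hE), (hpc t).1, hlam, hval]
      rw [sum_congr rfl e7, sum_sub_distrib, sum_const, nsmul_eq_mul, hcard, mul_comm (lamA X u (AA c0) ^ k)]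
    have e8 : ∑ t ∈ Fintype.piFinset (fun l => box (fun j => (Y l j + W - 1 - (r l j).toNat) / W)),
        Ψ (fun l j => a l j + r l j + W * t l j) = ε * ∏ l, ∏ j, (((Y l j + W - 1 - (r l j).toNat) / W : ℕ) : ℝ) := by
      have e7 : ∀ t ∈ Fintype.piFinset (fun l => box (fun j => (Y l j + W - 1 - (r l j).toNat) / W)),
          Ψ (fun l j => a l j + r l j + W * t l j) = ε := by
        intro t _
        rw [hΨ]
        simp only
        rw [if_pos ((hpc t).2.2 hE)]
      rw [sum_congr rfl e7, sum_const, nsmul_eq_mul, hcard, mul_comm]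
    rw [e6, e8]
    exact h5
  · have e7 : ∀ t ∈ Fintype.piFinset (fun l => box (fun j => (Y l j + W - 1 - (r l j).toNat) / W)),
        Φ (fun l j => a l j + r l j + W * t l j) = 0 := by
      intro t _
      rw [hΦ]
      simp only
      rw [if_neg (fun h => hE ((hpc t).2.1 h))]
    have e8 : ∀ t ∈ Fintype.piFinset (fun l => box (fun j => (Y l j + W - 1 - (r l j).toNat) / W)),
        Ψ (fun l j => a l j + r l j + W * t l j) = 0 := by
      intro t _
      rw [hΨ]
      simp only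
      rw [if_neg (fun h => hE ((hpc t).2.1 h))]
    rw [sum_congr rfl e7, sum_congr rfl e8, sum_const_zero, abs_zero]

set_option maxHeartbeats 4000000 in
theorem t_DISA (hCLS : S_CLSA) (hSP : S_SPLIT) (hWS : S_WSMALL) (hPO : S_POIS) : S_DISA := by
  intro d g C C1 hd hg Lam ε hLam hε
  have hall : ∀ k : ℕ, ∃ n : ℕ, k + 1 ≤ 2 * d → ∀ X : ℕ, n ≤ X → ∀ (u : Fin g → ℕ → ℤ) (A : Finset ℕ),
    (∀ n ∈ A, (n : ℝ) ≤ Real.log X ^ (C + C1 + C * d + 2)) →
    (∀ l, ∀ n ∈ A, |(u l n : ℝ)| ≤ X * Real.log X ^ (C + C1 + C * d + 2)) →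
    lamA X u A ≤ Lam →
    ∀ Y : Fin g → Fin d → ℕ, (∀ l j, (X : ℝ) / Real.log X ^ (C + C1 + C * d + 2) ≤ Y l j ∧ (Y l j : ℝ) ≤ X) →
    |∑ t ∈ Fintype.piFinset (fun l => box (Y l)),
        (((cntA (fun l n => u l n + ev (WW X) (t l) n) A).descFactorial k : ℕ) : ℝ) -
        lamA X u A ^ k * ∏ l, ∏ j, (Y l j : ℝ)| ≤ (ε / 3) * ∏ l, ∏ j, (Y l j : ℝ) := by
    intro k
    by_cases hk : k + 1 ≤ 2 * d
    · obtain ⟨n, hn⟩ := hCLS d g k (C + C1 + C * d + 2) hd hg hk Lam (ε / 3) hLam (by positivity)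
      exact ⟨n, fun _ => hn⟩
    · exact ⟨0, fun h => absurd h hk⟩
  choose nn hnn using hall
  obtain ⟨n2, h2⟩ := facts hWS g d C C1 hd
  refine ⟨max ((range (2 * d)).sup nn) n2, fun X hX F hFb a Y haY AA EE _ hper hAE j hj => ?_⟩
  have a1 : ∀ k ≤ 2 * d - 1, nn k ≤ X := by
    intro k hk
    exact le_trans (le_trans (le_sup (f := nn) (mem_range.2 (by omega))) (le_max_left _ _)) hX
  obtain ⟨hW1, hL1, h3⟩ := h2 X (le_trans (le_max_right _ _) hX)
  have a2 := h3 F hFb a Y haY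
  set L := Real.log X with hL
  set W := WW X with hW
  have hLC : L ^ C ≤ L ^ (C + C1 + C * d + 2) := pow_le_pow_right₀ hL1 (by omega)
  set K := 2 * d - 1 with hK
  set Φ : (Fin g → Fin d → ℤ) → ℝ := fun c => if EE c then
    ((if cntA (fv F c) (AA c) = j then (1 : ℝ) else 0) - Real.exp (-lamA X (fv F c) (AA c)) * lamA X (fv F c) (AA c) ^ j / j.factorial) else 0 with hΦ
  set Ψ : (Fin g → Fin d → ℤ) → ℝ := fun c => if EE c then (lamA X (fv F c) (AA c) ^ K / (j.factorial * (K - j).factorial) + ε) else 0 with hΨ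
  have e1 : ((((cbox a Y).filter EE).filter (fun c => cntA (fv F c) (AA c) = j)).card : ℝ) -
        ∑ c ∈ (cbox a Y).filter EE, Real.exp (-lamA X (fv F c) (AA c)) * lamA X (fv F c) (AA c) ^ j / j.factorial =
      ∑ c ∈ cbox a Y, Φ c := by
    rw [hΦ, ← sum_filter, sum_sub_distrib]
    congr 1
    rw [← sum_filter, sum_const, nsmul_eq_mul, mul_one]
  have e2 : ∑ c ∈ (cbox a Y).filter EE, (lamA X (fv F c) (AA c) ^ K / (j.factorial * (K - j).factorial) + ε) = ∑ c ∈ cbox a Y, Ψ c := by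
    rw [hΨ, ← sum_filter]
  rw [e1, e2]
  apply glob hSP g d W hW1 a Y Φ Ψ
  intro r hr
  obtain ⟨b1, b2⟩ := a2 r hr
  set c0 : Fin g → Fin d → ℤ := fun l j => a l j + r l j with hc0
  set u : Fin g → ℕ → ℤ := fv F c0 with hu
  have hval : ∀ t : Fin g → Fin d → ℤ, fv F (fun l j => a l j + r l j + W * t l j) = fun l n => u l n + ev W (t l) n :=
    fun t => fv_split F a r t W
  have hpc : ∀ t : Fin g → Fin d → ℤ, AA (fun l j => a l j + r l j + W * t l j) = AA c0 ∧
      (EE (fun l j => a l j + r l j + W * t l j) ↔ EE c0) := by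
    intro t
    apply hper
    intro l j
    exact ⟨t l j, by rw [hc0]; ring⟩
  have hlam : ∀ t : Fin g → Fin d → ℤ, lamA X (fv F (fun l j => a l j + r l j + W * t l j)) (AA c0) = lamA X u (AA c0) := by
    intro t
    rw [hval]
    apply lamA_congr
    intro p hp l n
    simp only [add_sub_cancel_left]
    unfold ev
    exact (dvd_WW hp).mul_right _
  by_cases hE : EE c0
  · obtain ⟨c1, c2⟩ := hAE c0 hE
    set bx := Fintype.piFinset (fun l => box (fun j => (Y l j + W - 1 - (r l j).toNat) / W)) with hbx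
    have hcard : ((bx.card : ℕ) : ℝ) = ∏ l, ∏ j, (((Y l j + W - 1 - (r l j).toNat) / W : ℕ) : ℝ) :=
      card_pibox (fun l j => (Y l j + W - 1 - (r l j).toNat) / W)
    set lam := lamA X u (AA c0) with hlamd
    have hlam0 : 0 ≤ lam := by
      rw [hlamd]; unfold lamA rho
      have := Vz_pos (ww X)
      have h0 : 0 ≤ Real.log X := by linarith
      positivity
    have h5 : ∀ k ≤ K, |∑ t ∈ bx, (((cntA (fun l n => u l n + ev W (t l) n) (AA c0)).descFactorial k : ℕ) : ℝ) - lam ^ k * bx.card| ≤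
        (ε / 3) * bx.card := by
      intro k hk
      have h6 := hnn k (by omega) X (a1 k hk) u (AA c0) (fun n hn => (c1 n hn).trans hLC) (fun l n hn => b2 l n (c1 n hn)) c2
        (fun l j => (Y l j + W - 1 - (r l j).toNat) / W) b1
      rw [← hlamd] at h6
      rw [hcard]
      exact h6
    have h6 := hPO (Fin g → Fin d → ℤ) bx (fun t => cntA (fun l n => u l n + ev W (t l) n) (AA c0)) K lam (ε / 3) hlam0
      (by positivity) h5 j hj
    have e6 : ∑ t ∈ bx, Φ (fun l j => a l j + r l j + W * t l j) =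
        ((bx.filter (fun t => cntA (fun l n => u l n + ev W (t l) n) (AA c0) = j)).card : ℝ) -
          Real.exp (-lam) * lam ^ j / j.factorial * bx.card := by
      have e7 : ∀ t ∈ bx, Φ (fun l j => a l j + r l j + W * t l j) =
          (if cntA (fun l n => u l n + ev W (t l) n) (AA c0) = j then (1 : ℝ) else 0) - Real.exp (-lam) * lam ^ j / j.factorial := by
        intro t _
        rw [hΦ]
        simp only
        rw [if_pos ((hpc t).2.2 hE), (hpc t).1, hlam, hval]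
      rw [sum_congr rfl e7, sum_sub_distrib, sum_const, nsmul_eq_mul, ← sum_filter, sum_const, nsmul_eq_mul, mul_one]
      ring
    have e8 : ∑ t ∈ bx, Ψ (fun l j => a l j + r l j + W * t l j) = (lam ^ K / (j.factorial * (K - j).factorial) + 3 * (ε / 3)) * bx.card := by
      have e7 : ∀ t ∈ bx, Ψ (fun l j => a l j + r l j + W * t l j) = lam ^ K / (j.factorial * (K - j).factorial) + ε := by
        intro t _
        rw [hΨ]
        simp only
        rw [if_pos ((hpc t).2.2 hE), (hpc t).1, hlam]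
      rw [sum_congr rfl e7, sum_const, nsmul_eq_mul]
      ring
    rw [e6, e8]
    exact h6
  · have e7 : ∀ t ∈ Fintype.piFinset (fun l => box (fun j => (Y l j + W - 1 - (r l j).toNat) / W)),
        Φ (fun l j => a l j + r l j + W * t l j) = 0 := by
      intro t _
      rw [hΦ]
      simp only
      rw [if_neg (fun h => hE ((hpc t).2.1 h))]
    have e8 : ∀ t ∈ Fintype.piFinset (fun l => box (fun j => (Y l j + W - 1 - (r l j).toNat) / W)),
        Ψ (fun l j => a l j + r l j + W * t l j) = 0 := by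
      intro t _
      rw [hΨ]
      simp only
      rw [if_neg (fun h => hE ((hpc t).2.1 h))]
    rw [sum_congr rfl e7, sum_congr rfl e8, sum_const_zero, abs_zero]

end Pool.Agent.Run7.h385.PO
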