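import Pool.Agent.Run7.h385.PO.BIL
import Pool.Agent.Run7.h385.PO.TERM
import Pool.Agent.Run7.h385.PO.ALLA
import Pool.Agent.Run7.h13.PO.MODEL
import Pool.Agent.Run7.h215.PO.ADM
import Pool.Agent.Run7.h215.PO.MOM
import Pool.Agent.Run7.h215.PO.TCOUNT
import Pool.Agent.Run7.h215.PO.TINY2
import Pool.Agent.Run7.h215.PO.WSMALL
import Pool.Agent.Run7.h416.PO.COEF
import Pool.Agent.Run7.h871.PO.POIS
import Pool.Agent.Run7.h871.PO.PRIMES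

/-! # Project PO: assembly -/

set_option autoImplicit false

namespace Pool.Agent.Run7.h385.PO

theorem a_DIFF : S_DIFF := Run7.h871.PO.t_DIFF (t_TERM t_BIL Run7.h416.PO.t_COEF Run7.h416.PO.t_SHIFT)

theorem a_PRIMES : S_PRIMES :=
  Run7.h871.PO.t_PRIMES Run7.h215.PO.t_WSMALL a_DIFF Run7.h13.PO.t_MODEL Run7.h416.PO.t_RARE

theorem a_MOM : S_MOM := Run7.h215.PO.t_MOM a_PRIMES

theorem a_ALL2 : S_ALL2 :=
  t_ALL2 (t_CLS2 a_MOM Run7.h215.PO.t_TCOUNT Run7.h215.PO.t_TINY2 Run7.h215.PO.t_WSMALL)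
    Run7.h416.PO.t_SPLIT Run7.h215.PO.t_WSMALL

theorem a_CLSA : S_CLSA := t_CLSA a_MOM Run7.h215.PO.t_TINY2 Run7.h215.PO.t_WSMALL

theorem a_ALLA : S_ALLA := t_ALLA a_CLSA Run7.h416.PO.t_SPLIT Run7.h215.PO.t_WSMALL

theorem a_DISA : S_DISA := t_DISA a_CLSA Run7.h416.PO.t_SPLIT Run7.h215.PO.t_WSMALL Run7.h871.PO.t_POIS

theorem a_ADM : S_ADM := Run7.h215.PO.Adm.t_ADM Run7.h13.PO.t_COUNT

end Pool.Agent.Run7.h385.PO
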