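import Pool.Agent.Run7.h385.PO.Stm2

set_option autoImplicit false

namespace Pool.Agent.Run7.h385.PO

open Finset
open Pool.Agent.H373R2.T7
open Pool.Agent.H807R2.Dav

lemma df_succ (n k : ℕ) : ((n.descFactorial (k + 1) : ℕ) : ℝ) = ((n : ℝ) - k) * ((n.descFactorial k : ℕ) : ℝ) := by
  rw [Nat.descFactorial_succ]
  rcases le_or_gt k n with h | h
  · rw [Nat.cast_mul, Nat.cast_sub h]
  · rw [Nat.descFactorial_eq_zero_iff_lt.2 h]; simp

lemma df_lim (k : ℕ) (lam : ℝ) (hl : 0 < lam) : ∀ ε : ℝ, 0 < ε → ∃ δ : ℝ, 0 < δ ∧ ∀ (n : ℕ) (r : ℝ), 0 ≤ r → r ≤ δ →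
    |n * r - lam| ≤ δ → |((n.descFactorial k : ℕ) : ℝ) * r ^ k - lam ^ k| ≤ ε := by
  induction k with
  | zero => intro ε hε; exact ⟨1, one_pos, fun n r _ _ _ => by simp [hε.le]⟩
  | succ k ih =>
    intro ε hε
    set η := min (ε / (2 * lam)) 1 with hη
    have hη0 : 0 < η := lt_min (by positivity) one_pos
    obtain ⟨δ1, h1, h2⟩ := ih η hη0
    have hlk : 0 < lam ^ k := by positivity
    set δ := min δ1 (ε / (2 * (lam ^ k + 1) * (k + 1))) with hδ
    refine ⟨δ, lt_min h1 (by positivity), fun n r hr0 hr hn => ?_⟩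
    have hδ0 : 0 < δ := lt_min h1 (by positivity)
    have hy := h2 n r hr0 (hr.trans (min_le_left _ _)) (hn.trans (min_le_left _ _))
    have hk0 : (0 : ℝ) ≤ k := Nat.cast_nonneg _
    have hx : |((n : ℝ) - k) * r - lam| ≤ (k + 1) * δ := by
      have e : ((n : ℝ) - k) * r - lam = (n * r - lam) - k * r := by ring
      rw [e]
      refine (abs_sub _ _).trans ?_
      rw [abs_of_nonneg (mul_nonneg hk0 hr0)]
      have := mul_le_mul_of_nonneg_left hr hk0
      linarith
    set D : ℝ := ((n.descFactorial k : ℕ) : ℝ) with hD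
    rw [df_succ, ← hD]
    have e : ((n : ℝ) - k) * D * r ^ (k + 1) - lam ^ (k + 1) =
        (((n : ℝ) - k) * r - lam) * (D * r ^ k) + lam * (D * r ^ k - lam ^ k) := by ring
    rw [e]
    have h3 : |D * r ^ k| ≤ lam ^ k + 1 := by
      have h4 : D * r ^ k = (D * r ^ k - lam ^ k) + lam ^ k := by ring
      rw [h4]
      refine (abs_add_le _ _).trans ?_
      rw [abs_of_pos hlk]
      have := hy.trans (min_le_right _ _)
      linarith
    refine (abs_add_le _ _).trans ?_
    rw [abs_mul _ (D * r ^ k), abs_mul lam, abs_of_pos hl]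
    have h5 : |((n : ℝ) - k) * r - lam| * |D * r ^ k| ≤ ε / 2 := by
      have h6 : (k + 1) * δ * (lam ^ k + 1) ≤ ε / 2 := by
        have h7 : δ ≤ ε / (2 * (lam ^ k + 1) * (k + 1)) := min_le_right _ _
        rw [le_div_iff₀ (by positivity)] at h7
        nlinarith
      calc |((n : ℝ) - k) * r - lam| * |D * r ^ k| ≤ ((k + 1) * δ) * (lam ^ k + 1) :=
            mul_le_mul hx h3 (abs_nonneg _) (by positivity)
        _ ≤ ε / 2 := h6
    have h8 : lam * |D * r ^ k - lam ^ k| ≤ ε / 2 := by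
      have h9 : |D * r ^ k - lam ^ k| ≤ ε / (2 * lam) := hy.trans (min_le_left _ _)
      rw [le_div_iff₀ (by positivity)] at h9
      linarith
    linarith

lemma omega_le {g : ℕ} (f : Fin g → ℕ → ℤ) (p : ℕ) : omega f p ≤ p := by
  unfold omega
  refine (card_filter_le _ _).trans ?_
  rw [card_range]

lemma omega_lt_of_sing {g : ℕ} (f : Fin g → ℕ → ℤ) (w : ℕ) (h : 0 < sing f w) : ∀ p ∈ pz w, omega f p < p := by
  intro p hp
  have hpp := (mem_pz.1 hp).2
  have hp0 : (0 : ℝ) < p := by exact_mod_cast hpp.pos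
  rcases lt_or_eq_of_le (omega_le f p) with h1 | h1
  · exact h1
  · exfalso
    have h2 : sing f w = 0 := by
      unfold sing
      apply prod_eq_zero hp
      rw [h1, div_self hp0.ne', sub_self, zero_div]
    linarith

lemma sing_pos_iff {g : ℕ} (f : Fin g → ℕ → ℤ) (w : ℕ) : 0 < sing f w ↔ ∀ p ∈ pz w, omega f p < p := by
  constructor
  · exact omega_lt_of_sing f w
  · intro h
    unfold sing
    apply prod_pos
    intro p hp
    have hpp := (mem_pz.1 hp).2
    have hp0 : (0 : ℝ) < p := by exact_mod_cast hpp.pos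
    have hp1 : (1 : ℝ) < p := by exact_mod_cast hpp.one_lt
    have h1 : (omega f p : ℝ) < p := by exact_mod_cast h p hp
    apply div_pos
    · rw [sub_pos, div_lt_one hp0]; exact h1
    · apply pow_pos
      rw [sub_pos, div_lt_one hp0]; exact hp1

lemma sing_ge {g : ℕ} (f : Fin g → ℕ → ℤ) (w : ℕ) (h : 0 < sing f w) :
    1 / ((∏ p ∈ pz w, p : ℕ) : ℝ) ≤ sing f w := by
  have h1 := omega_lt_of_sing f w h
  have e : 1 / ((∏ p ∈ pz w, p : ℕ) : ℝ) = ∏ p ∈ pz w, 1 / (p : ℝ) := by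
    push_cast
    rw [prod_div_distrib, prod_const_one]
  rw [e]
  unfold sing
  apply prod_le_prod
  · intro p _; positivity
  · intro p hp
    have hpp := (mem_pz.1 hp).2
    have hp0 : (0 : ℝ) < p := by exact_mod_cast hpp.pos
    have hp1 : (1 : ℝ) < p := by exact_mod_cast hpp.one_lt
    have h2 : (omega f p : ℝ) + 1 ≤ p := by exact_mod_cast h1 p hp
    have h3 : 1 / (p : ℝ) ≤ 1 - (omega f p : ℝ) / p := by
      rw [div_le_iff₀ hp0, sub_mul, div_mul_cancel₀ _ hp0.ne']
      linarith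
    have h4 : 0 < 1 - 1 / (p : ℝ) := by rw [sub_pos, div_lt_one hp0]; exact hp1
    have h5 : (1 - 1 / (p : ℝ)) ^ g ≤ 1 := by
      apply pow_le_one₀ h4.le
      have : 0 < 1 / (p : ℝ) := by positivity
      linarith
    have h6 : 0 < (1 - 1 / (p : ℝ)) ^ g := pow_pos h4 g
    rw [le_div_iff₀ h6]
    have h7 : 0 < 1 / (p : ℝ) := by positivity
    nlinarith

lemma sing_mul {g : ℕ} (f : Fin g → ℕ → ℤ) (w : ℕ) :
    ∏ p ∈ pz w, (1 - (omega f p : ℝ) / p) = sing f w * Vz w ^ g := by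
  have h : Vz w ^ g = ∏ p ∈ pz w, (1 - 1 / (p : ℝ)) ^ g := by
    unfold Vz
    rw [prod_pow]
  have hV := Vz_pos w
  have e : sing f w = (∏ p ∈ pz w, (1 - (omega f p : ℝ) / p)) / Vz w ^ g := by
    unfold sing
    rw [prod_div_distrib, ← h]
  rw [e, div_mul_cancel₀]
  positivity

lemma cop_of {w : ℕ} (v : ℤ) (h : ∀ p ∈ pz w, ¬ (p : ℤ) ∣ v) : IsCoprime v ((∏ p ∈ pz w, p : ℕ) : ℤ) := by
  push_cast
  apply IsCoprime.prod_right
  intro p hp
  have hpp := Nat.prime_iff_prime_int.1 (mem_pz.1 hp).2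
  exact (hpp.coprime_iff_not_dvd.2 (h p hp)).symm

lemma dvd_WW {w p : ℕ} (h : p ∈ pz w) : (p : ℤ) ∣ ((∏ p ∈ pz w, p : ℕ) : ℤ) := by
  exact_mod_cast dvd_prod_of_mem (fun p => p) h

lemma ww_le (X : ℕ) (h : 1 ≤ Real.log X) : (ww X : ℝ) ≤ Real.log X := by
  unfold ww
  have h1 : 0 ≤ Real.log (Real.log X) := Real.log_nonneg h
  refine (Nat.floor_le (by positivity)).trans ?_
  have h2 := Real.log_le_sub_one_of_pos (show 0 < Real.log X by linarith)
  linarith

/-- one class modulo `W`, with a second exponent for the sizes -/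
def S_CLS2 : Prop :=
  ∀ (d g k C C2 : ℕ), 2 ≤ d → 1 ≤ g → k + 1 ≤ 2 * d → ∀ lam ε : ℝ, 0 < lam → 0 < ε →
    ∃ X0 : ℕ, ∀ X : ℕ, X0 ≤ X → ∀ u : Fin g → ℕ → ℤ,
    (∀ l, ∀ p n : ℕ, (p : ℤ) ∣ u l (n + p) - u l n) →
    (∀ l, ∀ n : ℕ, (n : ℝ) ≤ Real.log X ^ (C + g + 3) → |(u l n : ℝ)| ≤ X * Real.log X ^ C2) →
    0 < sing u (ww X) →
    ∀ Y : Fin g → Fin d → ℕ, (∀ l j, (X : ℝ) / Real.log X ^ C2 ≤ Y l j ∧ (Y l j : ℝ) ≤ X) →
    ∀ m : ℕ, (m : ℝ) ≤ Real.log X ^ C →
    |∑ t ∈ Fintype.piFinset (fun l => box (Y l)),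
        (((cnt (fun l n => u l n + ev (WW X) (t l) n) m (len X lam u)).descFactorial k : ℕ) : ℝ) -
        lam ^ k * ∏ l, ∏ j, (Y l j : ℝ)| ≤ ε * ∏ l, ∏ j, (Y l j : ℝ)

set_option maxHeartbeats 4000000 in
theorem t_CLS2 (hMOM : S_MOM) (hTC : S_TCOUNT) (hTI : S_TINY2) (hWS : S_WSMALL) : S_CLS2 := by
  intro d g k C C2 hd hg hk lam ε hlam hε
  have hlk : 0 < lam ^ k := by positivity
  obtain ⟨δ, hδ0, hδ⟩ := df_lim k lam hlam (min 1 (ε / 4)) (lt_min one_pos (by positivity))
  obtain ⟨n1, h1⟩ := hMOM d g k (C + g + 3 + C2) hd hk (ε / (4 * (lam ^ k + 1))) (by positivity)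
  obtain ⟨n2, h2⟩ := hWS.2
  obtain ⟨n3, h3⟩ := ev_L' (max 2 (2 * lam))
  obtain ⟨n4, h4⟩ := ev_log' ((g + 2) * (k + 1) + C2 + 1) (3 * g * (4 / ε))
  have hlim : Filter.Tendsto (fun N : ℕ => Real.log (N : ℝ)) Filter.atTop Filter.atTop :=
    Real.tendsto_log_atTop.comp (tendsto_natCast_atTop_atTop (R := ℝ))
  have hev : ∀ᶠ N : ℕ in Filter.atTop, 2 * Real.log (Real.log N) ≤ δ * √(Real.log N) := by
    have h5 := (isLittleO_log_rpow_atTop (show (0 : ℝ) < 1 / 2 by norm_num)).bound (show (0 : ℝ) < δ / 2 by positivity)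
    have h6 := hlim.eventually h5
    filter_upwards [h6, hlim.eventually_ge_atTop 1] with N h7 h8
    rw [Real.norm_of_nonneg (Real.log_nonneg h8), Real.norm_of_nonneg (by positivity), ← Real.sqrt_eq_rpow] at h7
    linarith
  obtain ⟨n5, h5⟩ := Filter.eventually_atTop.1 hev
  refine ⟨max (max (max n1 n2) (max n3 n4)) (max n5 2), fun X hX u hper hub hs Y hY m hm => ?_⟩
  have hX1 : n1 ≤ X := le_trans (le_trans (le_trans (le_max_left _ _) (le_max_left _ _)) (le_max_left _ _)) hX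
  have hX2 : n2 ≤ X := le_trans (le_trans (le_trans (le_max_right _ _) (le_max_left _ _)) (le_max_left _ _)) hX
  have hX3 : n3 ≤ X := le_trans (le_trans (le_trans (le_max_left _ _) (le_max_right _ _)) (le_max_left _ _)) hX
  have hX4 : n4 ≤ X := le_trans (le_trans (le_trans (le_max_right _ _) (le_max_right _ _)) (le_max_left _ _)) hX
  have hX5 : n5 ≤ X := le_trans (le_trans (le_max_left _ _) (le_max_right _ _)) hX
  have hX6 : 2 ≤ X := le_trans (le_trans (le_max_right _ _) (le_max_right _ _)) hX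
  have a1 := h1 X hX1
  obtain ⟨hWsq, hW1, hVinv⟩ := h2 X hX2
  have a3 := h3 X hX3
  have a4 := h4 X hX4
  have a5 := h5 X hX5
  set L := Real.log X with hL
  have hL2 : 2 ≤ L := (le_max_left _ _).trans a3
  have hLlam : 2 * lam ≤ L := (le_max_right _ _).trans a3
  have hL0 : 0 < L := by linarith
  have hL1 : 1 ≤ L := by linarith
  have hXr : (2 : ℝ) ≤ X := by exact_mod_cast hX6
  have hX0 : (0 : ℝ) < X := by linarith
  set w := ww X with hw
  set W := WW X with hW
  have hWr1 : (1 : ℝ) ≤ W := by exact_mod_cast hW1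
  have hWL : (W : ℝ) ≤ √L := by
    rw [← Real.sqrt_sq (show (0 : ℝ) ≤ W by positivity)]
    exact Real.sqrt_le_sqrt hWsq
  have hWL' : (W : ℝ) ≤ L := by nlinarith
  have hVpos := Vz_pos w
  set V := Vz w with hV
  set P : ℝ := ∏ l, ∏ j, (Y l j : ℝ) with hP
  have hP0 : 0 ≤ P := by positivity
  set σ := sing u w with hσ
  set N := len X lam u with hN
  have hNdef : N = ⌈lam * L ^ g / σ⌉₊ := rfl
  have hσW : 1 / (W : ℝ) ≤ σ := sing_ge u w hs
  have hN1 : lam * L ^ g / σ ≤ N := by rw [hNdef]; exact Nat.le_ceil _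
  have hN2 : (N : ℝ) ≤ lam * L ^ g / σ + 1 := by
    rw [hNdef]; exact (Nat.ceil_lt_add_one (by positivity)).le
  have hNL : (N : ℝ) ≤ L ^ (g + 2) := by
    have h6 : lam * L ^ g / σ ≤ lam * L ^ g * W := by
      rw [div_le_iff₀ hs]
      have h7 : 1 ≤ W * σ := by
        rw [div_le_iff₀ (by positivity)] at hσW
        linarith
      have h8 : 0 ≤ lam * L ^ g := by positivity
      nlinarith
    have h7 : lam * L ^ g * W ≤ (L / 2) * L ^ g * L := by gcongr; linarith
    have h8 : (L / 2) * L ^ g * L = L ^ (g + 2) / 2 := by ring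
    have h9 : 1 ≤ L ^ (g + 2) / 2 := by
      have h10 : L ^ 1 ≤ L ^ (g + 2) := pow_le_pow_right₀ hL1 (by omega)
      rw [pow_one] at h10
      linarith
    linarith
  have hnL : ∀ n ∈ Ioc m (m + N), (n : ℝ) ≤ L ^ (C + g + 3) := by
    intro n hn
    rw [mem_Ioc] at hn
    have h6 : (n : ℝ) ≤ m + N := by exact_mod_cast hn.2
    have h7 : L ^ C ≤ L ^ (C + g + 2) := pow_le_pow_right₀ hL1 (by omega)
    have h8 : L ^ (g + 2) ≤ L ^ (C + g + 2) := pow_le_pow_right₀ hL1 (by omega)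
    have h9 : L ^ (C + g + 3) = L * L ^ (C + g + 2) := by ring
    have h10 : 0 < L ^ (C + g + 2) := by positivity
    rw [h9]
    nlinarith
  -- the set `T`
  set T := (Ioc m (m + N)).filter (fun n => ∀ l, ∀ p ∈ pz w, ¬ (p : ℤ) ∣ u l n) with hT
  have hTc : |(T.card : ℝ) - N * (σ * V ^ g)| ≤ W := by
    have h6 := hTC g u w (fun l p _ n => hper l p n) m N
    rw [sing_mul] at h6
    exact h6
  have hσV1 : σ * V ^ g ≤ 1 := by
    rw [← sing_mul]
    apply prod_le_one
    · intro p hp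
      have h6 : (omega u p : ℝ) ≤ p := by exact_mod_cast omega_le u p
      have hp0 : (0 : ℝ) < p := by exact_mod_cast (mem_pz.1 hp).2.pos
      rw [sub_nonneg, div_le_one hp0]
      exact h6
    · intro p _
      have : 0 ≤ (omega u p : ℝ) / p := by positivity
      linarith
  have hσV0 : 0 < σ * V ^ g := by positivity
  have hTc2 : |(T.card : ℝ) - lam * (L * V) ^ g| ≤ W + 1 := by
    have h6 : lam * (L * V) ^ g = (lam * L ^ g / σ) * (σ * V ^ g) := by
      rw [mul_pow]; field_simp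
    rw [abs_le] at hTc ⊢
    rw [h6]
    have h7 := mul_le_mul_of_nonneg_right hN1 hσV0.le
    have h8 := mul_le_mul_of_nonneg_right hN2 hσV0.le
    constructor
    · linarith [hTc.1, hTc.2]
    · have h9 : (lam * L ^ g / σ + 1) * (σ * V ^ g) = lam * L ^ g / σ * (σ * V ^ g) + σ * V ^ g := by ring
      linarith [hTc.1, hTc.2]
  set R := rho X with hR
  have hRdef : R = V⁻¹ / L := rfl
  have hR0 : 0 < R := by rw [hRdef]; positivity
  have hlogL : 0 ≤ Real.log L := Real.log_nonneg hL1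
  have hsL : √L * √L = L := Real.mul_self_sqrt hL0.le
  have hsL1 : 1 ≤ √L := by rw [Real.one_le_sqrt]; exact hL1
  have hRle : R ≤ Real.log L / L := by
    rw [hRdef]; gcongr
  have hR1 : (W + 1) * R ≤ δ := by
    calc ((W : ℝ) + 1) * R ≤ (2 * √L) * (Real.log L / L) := by
          apply mul_le_mul _ hRle hR0.le (by positivity)
          linarith
      _ = (2 * Real.log L) / √L := by
          have e : Real.log L / L = Real.log L / (√L * √L) := by rw [hsL]
          rw [e]
          field_simp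
      _ ≤ δ := by rw [div_le_iff₀ (by positivity)]; exact a5
  have hR2 : R ≤ δ := by nlinarith
  have hR3 : R ≤ 1 := by
    refine hRle.trans ?_
    rw [div_le_one hL0]
    have := Real.log_le_sub_one_of_pos hL0
    linarith
  have hRg : R ^ g ≤ R := by
    calc R ^ g ≤ R ^ 1 := pow_le_pow_of_le_one hR0.le hR3 hg
      _ = R := pow_one R
  have hRg0 : 0 < R ^ g := by positivity
  have hTR : |(T.card : ℝ) * R ^ g - lam| ≤ δ := by
    have h6 : lam = lam * (L * V) ^ g * R ^ g := by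
      rw [mul_assoc, ← mul_pow, hRdef]
      have : L * V * (V⁻¹ / L) = 1 := by field_simp
      rw [this, one_pow, mul_one]
    have h7 : (T.card : ℝ) * R ^ g - lam = (T.card - lam * (L * V) ^ g) * R ^ g := by
      rw [sub_mul, ← h6]
    rw [h7, abs_mul, abs_of_pos hRg0]
    calc |(T.card : ℝ) - lam * (L * V) ^ g| * R ^ g ≤ (W + 1) * R :=
          mul_le_mul hTc2 hRg hRg0.le (by positivity)
      _ ≤ δ := hR1
  have hdf := hδ T.card (R ^ g) hRg0.le (hRg.trans hR2) hTR
  rw [← pow_mul] at hdf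
  set D : ℝ := ((T.card.descFactorial k : ℕ) : ℝ) with hD
  -- moments over `T`
  have hmom := a1 T (fun n hn => (hnL n (mem_filter.1 hn).1).trans (pow_le_pow_right₀ hL1 (by omega))) u (fun l n hn => by
      refine ⟨?_, cop_of _ ((mem_filter.1 hn).2 l)⟩
      refine (hub l n (hnL n (mem_filter.1 hn).1)).trans ?_
      have : L ^ C2 ≤ L ^ (C + g + 3 + C2) := pow_le_pow_right₀ hL1 (by omega)
      exact mul_le_mul_of_nonneg_left this hX0.le) Y (fun l j => by
      refine ⟨?_, (hY l j).2⟩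
      refine le_trans ?_ (hY l j).1
      have : L ^ C2 ≤ L ^ (C + g + 3 + C2) := pow_le_pow_right₀ hL1 (by omega)
      apply div_le_div_of_nonneg_left hX0.le (by positivity) this)
  rw [← hP, ← hD] at hmom
  -- the tiny values
  set bx := Fintype.piFinset (fun l => box (Y l)) with hbx
  have hcards : (bx.card : ℝ) = P := by
    rw [hbx, Fintype.card_piFinset, hP]
    push_cast
    apply prod_congr rfl
    intro l _
    unfold box
    rw [Fintype.card_piFinset]
    push_cast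
    apply prod_congr rfl
    intro j _
    simp
  set Ym : ℕ := ⌈(X : ℝ) / L ^ C2⌉₊ with hYm
  have hYm1 : 1 ≤ Ym := by
    rw [hYm, Nat.one_le_ceil_iff]; positivity
  have hYmY : ∀ l j, Ym ≤ Y l j := by
    intro l j
    rw [hYm]
    exact Nat.ceil_le.2 (hY l j).1
  have hYmr : (X : ℝ) / L ^ C2 ≤ Ym := Nat.le_ceil _
  have htiny := hTI g d W (by omega) hW1 Y u (Ioc m (m + N)) w Ym hYm1 hYmY
  set Ti := bx.filter (fun t : Fin g → Fin d → ℤ => ∃ n ∈ Ioc m (m + N), ∃ l, |u l n + ev W (t l) n| ≤ w) with hTi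
  have hIoc : (((Ioc m (m + N)).card : ℕ) : ℝ) = N := by
    rw [Nat.card_Ioc]; simp
  rw [hIoc, ← hP] at htiny
  have hTiS : (N : ℝ) ^ k * Ti.card ≤ ε / 4 * P := by
    have hNn : (0 : ℝ) ≤ N := Nat.cast_nonneg _
    have hwL : (w : ℝ) ≤ L := ww_le X hL1
    have h6 : (N : ℝ) ^ k * (N * g * (2 * w + 1) / Ym) ≤ ε / 4 := by
      have h7 : (N : ℝ) ^ k * (N * g * (2 * w + 1) / Ym) ≤
          (L ^ (g + 2)) ^ k * (L ^ (g + 2) * g * (2 * L + L) / (X / L ^ C2)) := by
        gcongr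
      have h8 : (L ^ (g + 2)) ^ k * (L ^ (g + 2) * g * (2 * L + L) / (X / L ^ C2)) =
          (3 * g * L ^ ((g + 2) * (k + 1) + C2 + 1)) / X := by
        rw [div_div_eq_mul_div, ← pow_mul]
        rw [← mul_div_assoc]
        congr 1
        rw [pow_add, pow_add, mul_add (g + 2) k 1, pow_add, pow_one, mul_one]
        ring
      rw [h8] at h7
      refine h7.trans ?_
      rw [div_le_iff₀ hX0]
      have h9 : √(X : ℝ) ≤ X := by
        rw [Real.sqrt_le_left (by positivity)]; nlinarith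
      have h10 := a4.trans h9
      have h11 : 3 * g * (4 / ε) * L ^ ((g + 2) * (k + 1) + C2 + 1) = (4 / ε) * (3 * g * L ^ ((g + 2) * (k + 1) + C2 + 1)) := by ring
      rw [h11, div_mul_eq_mul_div, div_le_iff₀ hε] at h10
      linarith
    calc (N : ℝ) ^ k * Ti.card ≤ (N : ℝ) ^ k * ((N * g * (2 * w + 1) / Ym) * P) :=
          mul_le_mul_of_nonneg_left htiny (by positivity)
      _ = ((N : ℝ) ^ k * (N * g * (2 * w + 1) / Ym)) * P := by ring
      _ ≤ ε / 4 * P := mul_le_mul_of_nonneg_right h6 hP0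
  -- comparison of the two counts
  have hcomp : |∑ t ∈ bx, (((cnt (fun l n => u l n + ev W (t l) n) m N).descFactorial k : ℕ) : ℝ) -
      ∑ t ∈ bx, (((T.filter (fun n => ∀ l, (u l n + ev W (t l) n).natAbs.Prime)).card.descFactorial k : ℕ) : ℝ)| ≤ (N : ℝ) ^ k * Ti.card := by
    rw [← sum_sub_distrib]
    refine (abs_sum_le_sum_abs _ _).trans ?_
    have h6 : ∀ t ∈ bx, |(((cnt (fun l n => u l n + ev W (t l) n) m N).descFactorial k : ℕ) : ℝ) -
      (((T.filter (fun n => ∀ l, (u l n + ev W (t l) n).natAbs.Prime)).card.descFactorial k : ℕ) : ℝ)| ≤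
        if t ∈ Ti then (N : ℝ) ^ k else 0 := by
      intro t ht
      by_cases htT : t ∈ Ti
      · rw [if_pos htT]
        have hcN : ∀ s : Finset ℕ, s ⊆ Ioc m (m + N) → (((s.card.descFactorial k : ℕ)) : ℝ) ≤ (N : ℝ) ^ k := by
          intro s hss
          have h7 : s.card ≤ N := by
            have := card_le_card hss
            rw [Nat.card_Ioc] at this
            omega
          have h8 : s.card.descFactorial k ≤ N ^ k := (Nat.descFactorial_le_pow _ _).trans (Nat.pow_le_pow_left h7 k)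
          exact_mod_cast h8
        have h9 := hcN ((Ioc m (m + N)).filter (fun n => ∀ l, (u l n + ev W (t l) n).natAbs.Prime)) (filter_subset _ _)
        have h10 := hcN (T.filter (fun n => ∀ l, (u l n + ev W (t l) n).natAbs.Prime))
          ((filter_subset _ _).trans (filter_subset _ _))
        rw [abs_le]
        unfold cnt
        have h11 : (0 : ℝ) ≤ ((((Ioc m (m + N)).filter (fun n => ∀ l, (u l n + ev W (t l) n).natAbs.Prime)).card.descFactorial k : ℕ) : ℝ) := Nat.cast_nonneg _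
        have h12 : (0 : ℝ) ≤ (((T.filter (fun n => ∀ l, (u l n + ev W (t l) n).natAbs.Prime)).card.descFactorial k : ℕ) : ℝ) := Nat.cast_nonneg _
        constructor <;> linarith
      · rw [if_neg htT]
        have h7 : (Ioc m (m + N)).filter (fun n => ∀ l, (u l n + ev W (t l) n).natAbs.Prime) =
            T.filter (fun n => ∀ l, (u l n + ev W (t l) n).natAbs.Prime) := by
          ext n
          rw [mem_filter, mem_filter, hT, mem_filter]
          constructor
          · rintro ⟨h8, h9⟩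
            refine ⟨⟨h8, ?_⟩, h9⟩
            intro l p hp hd'
            apply htT
            rw [hTi, mem_filter]
            refine ⟨ht, n, h8, l, ?_⟩
            have h10 : (p : ℤ) ∣ u l n + ev W (t l) n := by
              apply dvd_add hd'
              unfold ev
              exact (dvd_WW hp).mul_right _
            have h11 : p ∣ (u l n + ev W (t l) n).natAbs := Int.natCast_dvd.1 h10
            have h12 : p = (u l n + ev W (t l) n).natAbs :=
              (Nat.prime_dvd_prime_iff_eq (mem_pz.1 hp).2 (h9 l)).1 h11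
            rw [Int.abs_eq_natAbs, ← h12]
            exact_mod_cast (mem_pz.1 hp).1
          · rintro ⟨⟨h8, _⟩, h9⟩
            exact ⟨h8, h9⟩
        unfold cnt
        rw [h7, sub_self, abs_zero]
    refine (sum_le_sum h6).trans (le_of_eq ?_)
    rw [sum_ite_mem, sum_const, nsmul_eq_mul]
    have h7 : bx ∩ Ti = Ti := by
      rw [hTi]; exact inter_eq_right.2 (filter_subset _ _)
    rw [h7, mul_comm]
  -- conclusion
  have h6 : |D * R ^ (g * k) - lam ^ k| ≤ ε / 4 := hdf.trans (min_le_right _ _)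
  have h7 : |D * R ^ (g * k) - lam ^ k| ≤ 1 := hdf.trans (min_le_left _ _)
  have h8 : D * R ^ (g * k) ≤ lam ^ k + 1 := by
    have := (abs_le.1 h7).2
    linarith
  have h9 : ε / (4 * (lam ^ k + 1)) * (P * D * R ^ (g * k)) ≤ ε / 4 * P := by
    calc ε / (4 * (lam ^ k + 1)) * (P * D * R ^ (g * k)) = ε / (4 * (lam ^ k + 1)) * P * (D * R ^ (g * k)) := by ring
      _ ≤ ε / (4 * (lam ^ k + 1)) * P * (lam ^ k + 1) := by
          apply mul_le_mul_of_nonneg_left h8
          positivity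
      _ = ε / 4 * P := by field_simp
  have h10 : |P * D * R ^ (g * k) - lam ^ k * P| ≤ ε / 4 * P := by
    have e : P * D * R ^ (g * k) - lam ^ k * P = P * (D * R ^ (g * k) - lam ^ k) := by ring
    rw [e, abs_mul, abs_of_nonneg hP0]
    calc P * |D * R ^ (g * k) - lam ^ k| ≤ P * (ε / 4) := mul_le_mul_of_nonneg_left h6 hP0
      _ = _ := by ring
  have h11 := hmom.trans h9
  have h12 := hcomp.trans hTiS
  have h13 : 0 ≤ ε * P := by positivity
  rw [abs_le] at h10 h11 h12 ⊢
  constructor <;> linarith [h10.1, h10.2, h11.1, h11.2, h12.1, h12.2]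

end Pool.Agent.Run7.h385.PO
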