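import Pool.Agent.Run7.h385.PO.Stm2

/-! # Project PO: third interface file -/

set_option autoImplicit false

namespace Pool.Agent.Run7.h385.PO

open Finset

/-- CHR (about 150 lines, elementary; Christoffel function of the Poisson distribution at `0`).
`K + 1` moments squared: if the first `2K` factorial moments of `S` are those of a Poisson variable
of parameter `lam` then `P(S = 0) ≤ 1 / (1 + lam + lam²/2 + … + lam^K/K!)`.
Proof.  `Z_m = ∑_{i ≤ m} lam^i/i!`, `Q(x) = ∑_{r ≤ K} (-1)^r Z_{K-r} C(x, r)`, so `Q(0) = Z_K` and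
`1[S = 0] Z_K² ≤ Q(S)²`; `Q(S)² = ∑_s b_s Q(S) (S)_s`, `b_s = (-1)^s Z_{K-s} / s!`, `b_0 = Z_K`.
Product rule `C(x, r) (x)_s = ∑_t C(s, t) (x)_(s+r-t) / (r-t)!` (`t ≤ min r s`; induction on `s`, or
Vandermonde: `(x)_s C(x,r) = (x)_s ∑_t C(s,t) C(x-s, r-t)` and `(x)_s C(x-s,q) = (x)_(s+q)/q!`).
Let `Lf` be replacing `(x)_k` by `lam^k`.  Then `Lf[Q (x)_s] = lam^s ∑_{t ≤ s} C(s,t) (-1)^t
∑_{q ≤ K-t} (-1)^q Z_{K-t-q} lam^q/q!`, the inner sum is `1` (it is the sum over `n ≤ K - t` of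
`(lam^n/n!) ∑_{q ≤ n} (-1)^q C(n,q) = 0^n`), so `Lf[Q (x)_s] = 1` if `s = 0`, `0` if `1 ≤ s ≤ K`;
hence `Lf[Q²] = Z_K`.  `Q(S)²` is a fixed combination of the `(S)_k`, `k ≤ 2K` (coefficients depend
only on `K`, `lam`), so `∑_i Q(S i)² ≤ (Z_K + η') #s` for small `ε`. -/
def S_CHR : Prop :=
  ∀ (K : ℕ) (lam η : ℝ), 0 < lam → 0 < η → ∃ ε : ℝ, 0 < ε ∧ ∀ (ι : Type) (s : Finset ι) (S : ι → ℕ),
    (∀ k ≤ 2 * K, |∑ i ∈ s, (((S i).descFactorial k : ℕ) : ℝ) - lam ^ k * s.card| ≤ ε * s.card) →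
    ((s.filter (fun i => S i = 0)).card : ℝ) ≤
      (1 / (∑ i ∈ range (K + 1), lam ^ i / (i.factorial : ℝ)) + η) * s.card

end Pool.Agent.Run7.h385.PO
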