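import Pool.Agent.Run7.h385.PO.Asm
import Pool.Agent.Run7.h385.PO.Stm3

/-!
The number of arguments `n` in a window of optimal length at which `g` random polynomials, each with
`d ≥ 2` random coefficients, are all prime has asymptotically Poisson factorial moments of all orders
up to `2 d - 1`.

Method: `2 d - 1` values `f(n_i)` of a polynomial with `d` free coefficients form a system of linear
forms of complexity one (shift the coefficient vector along `∏_{i ∈ A} (x - n_i)` and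
`∏_{i ∈ B} (x - n_i)`, `|A|, |B| ≤ d - 1`), so that only linear exponential sums over primes are
needed, with a saving of any power of the logarithm; this allows arguments up to a power of `log X`,
in particular windows of length about `log X`.  Then: a pure sieve, factorial moments as sums over
tuples, Bonferroni inequalities, the Christoffel function of the Poisson distribution.
-/

set_option autoImplicit false

namespace Pool.Agent.Run7.h385.PO.Fin1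

open Finset
open scoped Polynomial

/-- the polynomials `F_l + c_l0 + c_l1 x + … + c_l(d-1) x^(d-1)` -/
noncomputable def poly {g d : ℕ} (F : Fin g → ℤ[X]) (c : Fin g → Fin d → ℤ) (l : Fin g) : ℤ[X] :=
  F l + ∑ j : Fin d, Polynomial.C (c l j) * Polynomial.X ^ (j : ℕ)

/-- the number of the residues `n` modulo `p` such that `p` divides `f_1(n) ⋯ f_g(n)` -/
def omega {g : ℕ} (f : Fin g → ℤ[X]) (p : ℕ) : ℕ :=
  #((range p).filter (fun n : ℕ => ∃ l, (p : ℤ) ∣ (f l).eval (n : ℤ)))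

/-- the primes up to `w` -/
def primes (w : ℕ) : Finset ℕ := (range (w + 1)).filter Nat.Prime

/-- the product defining the constant of Bateman and Horn, taken over the primes `p ≤ w` -/
noncomputable def const {g : ℕ} (f : Fin g → ℤ[X]) (w : ℕ) : ℝ :=
  ∏ p ∈ primes w, (1 - (omega f p : ℝ) / p) / (1 - 1 / (p : ℝ)) ^ g

/-- `w(X) = ⌊log log X / 4⌋` -/
noncomputable def w (X : ℕ) : ℕ := ⌊Real.log (Real.log X) / 4⌋₊

/-- the number of the `n ∈ A` such that `|f_1(n)|, …, |f_g(n)|` are all prime -/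
def P {g : ℕ} (f : Fin g → ℤ[X]) (A : Finset ℕ) : ℕ :=
  #(A.filter (fun n : ℕ => ∀ l, ((f l).eval (n : ℤ)).natAbs.Prime))

/-- the box of the coefficients `a_lj ≤ c_lj < a_lj + Y_lj` -/
noncomputable def box {g d : ℕ} (a : Fin g → Fin d → ℤ) (Y : Fin g → Fin d → ℕ) : Finset (Fin g → Fin d → ℤ) :=
  Fintype.piFinset (fun l => Fintype.piFinset (fun j => Ico (a l j) (a l j + Y l j)))

/-- the coefficients in the box for which no prime `p ≤ w(X)` divides all the products `f_1(n) ⋯ f_g(n)` -/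
noncomputable def adm {g d : ℕ} (X : ℕ) (F : Fin g → ℤ[X]) (a : Fin g → Fin d → ℤ) (Y : Fin g → Fin d → ℕ) :
    Finset (Fin g → Fin d → ℤ) := (box a Y).filter (fun c => 0 < const (poly F c) (w X))

/-- the window `(m, m + N]`, `N = ⌈lam (log X)^g / const⌉` -/
noncomputable def window {g : ℕ} (X : ℕ) (lam : ℝ) (m : ℕ) (f : Fin g → ℤ[X]) : Finset ℕ :=
  Ioc m (m + ⌈lam * Real.log X ^ g / const f (w X)⌉₊)

/-- the expected number of `n ∈ A` with prime values, given the coefficients modulo the primes up to `w(X)` -/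
noncomputable def mean {g : ℕ} (X : ℕ) (f : Fin g → ℤ[X]) (A : Finset ℕ) : ℝ :=
  #(A.filter (fun n : ℕ => ∀ l, ∀ p ∈ primes (w X), ¬ (p : ℤ) ∣ (f l).eval (n : ℤ))) *
    ((∏ p ∈ primes (w X), (1 - 1 / (p : ℝ)))⁻¹ / Real.log X) ^ g

/-- sizes: the `F_l` have degree at most `D` and coefficients at most `X`, and the box has its
corner in `[-X, X]` and sides between `X / (log X)^B` and `X` -/
def Sizes {g d : ℕ} (D B X : ℕ) (F : Fin g → ℤ[X]) (a : Fin g → Fin d → ℤ) (Y : Fin g → Fin d → ℕ) : Prop :=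
  (∀ l, (F l).natDegree ≤ D ∧ ∀ i, |(((F l).coeff i : ℤ) : ℝ)| ≤ X) ∧
  (∀ l j, |(a l j : ℝ)| ≤ X ∧ (X : ℝ) / Real.log X ^ B ≤ Y l j ∧ (Y l j : ℝ) ≤ X)

/-- moments, distribution and voids in windows -/
def Windows (d g D B C X : ℕ) (lam ε : ℝ) : Prop :=
  ∀ (F : Fin g → ℤ[X]) (a : Fin g → Fin d → ℤ) (Y : Fin g → Fin d → ℕ), Sizes D B X F a Y →
  ∀ m : ℕ, (m : ℝ) ≤ Real.log X ^ C →
    (∀ k ≤ 2 * d - 1,
      |∑ c ∈ adm X F a Y, (((P (poly F c) (window X lam m (poly F c))).descFactorial k : ℕ) : ℝ) -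
        lam ^ k * #(adm X F a Y)| ≤ ε * #(adm X F a Y)) ∧
    (∀ j ≤ 2 * d - 1,
      |(#((adm X F a Y).filter (fun c => P (poly F c) (window X lam m (poly F c)) = j)) : ℝ) -
        Real.exp (-lam) * lam ^ j / j.factorial * #(adm X F a Y)| ≤
      (lam ^ (2 * d - 1) / (j.factorial * (2 * d - 1 - j).factorial) + ε) * #(adm X F a Y)) ∧
    (#((adm X F a Y).filter (fun c => P (poly F c) (window X lam m (poly F c)) = 0)) : ℝ) ≤
      (1 / (∑ i ∈ range d, lam ^ i / (i.factorial : ℝ)) + ε) * #(adm X F a Y)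

/-- arbitrary sets of arguments depending on the coefficients modulo the primes up to `w(X)` -/
def Sets (d g D B C X : ℕ) (Lam ε : ℝ) : Prop :=
  ∀ (F : Fin g → ℤ[X]) (a : Fin g → Fin d → ℤ) (Y : Fin g → Fin d → ℕ), Sizes D B X F a Y →
  ∀ (A : (Fin g → Fin d → ℤ) → Finset ℕ) (E : (Fin g → Fin d → ℤ) → Prop) [DecidablePred E],
    (∀ c c', (∀ l j, ((∏ p ∈ primes (w X), p : ℕ) : ℤ) ∣ c l j - c' l j) → A c = A c' ∧ (E c ↔ E c')) →
    (∀ c, E c → (∀ n ∈ A c, (n : ℝ) ≤ Real.log X ^ C) ∧ mean X (poly F c) (A c) ≤ Lam) →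
    (∀ k ≤ 2 * d - 1,
      |∑ c ∈ (box a Y).filter E, ((((P (poly F c) (A c)).descFactorial k : ℕ) : ℝ) - mean X (poly F c) (A c) ^ k)| ≤
        ε * #((box a Y).filter E)) ∧
    (∀ j ≤ 2 * d - 1,
      |(#(((box a Y).filter E).filter (fun c => P (poly F c) (A c) = j)) : ℝ) -
        ∑ c ∈ (box a Y).filter E, Real.exp (-mean X (poly F c) (A c)) * mean X (poly F c) (A c) ^ j / j.factorial| ≤
      ∑ c ∈ (box a Y).filter E,
        (mean X (poly F c) (A c) ^ (2 * d - 1) / (j.factorial * (2 * d - 1 - j).factorial) + ε))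


/-! ### proofs -/

open Pool.Agent.H373R2.T7
open Pool.Agent.Run7.h385

lemma primes_eq (w : ℕ) : primes w = pz w := by
  ext p
  unfold primes
  rw [mem_filter, mem_range, mem_pz]
  constructor
  · rintro ⟨h1, h2⟩; exact ⟨by omega, h2⟩
  · rintro ⟨h1, h2⟩; exact ⟨by omega, h2⟩

/-- values of a system of polynomials -/
def vals {g : ℕ} (f : Fin g → ℤ[X]) : Fin g → ℕ → ℤ := fun l n => (f l).eval (n : ℤ)

lemma vals_poly {g d : ℕ} (F : Fin g → ℤ[X]) (c : Fin g → Fin d → ℤ) : vals (poly F c) = PO.fv (vals F) c := by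
  funext l n
  unfold vals poly PO.fv
  rw [Polynomial.eval_add, Polynomial.eval_finset_sum]
  simp [Polynomial.eval_mul, Polynomial.eval_pow]

lemma omega_eq {g : ℕ} (f : Fin g → ℤ[X]) (p : ℕ) : omega f p = PO.omega (vals f) p := rfl

lemma const_eq {g : ℕ} (f : Fin g → ℤ[X]) (w : ℕ) : const f w = PO.sing (vals f) w := by
  unfold const PO.sing
  rw [primes_eq]
  rfl

lemma w_eq (X : ℕ) : w X = PO.ww X := rfl

lemma P_eq {g : ℕ} (f : Fin g → ℤ[X]) (A : Finset ℕ) : P f A = PO.cntA (vals f) A := rfl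

lemma adm_eq {g d : ℕ} (X : ℕ) (F : Fin g → ℤ[X]) (a : Fin g → Fin d → ℤ) (Y : Fin g → Fin d → ℕ) :
    adm X F a Y = (PO.cbox a Y).filter (fun c => 0 < PO.sing (PO.fv (vals F) c) (PO.ww X)) := by
  unfold adm
  have : box a Y = PO.cbox a Y := rfl
  rw [this]
  apply filter_congr
  intro c _
  rw [const_eq, vals_poly, w_eq]

lemma P_window {g d : ℕ} (X : ℕ) (lam : ℝ) (m : ℕ) (F : Fin g → ℤ[X]) (c : Fin g → Fin d → ℤ) :
    P (poly F c) (window X lam m (poly F c)) =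
      PO.cnt (PO.fv (vals F) c) m (PO.len X lam (PO.fv (vals F) c)) := by
  rw [P_eq, vals_poly]
  unfold window PO.cnt PO.len PO.cntA
  rw [const_eq, vals_poly, w_eq]

lemma mean_eq {g : ℕ} (X : ℕ) (f : Fin g → ℤ[X]) (A : Finset ℕ) : mean X f A = PO.lamA X (vals f) A := by
  unfold mean PO.lamA PO.rho
  rw [primes_eq, w_eq]
  rfl

lemma per_vals {g : ℕ} (F : Fin g → ℤ[X]) : ∀ l, ∀ p n : ℕ, (p : ℤ) ∣ vals F l (n + p) - vals F l n := by
  intro l p n
  unfold vals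
  have h := Polynomial.sub_dvd_eval_sub ((n + p : ℕ) : ℤ) (n : ℤ) (F l)
  have h3 : ((n + p : ℕ) : ℤ) - (n : ℤ) = p := by push_cast; ring
  rwa [h3] at h

/-- values of a polynomial of degree at most `D` with coefficients at most `X` -/
lemma val_le (D X : ℕ) (Q : ℤ[X]) (hD : Q.natDegree ≤ D) (hQ : ∀ i, |((Q.coeff i : ℤ) : ℝ)| ≤ X) (n : ℕ) (T : ℝ)
    (hT : 1 ≤ T) (hn : (n : ℝ) ≤ T) : |((Q.eval (n : ℤ) : ℤ) : ℝ)| ≤ (D + 1) * (X * T ^ D) := by
  rw [Polynomial.eval_eq_sum_range' (n := D + 1) (by omega)]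
  push_cast
  refine (abs_sum_le_sum_abs _ _).trans ?_
  have h : ∀ i ∈ range (D + 1), |((Q.coeff i : ℤ) : ℝ) * (n : ℝ) ^ i| ≤ X * T ^ D := by
    intro i hi
    rw [mem_range] at hi
    rw [abs_mul, abs_pow, Nat.abs_cast]
    apply mul_le_mul (hQ i) _ (by positivity) (Nat.cast_nonneg _)
    calc (n : ℝ) ^ i ≤ T ^ i := pow_le_pow_left₀ (Nat.cast_nonneg _) hn i
      _ ≤ T ^ D := pow_le_pow_right₀ hT (by omega)
  refine (sum_le_sum h).trans (le_of_eq ?_)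
  rw [sum_const, card_range, nsmul_eq_mul]
  push_cast
  ring

lemma sizes_val {g d : ℕ} (D B E : ℕ) : ∃ X0 : ℕ, ∀ X : ℕ, X0 ≤ X → 1 ≤ Real.log X ∧
    ∀ (F : Fin g → ℤ[X]) (a : Fin g → Fin d → ℤ) (Y : Fin g → Fin d → ℕ), Sizes D B X F a Y →
    (∀ l, ∀ n : ℕ, (n : ℝ) ≤ Real.log X ^ E → |(vals F l n : ℝ)| ≤ X * Real.log X ^ (B + E * D + 1)) ∧
    (∀ l j, |(a l j : ℝ)| ≤ X ∧ (X : ℝ) / Real.log X ^ (B + E * D + 1) ≤ Y l j ∧ (Y l j : ℝ) ≤ X) := by
  obtain ⟨n1, h1⟩ := ev_L' (D + 1)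
  refine ⟨n1, fun X hX => ?_⟩
  have hL := h1 X hX
  have hD0 : (0 : ℝ) ≤ D := Nat.cast_nonneg _
  have hL1 : 1 ≤ Real.log X := by linarith
  refine ⟨hL1, fun F a Y hS => ⟨fun l n hn => ?_, fun l j => ?_⟩⟩
  · have h2 := val_le D X (F l) (hS.1 l).1 (hS.1 l).2 n (Real.log X ^ E) (one_le_pow₀ hL1) hn
    refine h2.trans ?_
    rw [← pow_mul]
    have h3 : ((D : ℝ) + 1) * (X * Real.log X ^ (E * D)) ≤ Real.log X * (X * Real.log X ^ (E * D)) :=
      mul_le_mul_of_nonneg_right hL (by positivity)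
    refine h3.trans ?_
    have h4 : Real.log X * (X * Real.log X ^ (E * D)) = X * Real.log X ^ (E * D + 1) := by ring
    rw [h4]
    apply mul_le_mul_of_nonneg_left _ (Nat.cast_nonneg _)
    exact pow_le_pow_right₀ hL1 (by omega)
  · obtain ⟨h2, h3, h4⟩ := hS.2 l j
    refine ⟨h2, le_trans ?_ h3, h4⟩
    apply div_le_div_of_nonneg_left (Nat.cast_nonneg _) (by positivity)
    exact pow_le_pow_right₀ hL1 (by omega)

theorem windows_main (hCHR : PO.S_CHR) (d g D B C : ℕ) (hd : 2 ≤ d) (hg : 1 ≤ g) (lam ε : ℝ) (hlam : 0 < lam) (hε : 0 < ε) :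
    ∃ X0 : ℕ, ∀ X : ℕ, X0 ≤ X → Windows d g D B C X lam ε := by
  obtain ⟨ε1, hε1, hchr⟩ := hCHR (d - 1) lam ε hlam hε
  set η : ℝ := min ε1 (ε / 3) with hη
  have hη0 : 0 < η := lt_min hε1 (by positivity)
  obtain ⟨m1, hm1⟩ := sizes_val (g := g) (d := d) D B (C + g + 3)
  have hall : ∀ k : ℕ, ∃ n : ℕ, k + 1 ≤ 2 * d → ∀ X : ℕ, n ≤ X → ∀ F : Fin g → ℕ → ℤ,
    (∀ l, ∀ p n : ℕ, (p : ℤ) ∣ F l (n + p) - F l n) →
    (∀ l, ∀ n : ℕ, (n : ℝ) ≤ Real.log X ^ (C + g + 3) → |(F l n : ℝ)| ≤ X * Real.log X ^ (B + (C + g + 3) * D + 1)) →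
    ∀ (a : Fin g → Fin d → ℤ) (Y : Fin g → Fin d → ℕ),
    (∀ l j, |(a l j : ℝ)| ≤ X ∧ (X : ℝ) / Real.log X ^ (B + (C + g + 3) * D + 1) ≤ Y l j ∧ (Y l j : ℝ) ≤ X) →
    ∀ m : ℕ, (m : ℝ) ≤ Real.log X ^ C →
    |∑ c ∈ (PO.cbox a Y).filter (fun c => 0 < PO.sing (PO.fv F c) (PO.ww X)),
        (((PO.cnt (PO.fv F c) m (PO.len X lam (PO.fv F c))).descFactorial k : ℕ) : ℝ) -
        lam ^ k * ((PO.cbox a Y).filter (fun c => 0 < PO.sing (PO.fv F c) (PO.ww X))).card| ≤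
      η * ((PO.cbox a Y).filter (fun c => 0 < PO.sing (PO.fv F c) (PO.ww X))).card := by
    intro k
    by_cases hk : k + 1 ≤ 2 * d
    · obtain ⟨n, hn⟩ := PO.a_ALL2 d g k C (B + (C + g + 3) * D + 1) hd hg hk lam η hlam hη0
      exact ⟨n, fun _ => hn⟩
    · exact ⟨0, fun h => absurd h hk⟩
  choose nn hnn using hall
  refine ⟨max ((range (2 * d)).sup nn) m1, fun X hX F a Y hS m hm => ?_⟩
  have a1 : ∀ k ≤ 2 * d - 1, nn k ≤ X := by
    intro k hk
    exact le_trans (le_trans (le_sup (f := nn) (mem_range.2 (by omega))) (le_max_left _ _)) hX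
  obtain ⟨_, h2⟩ := hm1 X (le_trans (le_max_right _ _) hX)
  obtain ⟨h3, h4⟩ := h2 F a Y hS
  set s := adm X F a Y with hs
  set S : (Fin g → Fin d → ℤ) → ℕ := fun c => P (poly F c) (window X lam m (poly F c)) with hSd
  have hmom : ∀ k ≤ 2 * d - 1, |∑ c ∈ s, (((S c).descFactorial k : ℕ) : ℝ) - lam ^ k * s.card| ≤ η * s.card := by
    intro k hk
    have h5 := hnn k (by omega) X (a1 k hk) (vals F) (per_vals F) h3 a Y h4 m hm
    rw [← adm_eq, ← hs] at h5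
    have e : ∑ c ∈ s, (((S c).descFactorial k : ℕ) : ℝ) =
        ∑ c ∈ s, (((PO.cnt (PO.fv (vals F) c) m (PO.len X lam (PO.fv (vals F) c))).descFactorial k : ℕ) : ℝ) := by
      apply sum_congr rfl
      intro c _
      rw [hSd]
      simp only
      rw [P_window]
    rw [e]
    exact h5
  have hη1 : η ≤ ε1 := min_le_left _ _
  have hη2 : η ≤ ε / 3 := min_le_right _ _
  have hs0 : (0 : ℝ) ≤ s.card := Nat.cast_nonneg _
  refine ⟨fun k hk => (hmom k hk).trans ?_, fun j hj => ?_, ?_⟩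
  · apply mul_le_mul_of_nonneg_right _ hs0
    linarith
  · have h5 := Run7.h871.PO.t_POIS (Fin g → Fin d → ℤ) s S (2 * d - 1) lam η hlam.le hη0.le hmom j hj
    refine h5.trans ?_
    apply mul_le_mul_of_nonneg_right _ hs0
    linarith
  · have h5 := hchr (Fin g → Fin d → ℤ) s S (fun k hk => (hmom k (by omega)).trans
      (mul_le_mul_of_nonneg_right hη1 hs0))
    have h6 : d - 1 + 1 = d := by omega
    rw [h6] at h5
    exact h5

theorem sets_main (d g D B C : ℕ) (hd : 2 ≤ d) (hg : 1 ≤ g) (Lam ε : ℝ) (hLam : 0 < Lam) (hε : 0 < ε) :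
    ∃ X0 : ℕ, ∀ X : ℕ, X0 ≤ X → Sets d g D B C X Lam ε := by
  obtain ⟨m1, hm1⟩ := sizes_val (g := g) (d := d) D B C
  have hall : ∀ k : ℕ, ∃ n : ℕ, k + 1 ≤ 2 * d → ∀ X : ℕ, n ≤ X → ∀ F : Fin g → ℕ → ℤ,
    (∀ l, ∀ n : ℕ, (n : ℝ) ≤ Real.log X ^ C → |(F l n : ℝ)| ≤ X * Real.log X ^ (B + C * D + 1)) →
    ∀ (a : Fin g → Fin d → ℤ) (Y : Fin g → Fin d → ℕ),
    (∀ l j, |(a l j : ℝ)| ≤ X ∧ (X : ℝ) / Real.log X ^ (B + C * D + 1) ≤ Y l j ∧ (Y l j : ℝ) ≤ X) →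
    ∀ (AA : (Fin g → Fin d → ℤ) → Finset ℕ) (EE : (Fin g → Fin d → ℤ) → Prop) [DecidablePred EE],
    (∀ c c', (∀ l j, (PO.WW X : ℤ) ∣ c l j - c' l j) → AA c = AA c' ∧ (EE c ↔ EE c')) →
    (∀ c, EE c → (∀ n ∈ AA c, (n : ℝ) ≤ Real.log X ^ C) ∧ PO.lamA X (PO.fv F c) (AA c) ≤ Lam) →
    |∑ c ∈ (PO.cbox a Y).filter EE, ((((PO.cntA (PO.fv F c) (AA c)).descFactorial k : ℕ) : ℝ) - PO.lamA X (PO.fv F c) (AA c) ^ k)| ≤
      ε * ((PO.cbox a Y).filter EE).card := by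
    intro k
    by_cases hk : k + 1 ≤ 2 * d
    · obtain ⟨n, hn⟩ := PO.a_ALLA d g k C (B + C * D + 1) hd hg hk Lam ε hLam hε
      exact ⟨n, fun _ => hn⟩
    · exact ⟨0, fun h => absurd h hk⟩
  choose nn hnn using hall
  obtain ⟨n2, hn2⟩ := PO.a_DISA d g C (B + C * D + 1) hd hg Lam ε hLam hε
  refine ⟨max ((range (2 * d)).sup nn) (max m1 n2), fun X hX F a Y hS A E _ hper hAE => ?_⟩
  have a1 : ∀ k ≤ 2 * d - 1, nn k ≤ X := by
    intro k hk
    exact le_trans (le_trans (le_sup (f := nn) (mem_range.2 (by omega))) (le_max_left _ _)) hX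
  obtain ⟨_, h2⟩ := hm1 X (le_trans (le_trans (le_max_left _ _) (le_max_right _ _)) hX)
  obtain ⟨h3, h4⟩ := h2 F a Y hS
  have hper' : ∀ c c', (∀ l j, (PO.WW X : ℤ) ∣ c l j - c' l j) → A c = A c' ∧ (E c ↔ E c') := by
    intro c c' h
    apply hper
    intro l j
    have e : (∏ p ∈ primes (w X), p : ℕ) = PO.WW X := by
      unfold PO.WW
      rw [primes_eq, w_eq]
    rw [e]
    exact h l j
  have hAE' : ∀ c, E c → (∀ n ∈ A c, (n : ℝ) ≤ Real.log X ^ C) ∧ PO.lamA X (PO.fv (vals F) c) (A c) ≤ Lam := by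
    intro c hc
    obtain ⟨h5, h6⟩ := hAE c hc
    rw [mean_eq, vals_poly] at h6
    exact ⟨h5, h6⟩
  have ebox : box a Y = PO.cbox a Y := rfl
  constructor
  · intro k hk
    have h5 := hnn k (by omega) X (a1 k hk) (vals F) h3 a Y h4 A E hper' hAE'
    simp only [mean_eq, P_eq, vals_poly, ebox]
    exact h5
  · intro j hj
    have h5 := hn2 X (le_trans (le_trans (le_max_right _ _) (le_max_right _ _)) hX) (vals F) h3 a Y h4 A E hper' hAE' j hj
    simp only [mean_eq, P_eq, vals_poly, ebox]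
    exact h5

theorem adm_main (d g B : ℕ) (hd : 2 ≤ d) : ∃ c0 : ℝ, 0 < c0 ∧ ∃ X0 : ℕ, ∀ X : ℕ, X0 ≤ X →
    ∀ (F : Fin g → ℤ[X]) (a : Fin g → Fin d → ℤ) (Y : Fin g → Fin d → ℕ),
    (∀ l j, (X : ℝ) / Real.log X ^ B ≤ Y l j) → c0 * #(box a Y) ≤ #(adm X F a Y) := by
  obtain ⟨c0, hc0, X0, h⟩ := PO.a_ADM d g B hd
  refine ⟨c0, hc0, X0, fun X hX F a Y hY => ?_⟩
  have h1 := h X hX (vals F) (per_vals F) a Y hY
  rw [adm_eq]
  refine le_trans (le_of_eq ?_) h1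
  congr 1
  unfold box
  rw [Fintype.card_piFinset]
  push_cast
  apply prod_congr rfl
  intro l _
  rw [Fintype.card_piFinset]
  push_cast
  apply prod_congr rfl
  intro j _
  rw [Int.card_Ico]
  simp

end Pool.Agent.Run7.h385.PO.Fin1
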