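import Pool.Agent.Run7.h385.PO.Asm
import Pool.Agent.Run7.h385.PO.Stm3

/-! # Project PO: one polynomial -/

set_option autoImplicit false

namespace Pool.Agent.Run7.h385.PO

open Finset
open Pool.Agent.H373R2.T7
open Pool.Agent.H807R2.Dav

/-- moments, distribution and void probability of `S` on `s` against those of Poisson, `2 K + 1` moments -/
def Stats {ι : Type} (K : ℕ) (lam ε : ℝ) (s : Finset ι) (S : ι → ℕ) : Prop :=
  (∀ k ≤ 2 * K + 1, |∑ c ∈ s, (((S c).descFactorial k : ℕ) : ℝ) - lam ^ k * #s| ≤ ε * #s) ∧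
  (∀ j ≤ 2 * K + 1, |(#(s.filter (fun c => S c = j)) : ℝ) - Real.exp (-lam) * lam ^ j / j.factorial * #s| ≤
    (lam ^ (2 * K + 1) / (j.factorial * (2 * K + 1 - j).factorial) + ε) * #s) ∧
  (#(s.filter (fun c => S c = 0)) : ℝ) ≤ (1 / (∑ i ∈ range (K + 1), lam ^ i / (i.factorial : ℝ)) + ε) * #s

lemma stats_of (hCHR : S_CHR) (K : ℕ) (lam ε : ℝ) (hlam : 0 < lam) (hε : 0 < ε) : ∃ η : ℝ, 0 < η ∧
    ∀ (ι : Type) (s : Finset ι) (S : ι → ℕ),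
      (∀ k ≤ 2 * K + 1, |∑ c ∈ s, (((S c).descFactorial k : ℕ) : ℝ) - lam ^ k * #s| ≤ η * #s) → Stats K lam ε s S := by
  obtain ⟨ε1, hε1, hchr⟩ := hCHR K lam ε hlam hε
  refine ⟨min ε1 (ε / 3), lt_min hε1 (by positivity), fun ι s S h => ?_⟩
  have hη1 : min ε1 (ε / 3) ≤ ε1 := min_le_left _ _
  have hη2 : min ε1 (ε / 3) ≤ ε / 3 := min_le_right _ _
  have hη0 : 0 < min ε1 (ε / 3) := lt_min hε1 (by positivity)
  have hs0 : (0 : ℝ) ≤ s.card := Nat.cast_nonneg _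
  refine ⟨fun k hk => (h k hk).trans ?_, fun j hj => ?_, ?_⟩
  · apply mul_le_mul_of_nonneg_right _ hs0
    linarith
  · refine (Run7.h871.PO.t_POIS ι s S (2 * K + 1) lam _ hlam.le hη0.le h j hj).trans ?_
    apply mul_le_mul_of_nonneg_right _ hs0
    linarith
  · exact hchr ι s S (fun k hk => (h k (by omega)).trans (mul_le_mul_of_nonneg_right hη1 hs0))

/-- one polynomial: the values -/
def fv1 {d : ℕ} (F : ℕ → ℤ) (c : Fin d → ℤ) (n : ℕ) : ℤ := F n + ∑ j : Fin d, c j * (n : ℤ) ^ (j : ℕ)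

noncomputable def box1 {d : ℕ} (a : Fin d → ℤ) (Y : Fin d → ℕ) : Finset (Fin d → ℤ) :=
  Fintype.piFinset (fun j => Ico (a j) (a j + Y j))

def omega1 (f : ℕ → ℤ) (p : ℕ) : ℕ := ((range p).filter (fun n => (p : ℤ) ∣ f n)).card

noncomputable def sing1 (f : ℕ → ℤ) (w : ℕ) : ℝ := ∏ p ∈ pz w, (1 - (omega1 f p : ℝ) / p) / (1 - 1 / (p : ℝ))

def cnt1 (f : ℕ → ℤ) (A : Finset ℕ) : ℕ := (A.filter (fun n => (f n).natAbs.Prime)).card

noncomputable def len1 (X : ℕ) (lam : ℝ) (f : ℕ → ℤ) : ℕ := ⌈lam * Real.log X / sing1 f (ww X)⌉₊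

lemma omega1_eq (f : ℕ → ℤ) (p : ℕ) : omega1 f p = omega (fun _ : Fin 1 => f) p := by
  unfold omega1 omega
  congr 1
  apply filter_congr
  intro n _
  constructor
  · intro h; exact ⟨0, h⟩
  · rintro ⟨_, h⟩; exact h

lemma sing1_eq (f : ℕ → ℤ) (w : ℕ) : sing1 f w = sing (fun _ : Fin 1 => f) w := by
  unfold sing1 sing
  apply prod_congr rfl
  intro p _
  rw [omega1_eq, pow_one]

lemma len1_eq (X : ℕ) (lam : ℝ) (f : ℕ → ℤ) : len1 X lam f = len X lam (fun _ : Fin 1 => f) := by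
  unfold len1 len
  rw [sing1_eq, pow_one]

lemma cnt1_eq (f : ℕ → ℤ) (A : Finset ℕ) : cnt1 f A = cntA (fun _ : Fin 1 => f) A := by
  unfold cnt1 cntA
  congr 1
  apply filter_congr
  intro n _
  constructor
  · intro h _; exact h
  · intro h; exact h 0

lemma fv1_eq {d : ℕ} (F : ℕ → ℤ) (c : Fin d → ℤ) : (fun _ : Fin 1 => fv1 F c) = fv (fun _ => F) (fun _ => c) := rfl

lemma sum_box1 {d : ℕ} (a : Fin d → ℤ) (Y : Fin d → ℕ) (Φ : (Fin 1 → Fin d → ℤ) → ℝ) :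
    ∑ c ∈ cbox (fun _ : Fin 1 => a) (fun _ => Y), Φ c = ∑ c ∈ box1 a Y, Φ (fun _ => c) := by
  symm
  apply sum_nbij' (fun c => fun _ => c) (fun c => c 0)
  · intro c hc
    unfold cbox
    rw [Fintype.mem_piFinset]
    intro _
    exact hc
  · intro c hc
    unfold cbox at hc
    rw [Fintype.mem_piFinset] at hc
    exact hc 0
  · intro c _
    rfl
  · intro c _
    funext i
    have : i = 0 := Subsingleton.elim _ _
    rw [this]
  · intro c _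
    rfl

/-- moments in windows, one polynomial -/
theorem one_moments (d k C C1 : ℕ) (hd : 2 ≤ d) (hk : k + 1 ≤ 2 * d) (lam ε : ℝ) (hlam : 0 < lam) (hε : 0 < ε) :
    ∃ X0 : ℕ, ∀ X : ℕ, X0 ≤ X → ∀ F : ℕ → ℤ,
    (∀ p n : ℕ, (p : ℤ) ∣ F (n + p) - F n) →
    (∀ n : ℕ, (n : ℝ) ≤ Real.log X ^ (C + 4) → |(F n : ℝ)| ≤ X * Real.log X ^ C1) →
    ∀ (a : Fin d → ℤ) (Y : Fin d → ℕ),
    (∀ j, |(a j : ℝ)| ≤ X ∧ (X : ℝ) / Real.log X ^ C1 ≤ Y j ∧ (Y j : ℝ) ≤ X) →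
    ∀ m : ℕ, (m : ℝ) ≤ Real.log X ^ C →
    |∑ c ∈ (box1 a Y).filter (fun c => 0 < sing1 (fv1 F c) (ww X)),
        (((cnt1 (fv1 F c) (Ioc m (m + len1 X lam (fv1 F c)))).descFactorial k : ℕ) : ℝ) -
        lam ^ k * #((box1 a Y).filter (fun c => 0 < sing1 (fv1 F c) (ww X)))| ≤
      ε * #((box1 a Y).filter (fun c => 0 < sing1 (fv1 F c) (ww X))) := by
  obtain ⟨X0, h⟩ := a_ALL2 d 1 k C C1 hd le_rfl hk lam ε hlam hε
  refine ⟨X0, fun X hX F hper hF a Y haY m hm => ?_⟩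
  have h1 := h X hX (fun _ => F) (fun _ p n => hper p n) (fun _ n hn => hF n hn) (fun _ => a) (fun _ => Y)
    (fun _ j => haY j) m hm
  have hc : (((cbox (fun _ : Fin 1 => a) (fun _ => Y)).filter (fun c => 0 < sing (fv (fun _ => F) c) (ww X))).card : ℝ) =
      #((box1 a Y).filter (fun c => 0 < sing1 (fv1 F c) (ww X))) := by
    have e1 : (((cbox (fun _ : Fin 1 => a) (fun _ => Y)).filter (fun c => 0 < sing (fv (fun _ => F) c) (ww X))).card : ℝ) =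
        ∑ c ∈ cbox (fun _ : Fin 1 => a) (fun _ => Y), if 0 < sing (fv (fun _ => F) c) (ww X) then (1 : ℝ) else 0 := by
      rw [← sum_filter, sum_const, nsmul_eq_mul, mul_one]
    have e2 : (#((box1 a Y).filter (fun c => 0 < sing1 (fv1 F c) (ww X))) : ℝ) =
        ∑ c ∈ box1 a Y, if 0 < sing1 (fv1 F c) (ww X) then (1 : ℝ) else 0 := by
      rw [← sum_filter, sum_const, nsmul_eq_mul, mul_one]
    rw [e1, e2, sum_box1]
    apply sum_congr rfl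
    intro c _
    rw [sing1_eq, fv1_eq]
  have hs : ∑ c ∈ (cbox (fun _ : Fin 1 => a) (fun _ => Y)).filter (fun c => 0 < sing (fv (fun _ => F) c) (ww X)),
        (((cnt (fv (fun _ => F) c) m (len X lam (fv (fun _ => F) c))).descFactorial k : ℕ) : ℝ) =
      ∑ c ∈ (box1 a Y).filter (fun c => 0 < sing1 (fv1 F c) (ww X)),
        (((cnt1 (fv1 F c) (Ioc m (m + len1 X lam (fv1 F c)))).descFactorial k : ℕ) : ℝ) := by
    rw [sum_filter, sum_filter, sum_box1]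
    apply sum_congr rfl
    intro c _
    rw [sing1_eq, cnt1_eq, len1_eq, fv1_eq]
    rfl
  rw [hc, hs] at h1
  exact h1

/-- windows, one polynomial -/
theorem one_windows (hCHR : S_CHR) (K C C1 : ℕ) (hK : 1 ≤ K) (lam ε : ℝ) (hlam : 0 < lam) (hε : 0 < ε) :
    ∃ X0 : ℕ, ∀ X : ℕ, X0 ≤ X → ∀ F : ℕ → ℤ,
    (∀ p n : ℕ, (p : ℤ) ∣ F (n + p) - F n) →
    (∀ n : ℕ, (n : ℝ) ≤ Real.log X ^ (C + 4) → |(F n : ℝ)| ≤ X * Real.log X ^ C1) →
    ∀ (a : Fin (K + 1) → ℤ) (Y : Fin (K + 1) → ℕ),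
    (∀ j, |(a j : ℝ)| ≤ X ∧ (X : ℝ) / Real.log X ^ C1 ≤ Y j ∧ (Y j : ℝ) ≤ X) →
    ∀ m : ℕ, (m : ℝ) ≤ Real.log X ^ C →
    Stats K lam ε ((box1 a Y).filter (fun c => 0 < sing1 (fv1 F c) (ww X)))
      (fun c => cnt1 (fv1 F c) (Ioc m (m + len1 X lam (fv1 F c)))) := by
  obtain ⟨η, hη, hst⟩ := stats_of hCHR K lam ε hlam hε
  have hall : ∀ k : ℕ, ∃ n : ℕ, k + 1 ≤ 2 * (K + 1) → ∀ X : ℕ, n ≤ X → ∀ F : ℕ → ℤ,
    (∀ p n : ℕ, (p : ℤ) ∣ F (n + p) - F n) →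
    (∀ n : ℕ, (n : ℝ) ≤ Real.log X ^ (C + 4) → |(F n : ℝ)| ≤ X * Real.log X ^ C1) →
    ∀ (a : Fin (K + 1) → ℤ) (Y : Fin (K + 1) → ℕ),
    (∀ j, |(a j : ℝ)| ≤ X ∧ (X : ℝ) / Real.log X ^ C1 ≤ Y j ∧ (Y j : ℝ) ≤ X) →
    ∀ m : ℕ, (m : ℝ) ≤ Real.log X ^ C →
    |∑ c ∈ (box1 a Y).filter (fun c => 0 < sing1 (fv1 F c) (ww X)),
        (((cnt1 (fv1 F c) (Ioc m (m + len1 X lam (fv1 F c)))).descFactorial k : ℕ) : ℝ) -
        lam ^ k * #((box1 a Y).filter (fun c => 0 < sing1 (fv1 F c) (ww X)))| ≤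
      η * #((box1 a Y).filter (fun c => 0 < sing1 (fv1 F c) (ww X))) := by
    intro k
    by_cases hk : k + 1 ≤ 2 * (K + 1)
    · obtain ⟨n, hn⟩ := one_moments (K + 1) k C C1 (by omega) hk lam η hlam hη
      exact ⟨n, fun _ => hn⟩
    · exact ⟨0, fun h => absurd h hk⟩
  choose nn hnn using hall
  refine ⟨(range (2 * (K + 1))).sup nn, fun X hX F hper hF a Y haY m hm => ?_⟩
  apply hst
  intro k hk
  exact hnn k (by omega) X (le_trans (le_sup (f := nn) (mem_range.2 (by omega))) hX) F hper hF a Y haY m hm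

/-- a positive proportion is admissible -/
theorem one_adm (d C : ℕ) (hd : 2 ≤ d) : ∃ c0 : ℝ, 0 < c0 ∧ ∃ X0 : ℕ, ∀ X : ℕ, X0 ≤ X → ∀ F : ℕ → ℤ,
    (∀ p n : ℕ, (p : ℤ) ∣ F (n + p) - F n) → ∀ (a : Fin d → ℤ) (Y : Fin d → ℕ), (∀ j, (X : ℝ) / Real.log X ^ C ≤ Y j) →
    c0 * #(box1 a Y) ≤ #((box1 a Y).filter (fun c => 0 < sing1 (fv1 F c) (ww X))) := by
  obtain ⟨c0, hc0, X0, h⟩ := a_ADM d 1 C hd
  refine ⟨c0, hc0, X0, fun X hX F hper a Y hY => ?_⟩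
  have h1 := h X hX (fun _ => F) (fun _ p n => hper p n) (fun _ => a) (fun _ => Y) (fun _ j => hY j)
  have hc : (((cbox (fun _ : Fin 1 => a) (fun _ => Y)).filter (fun c => 0 < sing (fv (fun _ => F) c) (ww X))).card : ℝ) =
      #((box1 a Y).filter (fun c => 0 < sing1 (fv1 F c) (ww X))) := by
    have e1 : (((cbox (fun _ : Fin 1 => a) (fun _ => Y)).filter (fun c => 0 < sing (fv (fun _ => F) c) (ww X))).card : ℝ) =
        ∑ c ∈ cbox (fun _ : Fin 1 => a) (fun _ => Y), if 0 < sing (fv (fun _ => F) c) (ww X) then (1 : ℝ) else 0 := by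
      rw [← sum_filter, sum_const, nsmul_eq_mul, mul_one]
    have e2 : (#((box1 a Y).filter (fun c => 0 < sing1 (fv1 F c) (ww X))) : ℝ) =
        ∑ c ∈ box1 a Y, if 0 < sing1 (fv1 F c) (ww X) then (1 : ℝ) else 0 := by
      rw [← sum_filter, sum_const, nsmul_eq_mul, mul_one]
    rw [e1, e2, sum_box1]
    apply sum_congr rfl
    intro c _
    rw [sing1_eq, fv1_eq]
  rw [hc] at h1
  refine le_trans (le_of_eq ?_) h1
  congr 1
  rw [Fin.prod_univ_one]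
  unfold box1
  rw [Fintype.card_piFinset]
  push_cast
  apply prod_congr rfl
  intro j _
  rw [Int.card_Ico]
  simp

end Pool.Agent.Run7.h385.PO
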