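import Pool.Agent.H373R2.T7.SupE2
import Pool.Agent.H373R2.T7.LamZ2

/-!
# Project PO: the number of prime values of random polynomials has Poisson moments

Interface file.  Every piece is a closed proposition `S_XXX`, with a complete proof in its comment.
A piece `XXX` is a theorem `t_XXX : (hypotheses S_YYY →) S_XXX` in a file
`Pool/Agent/Run7/<you>/PO/XXX.lean` which imports this file.

Throughout `L = log X`, `w = ww X = ⌊log log X / 4⌋`, `W = WW X = ∏_{p ≤ w} p ≤ √L`,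
`rho X = (Vz w)⁻¹ / L`; polynomials are `n ↦ u(n) + W (t_0 + t_1 n + ... + t_(d-1) n^(d-1))`
with `t` in a box of `ℤ^d` whose sides lie in `[X / L^C, X]`.
-/

set_option autoImplicit false

namespace Pool.Agent.Run7.h385.PO

open Finset
open Pool.Agent.H373R2.T7
open Pool.Agent.H807R2.Dav

/-- the box `[0, Y_0) × … × [0, Y_{d-1})` -/
noncomputable def box {d : ℕ} (Y : Fin d → ℕ) : Finset (Fin d → ℤ) := Fintype.piFinset fun j => Ico (0 : ℤ) (Y j)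

/-- `W (t_0 + t_1 n + … + t_{d-1} n^{d-1})` -/
def ev {d : ℕ} (W : ℕ) (t : Fin d → ℤ) (n : ℕ) : ℤ := (W : ℤ) * ∑ j : Fin d, t j * (n : ℤ) ^ (j : ℕ)

noncomputable def ww (X : ℕ) : ℕ := ⌊Real.log (Real.log X) / 4⌋₊

noncomputable def WW (X : ℕ) : ℕ := ∏ p ∈ pz (ww X), p

noncomputable def rho (X : ℕ) : ℝ := (Vz (ww X))⁻¹ / Real.log X

/-- proportion of the `t` modulo `p` such that `p` divides one of the values `u i + ev W t (n i)` -/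
noncomputable def gg (d : ℕ) {k : ℕ} (n : Fin k → ℕ) (u : Fin k → ℤ) (W p : ℕ) : ℝ :=
  (((box (fun _ : Fin d => p)).filter (fun t => ∃ i, (p : ℤ) ∣ u i + ev W t (n i))).card : ℝ) / (p : ℝ) ^ d

/-! ## A. Primes against their sieve model: Fourier analysis only, up to `2 d - 1` values -/

/-- BIL (about 80 lines; tools: `orth`, `sq_expand` in `Pool/Agent/H373R2/T7/BilF.lean`, `cs_norm` in
`Lin.lean`).  Take `M > 2K` with also `M > |α| S`, `M > |β| S`.  For each `s, s'`, with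
`v = u + α s + β s'`, `|v| ≤ K`, orthogonality modulo `M` gives
`Δ v = (1/M) ∑_{r<M} D(r) ee(-v r / M)`, `D(r) = ∑_{|m| ≤ K} Δ m ee(m r / M)`, `‖D(r)‖ ≤ B`.
So the sum is `(1/M) ∑_r D(r) ee(-u r/M) F(r) H(r)`, `F(r) = ∑_s f s ee(-α s r/M)`,
`H(r) = ∑_s' h s' ee(-β s' r/M)`; by Cauchy–Schwarz it is at most
`B ((1/M) ∑_r ‖F(r)‖²)^(1/2) ((1/M) ∑_r ‖H(r)‖²)^(1/2)` and (orthogonality; `M ∤ α (s₁ - s₂)`)
`(1/M) ∑_r ‖F(r)‖² = ∑_s |f s|² ≤ S R²`. -/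
def S_BIL : Prop :=
  ∀ (K : ℕ) (Δ : ℤ → ℝ) (B : ℝ),
    (∀ θ : ℝ, ‖∑ m ∈ Icc (-(K : ℤ)) K, ((Δ m : ℝ) : ℂ) * ee ((m : ℝ) * θ)‖ ≤ B) →
    ∀ (S : ℕ) (u α β : ℤ), α ≠ 0 → β ≠ 0 →
    (∀ s ∈ range S, ∀ s' ∈ range S, |u + α * (s : ℤ) + β * (s' : ℤ)| ≤ K) →
    ∀ (f h : ℕ → ℝ) (R : ℝ), 0 ≤ R → (∀ s ∈ range S, |f s| ≤ R) → (∀ s ∈ range S, |h s| ≤ R) →
    |∑ s ∈ range S, ∑ s' ∈ range S, Δ (u + α * (s : ℤ) + β * (s' : ℤ)) * (f s * h s')| ≤ B * S * R ^ 2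

/-- COEF (about 50 lines): the coefficients of `P = ∏_{i ∈ A} (x - n_i)`, a polynomial of degree
`|A| < d`, are at most `(N+1)^|A|` in absolute value (induction on `A`: multiplying by `x - n_i`
multiplies the maximum of the coefficients by at most `N + 1`); `Polynomial.eval_eq_sum_range'`,
`Fin.sum_univ_eq_sum_range`. -/
def S_COEF : Prop :=
  ∀ (d k : ℕ) (n : Fin k → ℕ) (N : ℕ), (∀ i, n i ≤ N) → ∀ A : Finset (Fin k), A.card < d →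
    ∃ a : Fin d → ℤ, (∀ x : ℤ, ∑ j : Fin d, a j * x ^ (j : ℕ) = ∏ i ∈ A, (x - (n i : ℤ))) ∧
      ∀ j, |a j| ≤ ((N : ℤ) + 1) ^ d

/-- SHIFT (about 80 lines): `∑_{t ∈ box} G(t+v) = ∑_{t ∈ box+v} G(t)`; the two boxes differ by at
most `2 ∑_j |v_j| ∏_{i≠j} Y_i ≤ 2 d H ∏ Y` points, all with `|t_j| ≤ 2 Y_j`. -/
def S_SHIFT : Prop :=
  ∀ (d : ℕ) (Y : Fin d → ℕ) (v : Fin d → ℤ) (G : (Fin d → ℤ) → ℝ) (R H : ℝ), 0 ≤ R → 0 ≤ H → H ≤ 1 →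
    (∀ j, |(v j : ℝ)| ≤ H * Y j) → (∀ t : Fin d → ℤ, (∀ j, |t j| ≤ 2 * (Y j : ℤ)) → |G t| ≤ R) →
    |∑ t ∈ box Y, G (t + v) - ∑ t ∈ box Y, G t| ≤ 2 * d * H * R * ∏ j, (Y j : ℝ)

/-- TERM (about 150 lines; uses BIL, COEF, SHIFT).  Put `G t = ∏_i φ_i(V_i t)`,
`V_i t = u i + ev W t (n i)`.  Split `univ \ {i0}` (at most `2d - 2` elements) in `A`, `B` with at
most `d - 1` elements; let `a`, `b` be the coefficient vectors of `p_A = ∏_{i∈A}(x - n_i)`,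
`p_B = ∏_{i∈B}(x - n_i)` (COEF).  For `0 ≤ s, s' < S` replace `t` by `t + s a + s' b` (SHIFT with
`H = 2 S (N+1)^d / Ym ≤ 1`, `R^k` in place of `R`) and average over `s, s'`: up to
`2 d H R^k ∏ Y` the sum is `S⁻² ∑_t ∑_{s,s'} G(t + s a + s' b)`.  Now
`V_i(t + s a + s' b) = V_i(t) + s W p_A(n_i) + s' W p_B(n_i)`: it does not depend on `s` for
`i ∈ A`, nor on `s'` for `i ∈ B`, and for `i = i0` it is `u + α s + β s'` with `α, β ≠ 0`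
(`n` injective).  BIL for each `t` (bound `R^k` for the products over `A` and over `B`):
inner double sum at most `B S (R^k)^2`. -/
def S_TERM : Prop :=
  ∀ (d k : ℕ), 1 ≤ d → k + 1 ≤ 2 * d → ∀ (n : Fin k → ℕ), Function.Injective n →
    ∀ N : ℕ, (∀ i, n i ≤ N) → ∀ (u : Fin k → ℤ) (W : ℕ), 1 ≤ W → ∀ (Y : Fin d → ℕ) (K Ym : ℕ),
    (∀ j, Ym ≤ Y j) →
    (∀ t : Fin d → ℤ, (∀ j, |t j| ≤ 2 * (Y j : ℤ)) → ∀ i, |u i + ev W t (n i)| ≤ K) →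
    ∀ (φ : Fin k → ℤ → ℝ) (R : ℝ), 1 ≤ R → (∀ i, ∀ m : ℤ, |m| ≤ K → |φ i m| ≤ R) →
    ∀ (i0 : Fin k) (B : ℝ),
    (∀ θ : ℝ, ‖∑ m ∈ Icc (-(K : ℤ)) K, ((φ i0 m : ℝ) : ℂ) * ee ((m : ℝ) * θ)‖ ≤ B) →
    ∀ S : ℕ, 1 ≤ S → 2 * S * (N + 1) ^ d ≤ Ym →
    |∑ t ∈ box Y, ∏ i, φ i (u i + ev W t (n i))| ≤
      (∏ j, (Y j : ℝ)) * (B * R ^ (2 * k) / S + 2 * d * (2 * S * ((N : ℝ) + 1) ^ d / Ym) * R ^ k)

/-- DIFF (about 150 lines; uses TERM, `sup_diff` in `Pool/Agent/H373R2/T7/SupE2.lean`,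
`Vz_inv_small` in `LamZ2.lean`).  Telescoping `∏ a_i - ∏ b_i = ∑_{i0} ∏_{i<i0} b_i (a_i0 - b_i0)
∏_{i>i0} a_i` and TERM with `φ_i(m) = Λ(|m|)`, `lamz z |m|` or, for `i0`, their difference;
`K = ⌈X L^(C d + C + 3)⌉` (all values are at most `K` as `W ≤ L`), `R = 2 log K`,
`B = 2 K / (log K)^U' + log K` (the sum over `|m| ≤ K` is twice a sum over `1..K` plus the term
`m = 0`), `S = ⌊X / L^C3⌋`, `N = ⌊L^C⌋`; first `C3` large in terms of `U, C, d, k`, then `U'`. -/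
def S_DIFF : Prop :=
  ∀ (d k C U : ℕ), 1 ≤ d → k + 1 ≤ 2 * d → ∃ B : ℕ, ∀ E : ℕ, ∃ X0 : ℕ, ∀ X : ℕ, X0 ≤ X →
    ∀ z : ℕ, Real.log X ^ B ≤ z → (z : ℝ) ≤ Real.log X ^ E →
    ∀ n : Fin k → ℕ, Function.Injective n → (∀ i, (n i : ℝ) ≤ Real.log X ^ C) →
    ∀ W : ℕ, 1 ≤ W → (W : ℝ) ≤ Real.log X →
    ∀ u : Fin k → ℤ, (∀ i, |(u i : ℝ)| ≤ X * Real.log X ^ C) →
    ∀ Y : Fin d → ℕ, (∀ j, (X : ℝ) / Real.log X ^ C ≤ Y j ∧ (Y j : ℝ) ≤ X) →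
    |∑ t ∈ box Y, (∏ i, ArithmeticFunction.vonMangoldt (u i + ev W t (n i)).natAbs -
        ∏ i, lamz z (u i + ev W t (n i)).natAbs)| ≤ (∏ j, (Y j : ℝ)) / Real.log X ^ U

/-! ## B. The sieve model -/

/-- CRT (about 90 lines; model: `crt_aux`, `crt_card` in `Pool/Agent/H373R2/T7/Crt.lean`, the same in
dimension one).  Exact count of a product of conditions modulo distinct primes in `(ℤ/q)^d`,
`q = ∏_{p∈S} p`. -/
def S_CRT : Prop :=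
  ∀ (d : ℕ) (A : ℕ → (Fin d → ℤ) → Prop) [∀ p t, Decidable (A p t)] (S : Finset ℕ),
    (∀ p ∈ S, p.Prime) →
    (∀ p ∈ S, ∀ t t' : Fin d → ℤ, (∀ j, t j ≡ t' j [ZMOD p]) → A p t → A p t') →
    ((box (fun _ : Fin d => ∏ p ∈ S, p)).filter (fun t => ∀ p ∈ S, A p t)).card =
      ∏ p ∈ S, ((box (fun _ : Fin d => p)).filter (fun t => A p t)).card

/-- COUNT (about 100 lines; uses CRT).  With `q = ∏_{p∈S} p ≤ Ym`: for each residue class `r` modulo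
`q` (a point of `box (fun _ => q)`) the number of `t ∈ box Y` congruent to `r` is
`∏_j (Y_j/q + θ_j)`, `|θ_j| ≤ 1`, which differs from `∏ Y_j / q^d` by at most
`(∏ Y_j / q^d) ((1 + q/Ym)^d - 1) ≤ (∏ Y_j / q^d) 2^d q/Ym`; sum over the at most `q^d` good
classes, whose exact number is given by CRT. -/
def S_COUNT : Prop :=
  ∀ (d : ℕ) (A : ℕ → (Fin d → ℤ) → Prop) [∀ p t, Decidable (A p t)] (S : Finset ℕ),
    (∀ p ∈ S, p.Prime) →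
    (∀ p ∈ S, ∀ t t' : Fin d → ℤ, (∀ j, t j ≡ t' j [ZMOD p]) → A p t → A p t') →
    ∀ (Y : Fin d → ℕ) (Ym : ℕ), (∀ j, Ym ≤ Y j) → ∏ p ∈ S, p ≤ Ym →
    |(((box Y).filter (fun t => ∀ p ∈ S, A p t)).card : ℝ) -
        (∏ j, (Y j : ℝ)) * ∏ p ∈ S, ((((box (fun _ : Fin d => p)).filter (fun t => A p t)).card : ℝ) / (p : ℝ) ^ d)| ≤
      2 ^ d * ((∏ p ∈ S, p : ℕ) : ℝ) / Ym * ∏ j, (Y j : ℝ)

/-- LOC (about 120 lines).  `p` prime, `p ∤ W`.  For one `i` exactly `p^(d-1)` of the `t` modulo `p`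
satisfy `p ∣ u i + ev W t (n i)` (`t_0` is determined by the others), so `gg ≤ k / p`; for `i ≠ j`
with `n i ≢ n j` modulo `p` at most `p^(d-2)` satisfy both (`t_0, t_1` are determined by the
others: two linear equations with determinant `W² (n_j - n_i)`); with `c(t)` the number of the
`i` with `p ∣ …`, `1[c ≥ 1] ≥ c - #{(i,j) : i < j, both}`. -/
def S_LOC : Prop :=
  (∀ (d k : ℕ), 1 ≤ d → ∀ (n : Fin k → ℕ) (u : Fin k → ℤ) (W p : ℕ), p.Prime → ¬ p ∣ W →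
    0 ≤ gg d n u W p ∧ gg d n u W p ≤ 1 ∧ gg d n u W p ≤ (k : ℝ) / p) ∧
  (∀ (d k : ℕ), 2 ≤ d → ∀ (n : Fin k → ℕ) (u : Fin k → ℤ) (W p : ℕ), p.Prime → ¬ p ∣ W →
    (∀ i j, i ≠ j → ¬ (p : ℤ) ∣ (n i : ℤ) - (n j : ℤ)) →
    (k : ℝ) / p - (k : ℝ) ^ 2 / (p : ℝ) ^ 2 ≤ gg d n u W p)

/-- PROD (about 150 lines; uses LOC).  For `p > w` (so `p ∤ W`, and `p ≥ 4 (k+1)^2` for large `X`):
`|1 - gg - (1 - 1/p)^k| ≤ 2 k²/p²` if the `n_i` are distinct modulo `p`, `≤ k/p` always; so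
`(1 - gg)/(1 - 1/p)^k = 1 + δ_p` with `|δ_p| ≤ 4k²/p²` or `2k/p` and
`|∏ (1 + δ_p) - 1| ≤ exp(∑ |δ_p|) - 1`.  `∑_{p > w} 4 k²/p² ≤ 4 k² / w`; the primes `p > w` dividing
`∏_{i<j} |n_i - n_j| ≤ L^(C k²)` number at most `C k² log L / log w` and each contributes at most
`2k/w`, `w ≥ log L / 4 - 1`: total `≤ 16 C k³ / log w → 0`. -/
def S_PROD : Prop :=
  ∀ (d k C : ℕ), 2 ≤ d → ∀ ε : ℝ, 0 < ε → ∃ X0 : ℕ, ∀ X : ℕ, X0 ≤ X → ∀ z : ℕ, ww X ≤ z →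
    ∀ n : Fin k → ℕ, Function.Injective n → (∀ i, (n i : ℝ) ≤ Real.log X ^ C) → ∀ u : Fin k → ℤ,
    |∏ p ∈ (pz z).filter (fun p => ww X < p), (1 - gg d n u (WW X) p) - (Vz z / Vz (ww X)) ^ k| ≤
      ε * (Vz z / Vz (ww X)) ^ k

/-- MODEL (about 130 lines; uses COUNT, LOC, PROD and `sieve_gen'`, `es_le`, `choice`, `card_small`
in `Pool/Agent/H373R2/T7/Bonf.lean`, `prod_le_pow` in `LamZ.lean`).  The product of the `lamz` is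
`(Vz z)^(-k)` times the indicator of: for all `p ∈ T = {w < p ≤ z}` and all `i`, `p ∤ V_i(t)` (for
`p ≤ w` automatic, `gcd(u_i, W) = 1`).  `sieve_gen'` with `s = box Y`, weights 1, `E p t = ∃ i, p ∣ V_i(t)`,
`g = gg`, `X = ∏ Y`, `R S = 2^d (z+1)^r / Ym ∏ Y` (COUNT), `r` from `choice k E (k+1) 4`, `es_le`
and `∑ gg ≤ k (1 + log z)`; errors are `≤ ∏ Y / L^(k+1)`-small against `∏ Y (Vz z)^k ≥ ∏ Y / L^k`
(`Vz_inv_small`); main term by PROD. -/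
def S_MODEL : Prop :=
  ∀ (d k C E : ℕ), 2 ≤ d → ∀ ε : ℝ, 0 < ε → ∃ X0 : ℕ, ∀ X : ℕ, X0 ≤ X →
    ∀ z : ℕ, 1 ≤ z → ww X ≤ z → (z : ℝ) ≤ Real.log X ^ E →
    ∀ n : Fin k → ℕ, Function.Injective n → (∀ i, (n i : ℝ) ≤ Real.log X ^ C) →
    ∀ u : Fin k → ℤ, (∀ i, IsCoprime (u i) (WW X : ℤ)) →
    ∀ Y : Fin d → ℕ, (∀ j, (X : ℝ) / Real.log X ^ C ≤ Y j) →
    |∑ t ∈ box Y, ∏ i, lamz z (u i + ev (WW X) t (n i)).natAbs - (∏ j, (Y j : ℝ)) * ((Vz (ww X))⁻¹) ^ k| ≤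
      ε * ((∏ j, (Y j : ℝ)) * ((Vz (ww X))⁻¹) ^ k)

/-! ## C. Prime values and moments -/

/-- RARE (about 40 lines): for fixed `t_1, …, t_(d-1)` the map `t_0 ↦ u + ev W t n` is injective. -/
def S_RARE : Prop :=
  ∀ (d : ℕ) (hd : 0 < d) (Y : Fin d → ℕ) (W : ℕ), 1 ≤ W → ∀ (n : ℕ) (u : ℤ) (Bad : Finset ℤ),
    (((box Y).filter (fun t => u + ev W t n ∈ Bad)).card : ℝ) * Y ⟨0, hd⟩ ≤ Bad.card * ∏ j, (Y j : ℝ)

/-- PRIMES (about 200 lines; uses DIFF, MODEL, RARE; `W ≤ √L` below).  DIFF with `U = 1` and MODEL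
with `z = ⌈L^B⌉` give `∑_t ∏ Λ(|V_i t|) = ∏ Y (Vz w)^(-k) (1 + O(ε'))`.  A value `v` is bad if
`|v| ≤ X / L^D` or `|v| ≤ X L^(C d + C + 3)` is a proper prime power; by RARE the `t` with a bad
value number at most `∏ Y / L^(2k+2)` (`D` large) and cost `≤ (2 L)^k` each in both sums; for a
good value in range `|Λ(|v|) - L 1[|v| prime]| ≤ (C' log L) 1[|v| prime]`, so the product of the
`Λ` is `L^k ∏ 1[prime] (1 + O(log L / L))`. -/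
def S_PRIMES : Prop :=
  ∀ (d k C : ℕ), 2 ≤ d → k + 1 ≤ 2 * d → ∀ ε : ℝ, 0 < ε → ∃ X0 : ℕ, ∀ X : ℕ, X0 ≤ X →
    ∀ n : Fin k → ℕ, Function.Injective n → (∀ i, (n i : ℝ) ≤ Real.log X ^ C) →
    ∀ u : Fin k → ℤ, (∀ i, |(u i : ℝ)| ≤ X * Real.log X ^ C) → (∀ i, IsCoprime (u i) (WW X : ℤ)) →
    ∀ Y : Fin d → ℕ, (∀ j, (X : ℝ) / Real.log X ^ C ≤ Y j ∧ (Y j : ℝ) ≤ X) →
    |(((box Y).filter (fun t => ∀ i, (u i + ev (WW X) t (n i)).natAbs.Prime)).card : ℝ) -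
        (∏ j, (Y j : ℝ)) * rho X ^ k| ≤ ε * ((∏ j, (Y j : ℝ)) * rho X ^ k)

/-- MOM (about 130 lines; uses PRIMES).  `(#A)_k` = number of injective maps from `Fin k` to `A`
(`Fintype.card_embedding_eq`); so the sum over `t` of `(cnt)_k` is the sum over the injective
`n : Fin k → T` of `∏_l #{t_l ∈ box (Y l) : all u_l(n_i) + ev W t_l (n_i) prime}`
(`Finset.prod_univ_sum`, or `Fintype.piFinset` of the filtered boxes: `Fintype.card_piFinset`), each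
factor being `∏_j Y_lj rho^k (1 + O(ε'))` by PRIMES (`k ≥ 1`; `k = 0` is trivial). -/
def S_MOM : Prop :=
  ∀ (d g k C : ℕ), 2 ≤ d → k + 1 ≤ 2 * d → ∀ ε : ℝ, 0 < ε → ∃ X0 : ℕ, ∀ X : ℕ, X0 ≤ X →
    ∀ T : Finset ℕ, (∀ n ∈ T, (n : ℝ) ≤ Real.log X ^ C) →
    ∀ u : Fin g → ℕ → ℤ, (∀ l, ∀ n ∈ T, |(u l n : ℝ)| ≤ X * Real.log X ^ C ∧ IsCoprime (u l n) (WW X : ℤ)) →
    ∀ Y : Fin g → Fin d → ℕ, (∀ l j, (X : ℝ) / Real.log X ^ C ≤ Y l j ∧ (Y l j : ℝ) ≤ X) →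
    |∑ t ∈ Fintype.piFinset (fun l => box (Y l)),
        (((T.filter (fun n => ∀ l, (u l n + ev (WW X) (t l) n).natAbs.Prime)).card.descFactorial k : ℕ) : ℝ) -
        (∏ l, ∏ j, (Y l j : ℝ)) * ((T.card.descFactorial k : ℕ) : ℝ) * rho X ^ (g * k)| ≤
      ε * ((∏ l, ∏ j, (Y l j : ℝ)) * ((T.card.descFactorial k : ℕ) : ℝ) * rho X ^ (g * k))

/-- POIS (about 120 lines): Bonferroni.  For a natural number `S` and `m ≥ 0` put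
`A_m(S) = ∑_{i ≤ m} (-1)^i (S)_(j+i) / (j! i!)`; then `1[S = j] ≤ A_m(S)` for even `m`, `≥` for odd
`m` (`(S)_(j+i)/(j! i!) = C(S,j) C(S-j,i)`, and the alternating partial sums of the binomials
`C(N,i)` are `(-1)^m C(N-1,m)` for `N ≥ 1`: `Int.alternating_sum_range_choose_of_ne` and its
truncated form, induction).  Apply with `m = K - j` and `m = K - j - 1` (if `j < K`; if `j = K` use
`0 ≤`): the number of `S i = j` lies between two consecutive partial sums, and so does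
`exp(-lam) lam^j / j!` times `#s` between the same partial sums of the exponential series; these
differ by `lam^K / (j! (K-j)!)`, and replacing the moments costs at most
`ε ∑_i 1/(j! i!) ≤ 3 ε`. -/
def S_POIS : Prop :=
  ∀ (ι : Type) (s : Finset ι) (S : ι → ℕ) (K : ℕ) (lam ε : ℝ), 0 ≤ lam → 0 ≤ ε →
    (∀ k ≤ K, |∑ i ∈ s, (((S i).descFactorial k : ℕ) : ℝ) - lam ^ k * s.card| ≤ ε * s.card) →
    ∀ j ≤ K, |((s.filter (fun i => S i = j)).card : ℝ) - Real.exp (-lam) * lam ^ j / j.factorial * s.card| ≤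
      (lam ^ K / (j.factorial * (K - j).factorial) + 3 * ε) * s.card

/-! ## D. Windows -/

/-- the number of the residues `n` modulo `p` such that `p` divides one of the `f l n` -/
def omega {g : ℕ} (f : Fin g → ℕ → ℤ) (p : ℕ) : ℕ := ((range p).filter (fun n => ∃ l, (p : ℤ) ∣ f l n)).card

/-- TCOUNT (about 90 lines; uses `crt_card` in `Pool/Agent/H373R2/T7/Crt.lean`): with
`q = ∏_{p ≤ w} p`, each block of `q` consecutive integers contains exactly `∏ (p - omega p)` of the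
`n` counted, and the rest (fewer than `q` integers) changes both sides by at most `q`. -/
def S_TCOUNT : Prop :=
  ∀ (g : ℕ) (f : Fin g → ℕ → ℤ) (w : ℕ),
    (∀ l, ∀ p ∈ pz w, ∀ n : ℕ, (p : ℤ) ∣ f l (n + p) - f l n) → ∀ m N : ℕ,
    |(((Ioc m (m + N)).filter (fun n => ∀ l, ∀ p ∈ pz w, ¬ (p : ℤ) ∣ f l n)).card : ℝ) -
        N * ∏ p ∈ pz w, (1 - (omega f p : ℝ) / p)| ≤ ((∏ p ∈ pz w, p : ℕ) : ℝ)

/-- SPLIT (about 90 lines): the points `c` of the box `∏ [a, a + Y)` are the `a + r + W t` with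
`0 ≤ r < W` and `0 ≤ t`, `r + W t < Y`, i.e. `t < ⌈(Y - r)/W⌉ = (Y + W - 1 - r)/W`, in each
coordinate. -/
def S_SPLIT : Prop :=
  ∀ (g d W : ℕ), 1 ≤ W → ∀ (a : Fin g → Fin d → ℤ) (Y : Fin g → Fin d → ℕ)
    (Φ : (Fin g → Fin d → ℤ) → ℝ),
    ∑ c ∈ Fintype.piFinset (fun l => Fintype.piFinset (fun j => Ico (a l j) (a l j + Y l j))), Φ c =
      ∑ r ∈ Fintype.piFinset (fun _ : Fin g => box (fun _ : Fin d => W)),
        ∑ t ∈ Fintype.piFinset (fun l => box (fun j => (Y l j + W - 1 - (r l j).toNat) / W)),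
          Φ (fun l j => a l j + r l j + W * t l j)

/-- TINY (about 60 lines, as RARE): for fixed other coordinates the map `c_l0 ↦` value is injective,
so for each `n ∈ T` and `l` at most a proportion `(2w+1)/Ym` of the box has a value at most `w`. -/
def S_TINY : Prop :=
  ∀ (g d : ℕ), 0 < d → ∀ (a : Fin g → Fin d → ℤ) (Y : Fin g → Fin d → ℕ) (F : Fin g → ℕ → ℤ)
    (T : Finset ℕ) (w Ym : ℕ), 1 ≤ Ym → (∀ l j, Ym ≤ Y l j) →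
    (((Fintype.piFinset (fun l => Fintype.piFinset (fun j => Ico (a l j) (a l j + Y l j)))).filter
        (fun c : Fin g → Fin d → ℤ => ∃ n ∈ T, ∃ l, |F l n + ∑ j : Fin d, c l j * (n : ℤ) ^ (j : ℕ)| ≤ w)).card : ℝ) ≤
      (T.card * g * (2 * w + 1) / Ym) * ∏ l, ∏ j, (Y l j : ℝ)

/-- WSMALL (about 40 lines): `ww X → ∞`, `(WW X)² ≤ log X` (`primorial_le_4_pow`), and
`(Vz (ww X))⁻¹ ≤ ww X` or so. -/
def S_WSMALL : Prop :=
  (∀ a : ℕ, ∃ X0 : ℕ, ∀ X : ℕ, X0 ≤ X → a ≤ ww X) ∧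
  (∃ X0 : ℕ, ∀ X : ℕ, X0 ≤ X → (WW X : ℝ) ^ 2 ≤ Real.log X ∧ 1 ≤ WW X ∧
    (Vz (ww X))⁻¹ ≤ Real.log (Real.log X))

end Pool.Agent.Run7.h385.PO
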