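import Pool.Agent.Run7.h385.PO.Stm

/-! # Project PO: the windows (interface, second part) -/

set_option autoImplicit false

namespace Pool.Agent.Run7.h385.PO

open Finset
open Pool.Agent.H373R2.T7
open Pool.Agent.H807R2.Dav

/-- the values of the polynomials `F_l + c_l0 + c_l1 x + … ` -/
def fv {g d : ℕ} (F : Fin g → ℕ → ℤ) (c : Fin g → Fin d → ℤ) (l : Fin g) (n : ℕ) : ℤ :=
  F l n + ∑ j : Fin d, c l j * (n : ℤ) ^ (j : ℕ)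

noncomputable def cbox {g d : ℕ} (a : Fin g → Fin d → ℤ) (Y : Fin g → Fin d → ℕ) : Finset (Fin g → Fin d → ℤ) :=
  Fintype.piFinset (fun l => Fintype.piFinset (fun j => Ico (a l j) (a l j + Y l j)))

/-- the truncated constant of Bateman and Horn -/
noncomputable def sing {g : ℕ} (f : Fin g → ℕ → ℤ) (w : ℕ) : ℝ :=
  ∏ p ∈ pz w, (1 - (omega f p : ℝ) / p) / (1 - 1 / (p : ℝ)) ^ g

def cnt {g : ℕ} (f : Fin g → ℕ → ℤ) (m N : ℕ) : ℕ := ((Ioc m (m + N)).filter (fun n => ∀ l, (f l n).natAbs.Prime)).card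

noncomputable def len {g : ℕ} (X : ℕ) (lam : ℝ) (f : Fin g → ℕ → ℤ) : ℕ :=
  ⌈lam * Real.log X ^ g / sing f (ww X)⌉₊

def S_TINY2 : Prop :=
  ∀ (g d W : ℕ), 0 < d → 1 ≤ W → ∀ (Y : Fin g → Fin d → ℕ) (u : Fin g → ℕ → ℤ)
    (T : Finset ℕ) (w Ym : ℕ), 1 ≤ Ym → (∀ l j, Ym ≤ Y l j) →
    (((Fintype.piFinset (fun l => box (Y l))).filter
        (fun t : Fin g → Fin d → ℤ => ∃ n ∈ T, ∃ l, |u l n + ev W (t l) n| ≤ w)).card : ℝ) ≤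
      (T.card * g * (2 * w + 1) / Ym) * ∏ l, ∏ j, (Y l j : ℝ)

/-- one class modulo `W` -/
def S_CLS : Prop :=
  ∀ (d g k C : ℕ), 2 ≤ d → 1 ≤ g → k + 1 ≤ 2 * d → ∀ lam ε : ℝ, 0 < lam → 0 < ε →
    ∃ X0 : ℕ, ∀ X : ℕ, X0 ≤ X → ∀ u : Fin g → ℕ → ℤ,
    (∀ l, ∀ p n : ℕ, (p : ℤ) ∣ u l (n + p) - u l n) →
    (∀ l, ∀ n : ℕ, (n : ℝ) ≤ Real.log X ^ (C + g + 3) → |(u l n : ℝ)| ≤ X * Real.log X ^ C) →
    0 < sing u (ww X) →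
    ∀ Y : Fin g → Fin d → ℕ, (∀ l j, (X : ℝ) / Real.log X ^ C ≤ Y l j ∧ (Y l j : ℝ) ≤ X) →
    ∀ m : ℕ, (m : ℝ) ≤ Real.log X ^ C →
    |∑ t ∈ Fintype.piFinset (fun l => box (Y l)),
        (((cnt (fun l n => u l n + ev (WW X) (t l) n) m (len X lam u)).descFactorial k : ℕ) : ℝ) -
        lam ^ k * ∏ l, ∏ j, (Y l j : ℝ)| ≤ ε * ∏ l, ∏ j, (Y l j : ℝ)

/-- all classes together -/
def S_ALL : Prop :=
  ∀ (d g k C : ℕ), 2 ≤ d → 1 ≤ g → k + 1 ≤ 2 * d → ∀ lam ε : ℝ, 0 < lam → 0 < ε →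
    ∃ X0 : ℕ, ∀ X : ℕ, X0 ≤ X → ∀ F : Fin g → ℕ → ℤ,
    (∀ l, ∀ p n : ℕ, (p : ℤ) ∣ F l (n + p) - F l n) →
    (∀ l, ∀ n : ℕ, (n : ℝ) ≤ Real.log X ^ (C + g + 3) → |(F l n : ℝ)| ≤ X * Real.log X ^ C) →
    ∀ (a : Fin g → Fin d → ℤ) (Y : Fin g → Fin d → ℕ),
    (∀ l j, |(a l j : ℝ)| ≤ X ∧ (X : ℝ) / Real.log X ^ C ≤ Y l j ∧ (Y l j : ℝ) ≤ X) →
    ∀ m : ℕ, (m : ℝ) ≤ Real.log X ^ C →
    |∑ c ∈ (cbox a Y).filter (fun c => 0 < sing (fv F c) (ww X)),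
        (((cnt (fv F c) m (len X lam (fv F c))).descFactorial k : ℕ) : ℝ) -
        lam ^ k * ((cbox a Y).filter (fun c => 0 < sing (fv F c) (ww X))).card| ≤
      ε * ((cbox a Y).filter (fun c => 0 < sing (fv F c) (ww X))).card

/-- ADM (about 150 lines; uses COUNT and WSMALL): a positive proportion of the systems is
admissible.  `0 < sing` means `omega < p` for all `p ≤ w`, i.e. for each `p ≤ w` there is an `n`
with all `f_l(n) ≢ 0` modulo `p`: a condition on `c` modulo `p`.  Its density `δ_p` in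
`(ℤ/p)^(g d)` is at least `(1 - 1/p)^g` (take `n = 0`: `c_l0` avoids one class) and at least
`1 - g²/p²` (take `n = 0` and `n = 1`: for each pair `(l, l')` the conditions `p ∣ f_l(0)`,
`p ∣ f_l'(1)` hold together for a proportion `1/p²`, as `d ≥ 2`).  So
`∏ δ_p ≥ 2^(-g (2g²+1)) / 2 =: 2 c0`.  COUNT in dimension `g d` (or `g` times dimension `d`):
error at most `2^(g d) W / Ym → 0`. -/
def S_ADM : Prop :=
  ∀ (d g C : ℕ), 2 ≤ d → ∃ c0 : ℝ, 0 < c0 ∧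
    ∃ X0 : ℕ, ∀ X : ℕ, X0 ≤ X → ∀ F : Fin g → ℕ → ℤ,
    (∀ l, ∀ p n : ℕ, (p : ℤ) ∣ F l (n + p) - F l n) →
    ∀ (a : Fin g → Fin d → ℤ) (Y : Fin g → Fin d → ℕ), (∀ l j, (X : ℝ) / Real.log X ^ C ≤ Y l j) →
    c0 * ∏ l, ∏ j, (Y l j : ℝ) ≤ (((cbox a Y).filter (fun c => 0 < sing (fv F c) (ww X))).card : ℝ)

end Pool.Agent.Run7.h385.PO
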